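import Mathlib

set_option autoImplicit false

/-! A linear bound for the cost of writing an element of a discrete group. -/

namespace Pool.Agent.H698R4

theorem linear_cost {E : Type} [Fintype E] (R : (E → ℝ) → ℕ → Prop)
    (h0 : R 0 0) (hadd : ∀ v w k l, R v k → R w l → R (v + w) (k + l))
    (hneg : ∀ v k, R v k → ∃ l, R (-v) l) (c : ℝ) (hc : 0 < c)
    (hdisc : ∀ v k, R v k → (∀ e, |v e| < c) → v = 0) :
    ∃ C : ℝ, 0 < C ∧ ∀ v k, R v k → ∃ l : ℕ, (l : ℝ) ≤ C * ‖v‖ ∧ R v l := by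
  classical
  let Λ : AddSubgroup (E → ℝ) :=
    { carrier := {v | ∃ k, R v k}
      zero_mem' := ⟨0, h0⟩
      add_mem' := by
        rintro v w ⟨k, hk⟩ ⟨l, hl⟩
        exact ⟨k + l, hadd v w k l hk hl⟩
      neg_mem' := by
        rintro v ⟨k, hk⟩
        exact hneg v k hk }
  have hΛ : ∀ v, v ∈ Λ ↔ ∃ k, R v k := fun v => Iff.rfl
  -- finiteness of bounded parts
  have hfin : ∀ r : ℝ, ({v | v ∈ Λ ∧ ‖v‖ ≤ r} : Set (E → ℝ)).Finite := by
    intro r
    refine Set.Finite.of_injOn (f := fun v : E → ℝ => fun e => ⌊v e / c⌋)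
      (t := Set.univ.pi fun _ : E => Set.Icc ⌊-r / c⌋ ⌊r / c⌋) ?_ ?_
      (Set.Finite.pi fun _ => Set.finite_Icc _ _)
    · rintro v ⟨-, hv⟩
      intro e _
      have h1 : |v e| ≤ r := by
        have := norm_le_pi_norm v e
        rw [Real.norm_eq_abs] at this
        exact this.trans hv
      rw [abs_le] at h1
      exact ⟨Int.floor_le_floor (by gcongr; exact h1.1), Int.floor_le_floor (by gcongr; exact h1.2)⟩
    · rintro v ⟨hv, -⟩ w ⟨hw, -⟩ hvw
      have h1 : v - w ∈ Λ := Λ.sub_mem hv hw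
      obtain ⟨k, hk⟩ := h1
      have h2 := hdisc _ k hk (fun e => by
        have h3 : ⌊v e / c⌋ = ⌊w e / c⌋ := congrFun hvw e
        have h4 := Int.abs_sub_lt_one_of_floor_eq_floor h3
        rw [← sub_div, abs_div, abs_of_pos hc, div_lt_one hc] at h4
        exact h4)
      exact sub_eq_zero.mp h2
  -- a basis of the span
  obtain ⟨b, hbΛ, hbspan, hbli⟩ := exists_linearIndependent ℝ (Λ : Set (E → ℝ))
  have hbfin : b.Finite := hbli.setFinite
  have := hbfin.fintype
  let B := Module.Basis.span hbli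
  have hcost1 : ∀ i : b, ∃ K : ℕ, (∃ k ≤ K, R i.1 k) ∧ ∃ k ≤ K, R (-i.1) k := by
    intro i
    obtain ⟨k, hk⟩ := (hΛ _).mp (hbΛ i.2)
    obtain ⟨l, hl⟩ := hneg _ _ hk
    exact ⟨max k l, ⟨k, le_max_left _ _, hk⟩, ⟨l, le_max_right _ _, hl⟩⟩
  choose K hK1 hK2 using hcost1
  have hnsm : ∀ (v : E → ℝ) (k : ℕ), R v k → ∀ n : ℕ, R (n • v) (n * k) := by
    intro v k hv n
    induction n with
    | zero => simpa using h0
    | succ n ih =>
      have := hadd _ _ _ _ ih hv
      rw [← succ_nsmul] at this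
      rwa [Nat.succ_mul]
  have hzsm : ∀ (i : b) (z : ℤ), ∃ l : ℕ, (l : ℝ) ≤ |(z : ℝ)| * K i ∧ R ((z : ℝ) • i.1) l := by
    intro i z
    rcases le_total 0 z with hz | hz
    · obtain ⟨n, rfl⟩ := Int.eq_ofNat_of_zero_le hz
      obtain ⟨k, hk, hR⟩ := hK1 i
      refine ⟨n * k, ?_, ?_⟩
      · push_cast
        rw [Nat.abs_cast]
        gcongr
      · have := hnsm _ _ hR n
        rw [Int.cast_natCast, Nat.cast_smul_eq_nsmul]
        exact this
    · obtain ⟨n, hn⟩ := Int.eq_ofNat_of_zero_le (neg_nonneg.mpr hz)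
      have hz' : z = -(n : ℤ) := by omega
      subst hz'
      obtain ⟨k, hk, hR⟩ := hK2 i
      refine ⟨n * k, ?_, ?_⟩
      · push_cast
        rw [abs_neg, Nat.abs_cast]
        gcongr
      · have := hnsm _ _ hR n
        rw [Int.cast_neg, Int.cast_natCast, neg_smul, Nat.cast_smul_eq_nsmul, ← smul_neg]
        exact this
  have hsum : ∀ (s : Finset b) (z : b → ℤ), ∃ l : ℕ, (l : ℝ) ≤ ∑ i ∈ s, |(z i : ℝ)| * K i ∧
      R (∑ i ∈ s, (z i : ℝ) • i.1) l := by
    intro s z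
    induction s using Finset.induction_on with
    | empty => exact ⟨0, by simp, by simpa using h0⟩
    | insert i s hi ih =>
      obtain ⟨l, hl, hR⟩ := ih
      obtain ⟨l', hl', hR'⟩ := hzsm i (z i)
      refine ⟨l' + l, ?_, ?_⟩
      · rw [Finset.sum_insert hi]
        push_cast
        linarith
      · rw [Finset.sum_insert hi]
        exact hadd _ _ _ _ hR' hR
  -- the small remainders
  set r : ℝ := ∑ i : b, ‖i.1‖ with hr
  have hM : ∃ M : ℕ, ∀ v ∈ ({v | v ∈ Λ ∧ ‖v‖ ≤ r} : Set (E → ℝ)), ∃ k ≤ M, R v k := by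
    have hf := hfin r
    refine Set.Finite.induction_on (motive := fun s _ => (s ⊆ (Λ : Set (E → ℝ))) →
      ∃ M : ℕ, ∀ v ∈ s, ∃ k ≤ M, R v k) _ hf (fun _ => ⟨0, by simp⟩) ?_ (fun v hv => hv.1)
    intro a s _ _ ih hsub
    obtain ⟨M, hM⟩ := ih (fun v hv => hsub (Set.mem_insert_of_mem _ hv))
    obtain ⟨k, hk⟩ := (hΛ a).mp (hsub (Set.mem_insert _ _))
    refine ⟨max M k, fun v hv => ?_⟩
    rcases hv with rfl | hv
    · exact ⟨k, le_max_right _ _, hk⟩
    · obtain ⟨k', hk', hR⟩ := hM v hv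
      exact ⟨k', hk'.trans (le_max_left _ _), hR⟩
  obtain ⟨M, hM⟩ := hM
  -- coordinates are bounded
  have hcoord : ∀ i : b, ∃ Ci : ℝ, 0 ≤ Ci ∧ ∀ v : Submodule.span ℝ (Set.range (Subtype.val : b → E → ℝ)),
      |B.coord i v| ≤ Ci * ‖(v : E → ℝ)‖ := by
    intro i
    let L := LinearMap.toContinuousLinearMap (B.coord i)
    refine ⟨‖L‖, ContinuousLinearMap.opNorm_nonneg L, fun v => ?_⟩
    have := L.le_opNorm v
    rw [Real.norm_eq_abs] at this
    exact this
  choose Ci hCi0 hCi using hcoord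
  refine ⟨(M + ∑ i, (K i : ℝ)) / c + ∑ i, Ci i * K i + 1, ?_, ?_⟩
  · have : (0 : ℝ) ≤ (M + ∑ i, (K i : ℝ)) / c := by positivity
    have h2 : (0 : ℝ) ≤ ∑ i, Ci i * K i := Finset.sum_nonneg fun i _ => by
      have := hCi0 i; positivity
    linarith
  · intro v k hv
    by_cases hv0 : v = 0
    · subst hv0
      exact ⟨0, by simp, h0⟩
    have hvc : c ≤ ‖v‖ := by
      by_contra hlt
      push Not at hlt
      exact hv0 (hdisc v k hv fun e => by
        have := norm_le_pi_norm v e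
        rw [Real.norm_eq_abs] at this
        exact this.trans_lt hlt)
    have hvs : v ∈ Submodule.span ℝ (Set.range (Subtype.val : b → E → ℝ)) := by
      rw [Subtype.range_coe, hbspan]
      exact Submodule.subset_span ⟨k, hv⟩
    let v' : Submodule.span ℝ (Set.range (Subtype.val : b → E → ℝ)) := ⟨v, hvs⟩
    have hrepr : v = ∑ i : b, B.coord i v' • i.1 := by
      have h1 := B.sum_repr v'
      have h2 := congrArg (Subtype.val) h1
      rw [Submodule.coe_sum] at h2
      have h3 : (v' : E → ℝ) = v := rfl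
      rw [h3] at h2
      rw [← h2]
      refine Finset.sum_congr rfl fun i _ => ?_
      rw [Submodule.coe_smul, Module.Basis.span_apply, Module.Basis.coord_apply]
    obtain ⟨l, hl, hR⟩ := hsum Finset.univ (fun i => ⌊B.coord i v'⌋)
    set w : E → ℝ := ∑ i : b, ((⌊B.coord i v'⌋ : ℤ) : ℝ) • i.1 with hw
    have hwΛ : w ∈ Λ := ⟨l, hR⟩
    have hu : v - w ∈ Λ := Λ.sub_mem ⟨k, hv⟩ hwΛ
    have hun : ‖v - w‖ ≤ r := by
      have h1 : v - w = ∑ i : b, (B.coord i v' - (⌊B.coord i v'⌋ : ℝ)) • i.1 := by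
        rw [hw]
        nth_rewrite 1 [hrepr]
        rw [← Finset.sum_sub_distrib]
        exact Finset.sum_congr rfl fun i _ => (sub_smul _ _ _).symm
      rw [h1, hr]
      refine (norm_sum_le _ _).trans (Finset.sum_le_sum fun i _ => ?_)
      rw [norm_smul, Real.norm_eq_abs]
      have h2 : |B.coord i v' - (⌊B.coord i v'⌋ : ℝ)| ≤ 1 := by
        rw [abs_of_nonneg (by linarith [Int.floor_le (B.coord i v')])]
        linarith [Int.lt_floor_add_one (B.coord i v')]
      calc _ ≤ 1 * ‖i.1‖ := by gcongr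
        _ = ‖i.1‖ := one_mul _
    obtain ⟨k', hk', hR'⟩ := hM _ ⟨hu, hun⟩
    refine ⟨k' + l, ?_, ?_⟩
    · have h1 : ∑ i : b, |((⌊B.coord i v'⌋ : ℤ) : ℝ)| * K i ≤
          ∑ i : b, (Ci i * ‖v‖ + 1) * K i := by
        refine Finset.sum_le_sum fun i _ => ?_
        have h2 : |((⌊B.coord i v'⌋ : ℤ) : ℝ)| ≤ |B.coord i v'| + 1 := by
          have h3 := Int.floor_le (B.coord i v')
          have h4 := Int.lt_floor_add_one (B.coord i v')
          rw [abs_le]
          constructor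
          · linarith [neg_abs_le (B.coord i v')]
          · linarith [le_abs_self (B.coord i v')]
        have h3 := hCi i v'
        have h4 : ‖(v' : E → ℝ)‖ = ‖v‖ := rfl
        rw [h4] at h3
        gcongr
        linarith
      have h5 : ∑ i : b, (Ci i * ‖v‖ + 1) * K i = (∑ i, Ci i * K i) * ‖v‖ + ∑ i, (K i : ℝ) := by
        rw [Finset.sum_mul, ← Finset.sum_add_distrib]
        exact Finset.sum_congr rfl fun i _ => by ring
      have h6 : ((M : ℝ) + ∑ i, (K i : ℝ)) ≤ (M + ∑ i, (K i : ℝ)) / c * ‖v‖ := by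
        rw [div_mul_eq_mul_div, le_div_iff₀ hc]
        have : (0 : ℝ) ≤ M + ∑ i, (K i : ℝ) := by positivity
        gcongr
      have h7 : (k' : ℝ) ≤ M := by exact_mod_cast hk'
      push_cast
      have h8 : 0 ≤ ‖v‖ := norm_nonneg v
      nlinarith
    · have := hadd _ _ _ _ hR' hR
      rwa [sub_add_cancel] at this

end Pool.Agent.H698R4
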