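import Pool.Agent.H698R4.MinHash

set_option autoImplicit false

/-! Proportional unions of clusters. -/

namespace Pool.Agent.H698R4

open Equiv

/-- From a partition of `X` into pieces of size at most `M` one can select pieces whose union has
each type `K` in proportion `lam`, up to a bounded error. -/
theorem select {X T : Type} [Fintype X] [DecidableEq X] [Fintype T] [DecidableEq T] (p : X → X)
    (t : X → T) (M : ℕ) (hM : ∀ x, (Finset.univ.filter (fun y => p y = x)).card ≤ M)
    (lam : ℝ) (h0 : 0 ≤ lam) (h1 : lam ≤ 1) :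
    ∃ R : Finset X, ∀ K : T,
      ((Finset.univ.filter (fun y => p y ∈ R ∧ t y = K)).card : ℝ) ≤
        lam * (Finset.univ.filter (fun y => t y = K)).card ∧
      lam * (Finset.univ.filter (fun y => t y = K)).card -
        (M * (M + 1) ^ Fintype.card T : ℕ) ≤
        ((Finset.univ.filter (fun y => p y ∈ R ∧ t y = K)).card : ℝ) := by
  classical
  -- profiles
  have hMK : ∀ c K, (Finset.univ.filter (fun y => p y = c ∧ t y = K)).card < M + 1 := by
    intro c K
    refine Nat.lt_succ_of_le (le_trans (Finset.card_le_card ?_) (hM c))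
    intro y hy
    rw [Finset.mem_filter] at hy ⊢
    exact ⟨hy.1, hy.2.1⟩
  let P : X → (T → Fin (M + 1)) := fun c K =>
    ⟨(Finset.univ.filter (fun y => p y = c ∧ t y = K)).card, hMK c K⟩
  have hP : ∀ c K, (P c K).1 = (Finset.univ.filter (fun y => p y = c ∧ t y = K)).card :=
    fun _ _ => rfl
  let 𝒞 : (T → Fin (M + 1)) → Finset X := fun π => Finset.univ.filter (fun c => P c = π)
  have h𝒞 : ∀ π c, c ∈ 𝒞 π ↔ P c = π := by
    intro π c
    show c ∈ Finset.univ.filter (fun c => P c = π) ↔ _
    simp
  have hsel : ∀ π, ∃ A ⊆ 𝒞 π, A.card = ⌊lam * (𝒞 π).card⌋₊ := by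
    intro π
    refine Finset.exists_subset_card_eq ?_
    refine Nat.floor_le_of_le ?_
    have : (0 : ℝ) ≤ (𝒞 π).card := Nat.cast_nonneg _
    nlinarith
  choose A hA hAc using hsel
  have hfl1 : ∀ π, ((A π).card : ℝ) ≤ lam * (𝒞 π).card := fun π => by
    rw [hAc]; exact Nat.floor_le (by positivity)
  have hfl2 : ∀ π, lam * (𝒞 π).card - 1 ≤ ((A π).card : ℝ) := fun π => by
    rw [hAc]
    have := Nat.lt_floor_add_one (lam * ((𝒞 π).card : ℝ))
    linarith
  refine ⟨Finset.univ.filter (fun c => c ∈ A (P c)), fun K => ?_⟩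
  have e1 : (Finset.univ.filter
      (fun y => p y ∈ Finset.univ.filter (fun c => c ∈ A (P c)) ∧ t y = K)).card =
      ∑ π, (π K).1 * (A π).card := by
    have g1 : (Finset.univ.filter
        (fun y => p y ∈ Finset.univ.filter (fun c => c ∈ A (P c)) ∧ t y = K)).card =
        ∑ c ∈ Finset.univ.filter (fun c => c ∈ A (P c)), (P c K).1 := by
      rw [Finset.card_eq_sum_card_fiberwise (t := Finset.univ.filter (fun c => c ∈ A (P c)))
        (f := p)]
      · refine Finset.sum_congr rfl fun c hc => ?_
        rw [hP]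
        congr 1
        ext y
        simp only [Finset.mem_filter, Finset.mem_univ, true_and]
        constructor
        · rintro ⟨⟨-, h⟩, h'⟩; exact ⟨h', h⟩
        · rintro ⟨h', h⟩
          refine ⟨⟨?_, h⟩, h'⟩
          rw [h']
          exact (Finset.mem_filter.mp hc).2
      · intro y hy
        exact (Finset.mem_filter.mp hy).2.1
    rw [g1, ← Finset.sum_fiberwise (s := Finset.univ.filter (fun c => c ∈ A (P c))) (g := P)]
    refine Finset.sum_congr rfl fun π _ => ?_
    have g2 : (Finset.univ.filter (fun c => c ∈ A (P c))).filter (fun c => P c = π) = A π := by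
      ext c
      rw [Finset.mem_filter, Finset.mem_filter]
      constructor
      · rintro ⟨⟨-, h⟩, h'⟩; rw [h'] at h; exact h
      · intro h
        have h' : P c = π := (h𝒞 π c).mp (hA π h)
        exact ⟨⟨Finset.mem_univ _, by rw [h']; exact h⟩, h'⟩
    rw [g2, Finset.sum_congr rfl (fun c hc => by
      rw [show P c = π from (h𝒞 π c).mp (hA π hc)] : ∀ c ∈ A π, (P c K).1 = (π K).1)]
    rw [Finset.sum_const, smul_eq_mul, mul_comm]
  have e2 : (Finset.univ.filter (fun y => t y = K)).card = ∑ π, (π K).1 * (𝒞 π).card := by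
    have g1 : (Finset.univ.filter (fun y => t y = K)).card = ∑ c, (P c K).1 := by
      rw [Finset.card_eq_sum_card_fiberwise (t := Finset.univ) (f := p)]
      · refine Finset.sum_congr rfl fun c hc => ?_
        rw [hP]
        congr 1
        ext y
        simp only [Finset.mem_filter, Finset.mem_univ, true_and]
        exact and_comm
      · intro y _
        exact Finset.mem_coe.mpr (Finset.mem_univ _)
    rw [g1, ← Finset.sum_fiberwise (s := Finset.univ) (g := P)]
    refine Finset.sum_congr rfl fun π _ => ?_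
    rw [Finset.sum_congr rfl (fun c hc => by
      rw [(Finset.mem_filter.mp hc).2] : ∀ c ∈ Finset.univ.filter (fun c => P c = π),
        (P c K).1 = (π K).1)]
    rw [Finset.sum_const, smul_eq_mul, mul_comm]
  rw [e1, e2]
  push_cast
  constructor
  · rw [Finset.mul_sum]
    refine Finset.sum_le_sum fun π _ => ?_
    have h2 := hfl1 π
    have h3 : (0 : ℝ) ≤ (π K).1 := Nat.cast_nonneg _
    nlinarith
  · have h4 : (∑ π : T → Fin (M + 1), (((π K).1 : ℕ) : ℝ)) ≤ M * ((M : ℝ) + 1) ^ Fintype.card T := by
      calc (∑ π : T → Fin (M + 1), (((π K).1 : ℕ) : ℝ)) ≤ ∑ π : T → Fin (M + 1), (M : ℝ) := by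
            refine Finset.sum_le_sum fun π _ => ?_
            exact_mod_cast Nat.le_of_lt_succ (π K).2
        _ = M * ((M : ℝ) + 1) ^ Fintype.card T := by
            rw [Finset.sum_const, Finset.card_univ, Fintype.card_fun, Fintype.card_fin,
              nsmul_eq_mul]
            push_cast
            ring
    have h5 : lam * ∑ π : T → Fin (M + 1), (((π K).1 : ℕ) : ℝ) * ((𝒞 π).card : ℝ) -
        ∑ π : T → Fin (M + 1), (((π K).1 : ℕ) : ℝ) ≤
        ∑ π : T → Fin (M + 1), (((π K).1 : ℕ) : ℝ) * ((A π).card : ℝ) := by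
      rw [Finset.mul_sum, ← Finset.sum_sub_distrib]
      refine Finset.sum_le_sum fun π _ => ?_
      have h2 := hfl2 π
      have h3 : (0 : ℝ) ≤ (π K).1 := Nat.cast_nonneg _
      nlinarith
    linarith

end Pool.Agent.H698R4
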