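import Pool.Agent.H698R3.AmMain
import Pool.Agent.H698R4.Cost

set_option autoImplicit false

/-! Flexible stability of amalgams over finite groups: the abstract argument. -/

namespace Pool.Agent.H698R4

open Filter Topology Pool.Agent.H698R3.Amalg

/-- Extension by the identity and block sums in a class. -/
structure Ops (𝒞 : Cls) where
  zero : ∀ k : ℕ, k = 0 → ∀ x y : 𝒞.C k, 𝒞.d k x y = 0
  ex : ∀ {k l : ℕ}, k ≤ l → (𝒞.C k →* 𝒞.C l)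
  ex_ex : ∀ {k l m : ℕ} (h : k ≤ l) (h' : l ≤ m) (x : 𝒞.C k), ex h' (ex h x) = ex (h.trans h') x
  ex_rfl : ∀ (k : ℕ) (x : 𝒞.C k), ex (le_refl k) x = x
  ex_d : ∀ {k l : ℕ} (h : k ≤ l) (x y : 𝒞.C k), 𝒞.d l (ex h x) (ex h y) ≤ 𝒞.d k x y
  ex_d' : ∀ {k l : ℕ} (h : k ≤ l), l ≤ 2 * k → ∀ (x y : 𝒞.C k),
    𝒞.d k x y ≤ 2 * 𝒞.d l (ex h x) (ex h y)
  ds : ∀ (k l : ℕ), 𝒞.C k × 𝒞.C l →* 𝒞.C (k + l)
  ds_ex : ∀ (k l : ℕ) (x : 𝒞.C k), ds k l (x, 1) = ex (Nat.le_add_right k l) x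
  ds_d : ∀ (k l : ℕ) (x : 𝒞.C k) (y y' : 𝒞.C l),
    𝒞.d (k + l) (ds k l (x, y)) (ds k l (x, y')) ^ 2 * ((k : ℝ) + l) ≤ 4 * l

variable {𝒞 : Cls} (O : Ops 𝒞)

/-- block sum of two homomorphisms -/
def Ops.sm {G : Type} [Group G] {k l : ℕ} (ψ : G →* 𝒞.C k) (ψ' : G →* 𝒞.C l) : G →* 𝒞.C (k + l) :=
  (O.ds k l).comp (ψ.prod ψ')

theorem Ops.sm_apply {G : Type} [Group G] {k l : ℕ} (ψ : G →* 𝒞.C k) (ψ' : G →* 𝒞.C l) (g : G) :
    O.sm ψ ψ' g = O.ds k l (ψ g, ψ' g) := rfl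

/-- Flexible stability, for maps into the groups of the class. -/
def Flex (G : Type) [Group G] : Prop :=
  ∀ (k : ℕ → ℕ) (φ : ∀ n, G → 𝒞.C (k n)),
    (∀ a b : G, Tendsto (fun n => 𝒞.d (k n) (φ n a * φ n b) (φ n (a * b))) atTop (𝓝 0)) →
    ∃ (m : ℕ → ℕ) (hm : ∀ n, k n ≤ m n) (ψ : ∀ n, G →* 𝒞.C (m n)),
      (∀ ε : ℝ, 0 < ε → ∀ᶠ n in atTop, (m n : ℝ) ≤ (1 + ε) * k n) ∧
      ∀ a : G, Tendsto (fun n => 𝒞.d (m n) (O.ex (hm n) (φ n a)) (ψ n a)) atTop (𝓝 0)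

/-- `hv` is additive on block sums. -/
def HAdd {H : Type} [Group H] (D : HData 𝒞 H) : Prop :=
  ∀ (k l : ℕ) (π : H →* 𝒞.C k) (π' : H →* 𝒞.C l) (e : D.E),
    D.hv (k + l) (O.sm π π') e = D.hv k π e + D.hv l π' e

section

variable {H G₁ G₂ : Type} [Group H] [Group G₁] [Group G₂] (f₁ : H →* G₁) (f₂ : H →* G₂)
  (D : HData 𝒞 H)

/-- every homomorphism of `G₁` is absorbed by one whose restriction to `H` has the same type as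
the restriction of a homomorphism of `G₂`. -/
def Absorb : Prop :=
  ∀ (k : ℕ) (ψ : G₁ →* 𝒞.C k), ∃ (l : ℕ) (ψ' : G₁ →* 𝒞.C l) (θ : G₂ →* 𝒞.C (k + l)),
    ∀ e, D.hv k (ψ.comp f₁) e + D.hv l (ψ'.comp f₁) e = D.hv (k + l) (θ.comp f₂) e

/-- differences of types -/
def Rp (v : D.E → ℝ) (k : ℕ) : Prop :=
  ∃ (ψ₁ : G₁ →* 𝒞.C k) (ψ₂ : G₂ →* 𝒞.C k),
    ∀ e, D.hv k (ψ₁.comp f₁) e - D.hv k (ψ₂.comp f₂) e = v e

variable {O f₁ f₂ D}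

theorem sm_comp {G : Type} [Group G] {k l : ℕ} (ψ : G →* 𝒞.C k) (ψ' : G →* 𝒞.C l) (f : H →* G) :
    (O.sm ψ ψ').comp f = O.sm (ψ.comp f) (ψ'.comp f) := rfl

theorem castHom {G : Type} [Group G] (f : H →* G) {a b : ℕ} (h : a = b) (ψ : G →* 𝒞.C a) :
    ∃ ψ' : G →* 𝒞.C b, ∀ e, D.hv b (ψ'.comp f) e = D.hv a (ψ.comp f) e := by
  subst h
  exact ⟨ψ, fun _ => rfl⟩

theorem Rp_zero : Rp f₁ f₂ D 0 0 := by
  refine ⟨1, 1, fun e => ?_⟩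
  show D.hv 0 1 e - D.hv 0 1 e = 0
  exact sub_self _

theorem Rp_add (hD : HAdd O D) (v w : D.E → ℝ) (k l : ℕ) (hv : Rp f₁ f₂ D v k)
    (hw : Rp f₁ f₂ D w l) : Rp f₁ f₂ D (v + w) (k + l) := by
  obtain ⟨ψ₁, ψ₂, h⟩ := hv
  obtain ⟨ψ₁', ψ₂', h'⟩ := hw
  refine ⟨O.sm ψ₁ ψ₁', O.sm ψ₂ ψ₂', fun e => ?_⟩
  rw [sm_comp, sm_comp, hD, hD, Pi.add_apply, ← h e, ← h' e]
  ring

theorem Rp_neg (hD : HAdd O D) (h12 : Absorb f₁ f₂ D) (h21 : Absorb f₂ f₁ D) (v : D.E → ℝ) (k : ℕ)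
    (hv : Rp f₁ f₂ D v k) : ∃ l, Rp f₁ f₂ D (-v) l := by
  obtain ⟨ψ₁, ψ₂, h⟩ := hv
  obtain ⟨l, ψ₁', θ₂, h1⟩ := h12 k ψ₁
  obtain ⟨l', ψ₂', θ₁, h2⟩ := h21 k ψ₂
  obtain ⟨χ, hχ⟩ := castHom (D := D) f₂ (show k + l + l' = k + l' + l by omega) (O.sm θ₂ ψ₂')
  refine ⟨k + l' + l, O.sm θ₁ ψ₁', χ, fun e => ?_⟩
  rw [hχ, sm_comp, sm_comp, hD, hD, Pi.neg_apply, ← h e, ← h1 e, ← h2 e]
  ring

theorem Rp_disc (v : D.E → ℝ) (k : ℕ) (hv : Rp f₁ f₂ D v k) (hs : ∀ e, |v e| < D.c) : v = 0 := by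
  obtain ⟨ψ₁, ψ₂, h⟩ := hv
  have := D.disc k (ψ₁.comp f₁) (ψ₂.comp f₂) (fun e => by rw [h e]; exact hs e)
  funext e
  rw [← h e, this, Pi.zero_apply, sub_self]

theorem ds_small (hm : 𝒞.IsMetric) (k l : ℕ) (x : 𝒞.C k) (y y' : 𝒞.C l) (κ : ℝ) (hκ : 0 ≤ κ)
    (hl : (l : ℝ) ≤ κ ^ 2 * k) :
    𝒞.d (k + l) (O.ds k l (x, y)) (O.ds k l (x, y')) ≤ 2 * κ := by
  rcases Nat.eq_zero_or_pos (k + l) with h0 | h0
  · rw [O.zero _ h0]; positivity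
  have h1 := O.ds_d k l x y y'
  have h2 : (0 : ℝ) < (k : ℝ) + l := by exact_mod_cast h0
  have h3 := hm.nonneg (k + l) (O.ds k l (x, y)) (O.ds k l (x, y'))
  have h4 : 𝒞.d (k + l) (O.ds k l (x, y)) (O.ds k l (x, y')) ^ 2 ≤ (2 * κ) ^ 2 := by
    have h5 : 𝒞.d (k + l) (O.ds k l (x, y)) (O.ds k l (x, y')) ^ 2 * ((k : ℝ) + l) ≤
        (2 * κ) ^ 2 * ((k : ℝ) + l) := by
      have h6 : (0 : ℝ) ≤ κ ^ 2 * l := by positivity
      nlinarith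
    exact le_of_mul_le_mul_right h5 h2
  exact abs_le_of_sq_le_sq' h4 (by positivity) |>.2

/-- The flexible version of matching. -/
theorem flex_matching (hm : 𝒞.IsMetric) (hD : HAdd O D) (h12 : Absorb f₁ f₂ D)
    (h21 : Absorb f₂ f₁ D) (ε : ℝ) (hε : 0 < ε) :
    ∃ δ : ℝ, 0 < δ ∧ ∀ k (ψ₁ : G₁ →* 𝒞.C k) (ψ₂ : G₂ →* 𝒞.C k),
      (∀ h, 𝒞.d k (ψ₁ (f₁ h)) (ψ₂ (f₂ h)) ≤ δ) →
      ∃ (m : ℕ) (θ₁ : G₁ →* 𝒞.C (k + m)) (θ₂ : G₂ →* 𝒞.C (k + m)), (m : ℝ) ≤ ε * k ∧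
        (∀ h, θ₁ (f₁ h) = θ₂ (f₂ h)) ∧
        (∀ g, 𝒞.d (k + m) (θ₁ g) (O.ex (Nat.le_add_right k m) (ψ₁ g)) ≤ ε) ∧
        (∀ g, 𝒞.d (k + m) (θ₂ g) (O.ex (Nat.le_add_right k m) (ψ₂ g)) ≤ ε) := by
  obtain ⟨C, hC, hcost⟩ := linear_cost (Rp f₁ f₂ D) Rp_zero (Rp_add hD) (Rp_neg hD h12 h21)
    D.c D.hc Rp_disc
  obtain ⟨δm, hδm, hmt⟩ := D.mtch (ε / 4) (by linarith)
  set κ : ℝ := min (min (ε / 8) 1) (δm / 8) with hκ
  have hκpos : 0 < κ := lt_min (lt_min (by linarith) one_pos) (by linarith)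
  have hκ1 : κ ≤ ε / 8 := (min_le_left _ _).trans (min_le_left _ _)
  have hκ2 : κ ≤ 1 := (min_le_left _ _).trans (min_le_right _ _)
  have hκ3 : κ ≤ δm / 8 := min_le_right _ _
  obtain ⟨δc, hδc, hcl⟩ := D.close (κ ^ 2 / C) (by positivity)
  refine ⟨min δc (δm / 3), lt_min hδc (by linarith), ?_⟩
  intro k ψ₁ ψ₂ hclose
  set v : D.E → ℝ := fun e => D.hv k (ψ₁.comp f₁) e - D.hv k (ψ₂.comp f₂) e with hv
  have hvn : ‖v‖ ≤ κ ^ 2 / C * k := by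
    rw [pi_norm_le_iff_of_nonneg (by positivity)]
    intro e
    rw [Real.norm_eq_abs]
    exact hcl k _ _ (fun h => (hclose h).trans (min_le_left _ _)) e
  have hRv : Rp f₁ f₂ D v k := ⟨ψ₁, ψ₂, fun e => rfl⟩
  obtain ⟨k', hk'⟩ := Rp_neg hD h12 h21 v k hRv
  obtain ⟨l, hl, s₁, s₂, hs⟩ := hcost (-v) k' hk'
  have hl' : (l : ℝ) ≤ κ ^ 2 * k := by
    rw [norm_neg] at hl
    calc (l : ℝ) ≤ C * ‖v‖ := hl
      _ ≤ C * (κ ^ 2 / C * k) := by gcongr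
      _ = κ ^ 2 * k := by field_simp
  have hd : ∀ (x : 𝒞.C k) (y : 𝒞.C l),
      𝒞.d (k + l) (O.ds k l (x, y)) (O.ex (Nat.le_add_right k l) x) ≤ 2 * κ := by
    intro x y
    rw [← O.ds_ex]
    exact ds_small hm k l x y 1 κ hκpos.le hl'
  obtain ⟨u, hu1, hu2⟩ := hmt (k + l) ((O.sm ψ₁ s₁).comp f₁) ((O.sm ψ₂ s₂).comp f₂)
    (by
      funext e
      rw [sm_comp, sm_comp, hD, hD]
      have h1 := hs e
      have h2 : D.hv k (ψ₁.comp f₁) e - D.hv k (ψ₂.comp f₂) e = v e := rfl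
      rw [Pi.neg_apply] at h1
      linarith)
    (by
      intro h
      have h1 := hd (ψ₁ (f₁ h)) (s₁ (f₁ h))
      have h2 := hd (ψ₂ (f₂ h)) (s₂ (f₂ h))
      have h3 := O.ex_d (Nat.le_add_right k l) (ψ₁ (f₁ h)) (ψ₂ (f₂ h))
      have h4 := hclose h
      have h5 := min_le_right δc (δm / 3)
      have h6 := hm.tri (k + l) (O.ds k l (ψ₁ (f₁ h), s₁ (f₁ h)))
        (O.ex (Nat.le_add_right k l) (ψ₁ (f₁ h))) (O.ds k l (ψ₂ (f₂ h), s₂ (f₂ h)))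
      have h7 := hm.tri (k + l) (O.ex (Nat.le_add_right k l) (ψ₁ (f₁ h)))
        (O.ex (Nat.le_add_right k l) (ψ₂ (f₂ h))) (O.ds k l (ψ₂ (f₂ h), s₂ (f₂ h)))
      rw [hm.symm _ (O.ex (Nat.le_add_right k l) (ψ₂ (f₂ h)))] at h7
      show 𝒞.d (k + l) (O.ds k l (ψ₁ (f₁ h), s₁ (f₁ h))) (O.ds k l (ψ₂ (f₂ h), s₂ (f₂ h))) ≤ δm
      linarith)
  refine ⟨l, O.sm ψ₁ s₁, (MulAut.conj u).toMonoidHom.comp (O.sm ψ₂ s₂), ?_, fun h => ?_,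
    fun g => ?_, fun g => ?_⟩
  · have h1 : κ ^ 2 ≤ ε := by nlinarith
    exact hl'.trans (by gcongr)
  · exact (hu2 h).symm
  · refine (hd _ _).trans ?_
    linarith
  · have h1 := hd (ψ₂ g) (s₂ g)
    have h2 := hm.conj (k + l) u (O.ds k l (ψ₂ g, s₂ g))
    have h3 := hm.tri (k + l) (u * O.ds k l (ψ₂ g, s₂ g) * u⁻¹) (O.ds k l (ψ₂ g, s₂ g))
      (O.ex (Nat.le_add_right k l) (ψ₂ g))
    show 𝒞.d (k + l) (u * O.ds k l (ψ₂ g, s₂ g) * u⁻¹) _ ≤ ε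
    linarith

/-- Amalgams over a finite group of flexibly stable groups are flexibly stable, given absorption.
-/
theorem flex_amalg [Finite H] (hm : 𝒞.IsMetric) (hD : HAdd O D) (h12 : Absorb f₁ f₂ D)
    (h21 : Absorb f₂ f₁ D) (hs₁ : Flex O G₁) (hs₂ : Flex O G₂) : Flex O (AmalgProd f₁ f₂) := by
  classical
  intro k φ hφ
  let N := Subgroup.normalClosure
    (Set.range (fun h : H => (Monoid.Coprod.inl (f₁ h) : Monoid.Coprod G₁ G₂) *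
      (Monoid.Coprod.inr (f₂ h))⁻¹))
  let ι₁ : G₁ →* AmalgProd f₁ f₂ := (QuotientGroup.mk' N).comp Monoid.Coprod.inl
  let ι₂ : G₂ →* AmalgProd f₁ f₂ := (QuotientGroup.mk' N).comp Monoid.Coprod.inr
  have hι : ∀ h, ι₁ (f₁ h) = ι₂ (f₂ h) := by
    intro h
    show (QuotientGroup.mk' N) (Monoid.Coprod.inl (f₁ h)) =
      (QuotientGroup.mk' N) (Monoid.Coprod.inr (f₂ h))
    have h1 : (Monoid.Coprod.inl (f₁ h) : Monoid.Coprod G₁ G₂) *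
      (Monoid.Coprod.inr (f₂ h))⁻¹ ∈ N := Subgroup.subset_normalClosure ⟨h, rfl⟩
    have h2 : (QuotientGroup.mk' N) ((Monoid.Coprod.inl (f₁ h) : Monoid.Coprod G₁ G₂) *
      (Monoid.Coprod.inr (f₂ h))⁻¹) = 1 := (QuotientGroup.eq_one_iff _).mpr h1
    rw [map_mul, map_inv] at h2
    exact mul_inv_eq_one.mp h2
  obtain ⟨m₁, hm₁, ψ₁', hb₁, hψ₁'⟩ := hs₁ k (fun n g => φ n (ι₁ g)) (fun a b => by
    simpa only [map_mul] using hφ (ι₁ a) (ι₁ b))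
  obtain ⟨m₂, hm₂, ψ₂', hb₂, hψ₂'⟩ := hs₂ k (fun n g => φ n (ι₂ g)) (fun a b => by
    simpa only [map_mul] using hφ (ι₂ a) (ι₂ b))
  let K : ℕ → ℕ := fun n => max (m₁ n) (m₂ n)
  have hkK : ∀ n, k n ≤ K n := fun n => (hm₁ n).trans (le_max_left _ _)
  let ψ₁ : ∀ n, G₁ →* 𝒞.C (K n) := fun n => (O.ex (le_max_left (m₁ n) (m₂ n))).comp (ψ₁' n)
  let ψ₂ : ∀ n, G₂ →* 𝒞.C (K n) := fun n => (O.ex (le_max_right (m₁ n) (m₂ n))).comp (ψ₂' n)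
  have hψ₁ : ∀ a : G₁, Tendsto (fun n => 𝒞.d (K n) (O.ex (hkK n) (φ n (ι₁ a))) (ψ₁ n a))
      atTop (𝓝 0) := by
    intro a
    refine squeeze_zero (fun n => hm.nonneg _ _ _) (fun n => ?_) (hψ₁' a)
    rw [← O.ex_ex (hm₁ n) (le_max_left (m₁ n) (m₂ n))]
    exact O.ex_d _ _ _
  have hψ₂ : ∀ a : G₂, Tendsto (fun n => 𝒞.d (K n) (O.ex (hkK n) (φ n (ι₂ a))) (ψ₂ n a))
      atTop (𝓝 0) := by
    intro a
    refine squeeze_zero (fun n => hm.nonneg _ _ _) (fun n => ?_) (hψ₂' a)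
    rw [← O.ex_ex (hm₂ n) (le_max_right (m₁ n) (m₂ n))]
    exact O.ex_d _ _ _
  let A : ℕ → ℕ → Prop := fun j n => ∃ (m : ℕ) (θ₁ : G₁ →* 𝒞.C (K n + m))
    (θ₂ : G₂ →* 𝒞.C (K n + m)),
    (∀ h, θ₁ (f₁ h) = θ₂ (f₂ h)) ∧
    (0 < j → (m : ℝ) ≤ 1 / ((j : ℝ) + 1) * K n ∧
      (∀ g, 𝒞.d (K n + m) (θ₁ g) (O.ex (Nat.le_add_right (K n) m) (ψ₁ n g)) ≤
        1 / ((j : ℝ) + 1)) ∧
      (∀ g, 𝒞.d (K n + m) (θ₂ g) (O.ex (Nat.le_add_right (K n) m) (ψ₂ n g)) ≤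
        1 / ((j : ℝ) + 1)))
  obtain ⟨κ, hκ1, hκ2⟩ := diag A
    (fun n => ⟨0, 1, 1, fun _ => rfl, fun h => absurd h (lt_irrefl 0)⟩)
    (by
      intro j
      obtain ⟨δ, hδ, hmat⟩ := flex_matching (O := O) (f₁ := f₁) (f₂ := f₂) hm hD h12 h21
        (1 / ((j : ℝ) + 1)) (by positivity)
      have hclose : ∀ h : H, Tendsto (fun n => 𝒞.d (K n) (ψ₁ n (f₁ h)) (ψ₂ n (f₂ h)))
          atTop (𝓝 0) := by
        intro h
        refine squeeze_zero (fun n => hm.nonneg _ _ _) (fun n => ?_)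
          (by simpa using (hψ₁ (f₁ h)).add (hψ₂ (f₂ h)))
        have h1 := hm.tri (K n) (ψ₁ n (f₁ h)) (O.ex (hkK n) (φ n (ι₁ (f₁ h)))) (ψ₂ n (f₂ h))
        rw [hm.symm (K n) (ψ₁ n (f₁ h)) (O.ex (hkK n) (φ n (ι₁ (f₁ h))))] at h1
        refine h1.trans ?_
        rw [hι h]
      have hev : ∀ᶠ n in atTop, ∀ h : H, 𝒞.d (K n) (ψ₁ n (f₁ h)) (ψ₂ n (f₂ h)) ≤ δ := by
        rw [Filter.eventually_all]
        intro h
        exact ((hclose h).eventually (gt_mem_nhds hδ)).mono (fun n hn => le_of_lt hn)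
      filter_upwards [hev] with n hn
      obtain ⟨m, θ₁, θ₂, h1, h2, h3, h4⟩ := hmat (K n) (ψ₁ n) (ψ₂ n) hn
      exact ⟨m, θ₁, θ₂, h2, fun _ => ⟨h1, h3, h4⟩⟩)
  choose m θ₁ θ₂ hθ hbd using hκ2
  have hinv : Tendsto (fun n => 1 / ((κ n : ℝ) + 1)) atTop (𝓝 0) :=
    tendsto_one_div_add_atTop_nhds_zero_nat.comp hκ1
  have hM : ∀ n, k n ≤ K n + m n := fun n => (hkK n).trans (Nat.le_add_right _ _)
  have hc₁ : ∀ g : G₁, Tendsto (fun n => 𝒞.d (K n + m n) (O.ex (hM n) (φ n (ι₁ g))) (θ₁ n g))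
      atTop (𝓝 0) := by
    intro g
    refine squeeze_zero' (Eventually.of_forall fun n => hm.nonneg _ _ _) ?_
      (by have := (hψ₁ g).add hinv; rwa [add_zero] at this)
    filter_upwards [hκ1.eventually (eventually_gt_atTop 0)] with n hn
    have h1 := (hbd n hn).2.1 g
    have h2 := O.ex_d (Nat.le_add_right (K n) (m n)) (O.ex (hkK n) (φ n (ι₁ g))) (ψ₁ n g)
    rw [O.ex_ex] at h2
    have h3 := hm.tri (K n + m n) (O.ex (hM n) (φ n (ι₁ g)))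
      (O.ex (Nat.le_add_right (K n) (m n)) (ψ₁ n g)) (θ₁ n g)
    rw [hm.symm _ (O.ex (Nat.le_add_right (K n) (m n)) (ψ₁ n g))] at h3
    linarith
  have hc₂ : ∀ g : G₂, Tendsto (fun n => 𝒞.d (K n + m n) (O.ex (hM n) (φ n (ι₂ g))) (θ₂ n g))
      atTop (𝓝 0) := by
    intro g
    refine squeeze_zero' (Eventually.of_forall fun n => hm.nonneg _ _ _) ?_
      (by have := (hψ₂ g).add hinv; rwa [add_zero] at this)
    filter_upwards [hκ1.eventually (eventually_gt_atTop 0)] with n hn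
    have h1 := (hbd n hn).2.2 g
    have h2 := O.ex_d (Nat.le_add_right (K n) (m n)) (O.ex (hkK n) (φ n (ι₂ g))) (ψ₂ n g)
    rw [O.ex_ex] at h2
    have h3 := hm.tri (K n + m n) (O.ex (hM n) (φ n (ι₂ g)))
      (O.ex (Nat.le_add_right (K n) (m n)) (ψ₂ n g)) (θ₂ n g)
    rw [hm.symm _ (O.ex (Nat.le_add_right (K n) (m n)) (ψ₂ n g))] at h3
    linarith
  -- the homomorphisms on the amalgam
  have hN : ∀ n, N ≤ (Monoid.Coprod.lift (θ₁ n) (θ₂ n)).ker := by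
    intro n
    refine Subgroup.normalClosure_le_normal ?_
    rintro _ ⟨h, rfl⟩
    show Monoid.Coprod.lift (θ₁ n) (θ₂ n) _ = 1
    rw [map_mul, map_inv, Monoid.Coprod.lift_apply_inl, Monoid.Coprod.lift_apply_inr, hθ,
      mul_inv_cancel]
  let Θ : ∀ n, AmalgProd f₁ f₂ →* 𝒞.C (K n + m n) := fun n =>
    QuotientGroup.lift N (Monoid.Coprod.lift (θ₁ n) (θ₂ n)) (fun x hx => hN n hx)
  refine ⟨fun n => K n + m n, hM, Θ, ?_, ?_⟩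
  · intro ε hε
    have h1 : ∀ᶠ n in atTop, (m₁ n : ℝ) ≤ (1 + min (ε / 3) 1) * k n :=
      hb₁ _ (lt_min (by linarith) one_pos)
    have h2 : ∀ᶠ n in atTop, (m₂ n : ℝ) ≤ (1 + min (ε / 3) 1) * k n :=
      hb₂ _ (lt_min (by linarith) one_pos)
    have h3 : ∀ᶠ n in atTop, 1 / ((κ n : ℝ) + 1) ≤ ε / 3 :=
      (hinv.eventually (gt_mem_nhds (show (0 : ℝ) < ε / 3 by linarith))).mono
        (fun n hn => le_of_lt hn)
    filter_upwards [h1, h2, h3, hκ1.eventually (eventually_gt_atTop 0)] with n g1 g2 g3 g4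
    have g5 := (hbd n g4).1
    have g6 : ((K n : ℕ) : ℝ) ≤ (1 + min (ε / 3) 1) * k n := by
      show ((max (m₁ n) (m₂ n) : ℕ) : ℝ) ≤ _
      rw [Nat.cast_max]
      exact max_le g1 g2
    have g7 : (m n : ℝ) ≤ ε / 3 * K n := g5.trans (by gcongr)
    have g8 : min (ε / 3) 1 ≤ ε / 3 := min_le_left _ _
    have g9 : min (ε / 3) 1 ≤ 1 := min_le_right _ _
    have g10 : (0 : ℝ) ≤ k n := Nat.cast_nonneg _
    push_cast
    have g11 : ((K n : ℕ) : ℝ) ≤ (1 + ε / 3) * k n := g6.trans (by gcongr)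
    have g12 : ((K n : ℕ) : ℝ) ≤ 2 * k n := by
      refine g6.trans ?_
      nlinarith
    nlinarith
  · intro a
    obtain ⟨x, rfl⟩ := QuotientGroup.mk_surjective a
    have key : ∀ x : Monoid.Coprod G₁ G₂, Tendsto (fun n => 𝒞.d (K n + m n)
        (O.ex (hM n) (φ n ((QuotientGroup.mk' N) x))) (Θ n ((QuotientGroup.mk' N) x)))
        atTop (𝓝 0) := by
      intro x
      induction x using Monoid.Coprod.induction_on with
      | inl g =>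
        refine (hc₁ g).congr (fun n => ?_)
        have h2 : Θ n ((QuotientGroup.mk' N) (Monoid.Coprod.inl g)) = θ₁ n g := by
          show Monoid.Coprod.lift (θ₁ n) (θ₂ n) (Monoid.Coprod.inl g) = θ₁ n g
          rw [Monoid.Coprod.lift_apply_inl]
        rw [h2]
        rfl
      | inr g =>
        refine (hc₂ g).congr (fun n => ?_)
        have h2 : Θ n ((QuotientGroup.mk' N) (Monoid.Coprod.inr g)) = θ₂ n g := by
          show Monoid.Coprod.lift (θ₁ n) (θ₂ n) (Monoid.Coprod.inr g) = θ₂ n g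
          rw [Monoid.Coprod.lift_apply_inr]
        rw [h2]
        rfl
      | mul x y hx hy =>
        have h0 := hφ ((QuotientGroup.mk' N) x) ((QuotientGroup.mk' N) y)
        have t := h0.add (hx.add hy)
        rw [add_zero, add_zero] at t
        refine squeeze_zero (fun n => hm.nonneg _ _ _) (fun n => ?_) t
        rw [map_mul (QuotientGroup.mk' N) x y, map_mul (Θ n)]
        have h1 := hm.tri (K n + m n)
          (O.ex (hM n) (φ n ((QuotientGroup.mk' N) x * (QuotientGroup.mk' N) y)))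
          (O.ex (hM n) (φ n ((QuotientGroup.mk' N) x)) *
            O.ex (hM n) (φ n ((QuotientGroup.mk' N) y)))
          (Θ n ((QuotientGroup.mk' N) x) * Θ n ((QuotientGroup.mk' N) y))
        have h2 := hm.mul_mul (K n + m n) (O.ex (hM n) (φ n ((QuotientGroup.mk' N) x)))
          (Θ n ((QuotientGroup.mk' N) x))
          (O.ex (hM n) (φ n ((QuotientGroup.mk' N) y))) (Θ n ((QuotientGroup.mk' N) y))
        have h3 := O.ex_d (hM n)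
          (φ n ((QuotientGroup.mk' N) x) * φ n ((QuotientGroup.mk' N) y))
          (φ n ((QuotientGroup.mk' N) x * (QuotientGroup.mk' N) y))
        rw [map_mul, hm.symm] at h3
        linarith
    exact key x

end

end Pool.Agent.H698R4
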