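import Pool.Agent.H698R4.FxWrt
import Pool.Agent.H698R3.HsFinal

set_option autoImplicit false

/-! The operations on the class of unitary groups. -/

namespace Pool.Agent.H698R4

open Filter Topology Matrix Pool.Agent.H698R3 Pool.Agent.H698R3.Amalg

section gen

variable {X Y Z : Type} [Fintype X] [DecidableEq X] [Fintype Y] [DecidableEq Y] [Fintype Z]
  [DecidableEq Z]

/-- extension by the identity off the range of an isometry -/
def exM (J : Matrix X Y ℂ) (A : Matrix Y Y ℂ) : Matrix X X ℂ := J * A * Jᴴ + (1 - J * Jᴴ)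

theorem exM_one (J : Matrix X Y ℂ) : exM J 1 = 1 := by
  unfold exM
  rw [Matrix.mul_one]
  abel

theorem exM_mul (J : Matrix X Y ℂ) (hJ : Jᴴ * J = 1) (A B : Matrix Y Y ℂ) :
    exM J (A * B) = exM J A * exM J B := by
  have hJ' : ∀ M : Matrix Y X ℂ, Jᴴ * (J * M) = M := by
    intro M; rw [← Matrix.mul_assoc, hJ, Matrix.one_mul]
  unfold exM
  simp only [Matrix.add_mul, Matrix.mul_add, Matrix.sub_mul, Matrix.mul_sub, Matrix.mul_assoc,
    Matrix.one_mul, Matrix.mul_one, hJ']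
  abel

theorem exM_adj (J : Matrix X Y ℂ) (A : Matrix Y Y ℂ) : exM J Aᴴ = (exM J A)ᴴ := by
  unfold exM
  rw [conjTranspose_add, conjTranspose_mul, conjTranspose_mul, conjTranspose_sub,
    conjTranspose_mul, conjTranspose_conjTranspose, conjTranspose_one, Matrix.mul_assoc]

theorem exM_exM (J' : Matrix X Y ℂ) (J : Matrix Y Z ℂ) (A : Matrix Z Z ℂ) :
    exM J' (exM J A) = exM (J' * J) A := by
  unfold exM
  rw [conjTranspose_mul]
  simp only [Matrix.add_mul, Matrix.mul_add, Matrix.sub_mul, Matrix.mul_sub, Matrix.mul_assoc,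
    Matrix.one_mul, Matrix.mul_one]
  abel

theorem fro_JAJ (J : Matrix X Y ℂ) (hJ : Jᴴ * J = 1) (A : Matrix Y Y ℂ) :
    fro (J * A * Jᴴ) = fro A := by
  rw [fro_mul_right _ (by rw [conjTranspose_conjTranspose]; exact hJ), fro_mul_left _ hJ]

theorem exM_sub (J : Matrix X Y ℂ) (A B : Matrix Y Y ℂ) :
    exM J A - exM J B = J * (A - B) * Jᴴ := by
  unfold exM
  rw [Matrix.mul_sub, Matrix.sub_mul]
  abel

theorem fro_unitary_sub (U V : Matrix.unitaryGroup X ℂ) :
    fro (U.1 - V.1) ≤ 4 * Fintype.card X := by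
  have h1 := fn_add_le U.1 (-V.1)
  have h2 : fn U.1 = Real.sqrt (Fintype.card X) := by
    rw [← fn_one (X := X), ← fn_left U (1 : Matrix X X ℂ), Matrix.mul_one]
  have h3 : fn (-V.1) = Real.sqrt (Fintype.card X) := by
    unfold fn
    rw [fro_neg]
    show fn V.1 = _
    rw [← fn_one (X := X), ← fn_left V (1 : Matrix X X ℂ), Matrix.mul_one]
  rw [h2, h3, ← sub_eq_add_neg] at h1
  rw [← fn_sq]
  have h4 := fn_nonneg (U.1 - V.1)
  calc fn (U.1 - V.1) ^ 2 ≤ (Real.sqrt (Fintype.card X) + Real.sqrt (Fintype.card X)) ^ 2 := by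
        gcongr
    _ = 4 * (Real.sqrt (Fintype.card X)) ^ 2 := by ring
    _ = 4 * Fintype.card X := by rw [Real.sq_sqrt (Nat.cast_nonneg _)]

end gen

section fin

/-- extension of a unitary by the identity -/
def exH {k l : ℕ} (h : k ≤ l) : Matrix.unitaryGroup (Fin k) ℂ →* Matrix.unitaryGroup (Fin l) ℂ :=
  mkRep (fun U => exM (Jm (Fin.castLE h)) U.1)
    (exM_one _)
    (fun U V => exM_mul _ (Jm_isometry _ (Fin.castLE_injective h)) U.1 V.1)
    (fun U => exM_adj _ U.1)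

theorem exH_coe {k l : ℕ} (h : k ≤ l) (U : Matrix.unitaryGroup (Fin k) ℂ) :
    (exH h U).1 = exM (Jm (Fin.castLE h)) U.1 := rfl

theorem J12 (k l : ℕ) : (Jm (Fin.castAdd l : Fin k → Fin (k + l)))ᴴ *
    Jm (Fin.natAdd k : Fin l → Fin (k + l)) = 0 := by
  rw [mul_Jm]
  ext a b
  rw [Matrix.submatrix_apply, conjTranspose_apply, Jm_apply, if_neg, star_zero]
  · rfl
  · intro h
    have := congrArg Fin.val h
    simp at this
    omega

theorem J21 (k l : ℕ) : (Jm (Fin.natAdd k : Fin l → Fin (k + l)))ᴴ *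
    Jm (Fin.castAdd l : Fin k → Fin (k + l)) = 0 := by
  have := congrArg conjTranspose (J12 k l)
  rwa [conjTranspose_mul, conjTranspose_conjTranspose, conjTranspose_zero] at this

theorem J11 (k l : ℕ) : (Jm (Fin.castAdd l : Fin k → Fin (k + l)))ᴴ *
    Jm (Fin.castAdd l : Fin k → Fin (k + l)) = 1 := Jm_isometry _ (Fin.castAdd_injective k l)

theorem J22 (k l : ℕ) : (Jm (Fin.natAdd k : Fin l → Fin (k + l)))ᴴ *
    Jm (Fin.natAdd k : Fin l → Fin (k + l)) = 1 := Jm_isometry _ (Fin.natAdd_injective l k)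

theorem Jsum (k l : ℕ) : Jm (Fin.castAdd l : Fin k → Fin (k + l)) *
    (Jm (Fin.castAdd l : Fin k → Fin (k + l)))ᴴ + Jm (Fin.natAdd k : Fin l → Fin (k + l)) *
    (Jm (Fin.natAdd k : Fin l → Fin (k + l)))ᴴ = 1 := by
  set J1 := Jm (Fin.castAdd l : Fin k → Fin (k + l)) with hJ1
  set J2 := Jm (Fin.natAdd k : Fin l → Fin (k + l)) with hJ2
  have h1 : (J1 * J1ᴴ + J2 * J2ᴴ - 1) * J1 = 0 := by
    rw [Matrix.sub_mul, Matrix.add_mul, Matrix.mul_assoc, Matrix.mul_assoc, hJ1, hJ2, J11, J21]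
    simp
  have h2 : (J1 * J1ᴴ + J2 * J2ᴴ - 1) * J2 = 0 := by
    rw [Matrix.sub_mul, Matrix.add_mul, Matrix.mul_assoc, Matrix.mul_assoc, hJ1, hJ2, J12, J22]
    simp
  rw [← sub_eq_zero]
  ext x y
  induction y using Fin.addCases with
  | left a =>
    rw [hJ1, mul_Jm] at h1
    exact congrFun (congrFun h1 x) a
  | right a =>
    rw [hJ2, mul_Jm] at h2
    exact congrFun (congrFun h2 x) a

/-- block sum of unitaries -/
def dsH (k l : ℕ) : Matrix.unitaryGroup (Fin k) ℂ × Matrix.unitaryGroup (Fin l) ℂ →*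
    Matrix.unitaryGroup (Fin (k + l)) ℂ :=
  mkRep (fun p => Jm (Fin.castAdd l : Fin k → Fin (k + l)) * p.1.1 *
      (Jm (Fin.castAdd l : Fin k → Fin (k + l)))ᴴ + Jm (Fin.natAdd k : Fin l → Fin (k + l)) *
      p.2.1 * (Jm (Fin.natAdd k : Fin l → Fin (k + l)))ᴴ)
    (by
      show Jm (Fin.castAdd l : Fin k → Fin (k + l)) * 1 *
        (Jm (Fin.castAdd l : Fin k → Fin (k + l)))ᴴ + Jm (Fin.natAdd k : Fin l → Fin (k + l)) *
        1 * (Jm (Fin.natAdd k : Fin l → Fin (k + l)))ᴴ = 1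
      rw [Matrix.mul_one, Matrix.mul_one]
      exact Jsum k l)
    (by
      intro p q
      have e11 : ∀ M : Matrix (Fin k) (Fin (k + l)) ℂ,
          (Jm (Fin.castAdd l : Fin k → Fin (k + l)))ᴴ *
          (Jm (Fin.castAdd l : Fin k → Fin (k + l)) * M) = M := by
        intro M; rw [← Matrix.mul_assoc, J11, Matrix.one_mul]
      have e22 : ∀ M : Matrix (Fin l) (Fin (k + l)) ℂ,
          (Jm (Fin.natAdd k : Fin l → Fin (k + l)))ᴴ *
          (Jm (Fin.natAdd k : Fin l → Fin (k + l)) * M) = M := by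
        intro M; rw [← Matrix.mul_assoc, J22, Matrix.one_mul]
      have e12 : ∀ M : Matrix (Fin l) (Fin (k + l)) ℂ,
          (Jm (Fin.castAdd l : Fin k → Fin (k + l)))ᴴ *
          (Jm (Fin.natAdd k : Fin l → Fin (k + l)) * M) = 0 := by
        intro M; rw [← Matrix.mul_assoc, J12, Matrix.zero_mul]
      have e21 : ∀ M : Matrix (Fin k) (Fin (k + l)) ℂ,
          (Jm (Fin.natAdd k : Fin l → Fin (k + l)))ᴴ *
          (Jm (Fin.castAdd l : Fin k → Fin (k + l)) * M) = 0 := by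
        intro M; rw [← Matrix.mul_assoc, J21, Matrix.zero_mul]
      show Jm (Fin.castAdd l : Fin k → Fin (k + l)) * (p.1.1 * q.1.1) *
        (Jm (Fin.castAdd l : Fin k → Fin (k + l)))ᴴ + Jm (Fin.natAdd k : Fin l → Fin (k + l)) *
        (p.2.1 * q.2.1) * (Jm (Fin.natAdd k : Fin l → Fin (k + l)))ᴴ = _
      simp only [Matrix.add_mul, Matrix.mul_add, Matrix.mul_assoc, e11, e22, e12, e21,
        Matrix.mul_zero, add_zero, zero_add])
    (by
      intro p
      show Jm (Fin.castAdd l : Fin k → Fin (k + l)) * (p.1.1)ᴴ *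
        (Jm (Fin.castAdd l : Fin k → Fin (k + l)))ᴴ + Jm (Fin.natAdd k : Fin l → Fin (k + l)) *
        (p.2.1)ᴴ * (Jm (Fin.natAdd k : Fin l → Fin (k + l)))ᴴ = _
      simp only [conjTranspose_add, conjTranspose_mul, conjTranspose_conjTranspose,
        Matrix.mul_assoc])

theorem dsH_coe (k l : ℕ) (U : Matrix.unitaryGroup (Fin k) ℂ) (V : Matrix.unitaryGroup (Fin l) ℂ) :
    (dsH k l (U, V)).1 = Jm (Fin.castAdd l : Fin k → Fin (k + l)) * U.1 *
      (Jm (Fin.castAdd l : Fin k → Fin (k + l)))ᴴ + Jm (Fin.natAdd k : Fin l → Fin (k + l)) *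
      V.1 * (Jm (Fin.natAdd k : Fin l → Fin (k + l)))ᴴ := rfl

theorem dsH_trace (k l : ℕ) (U : Matrix.unitaryGroup (Fin k) ℂ)
    (V : Matrix.unitaryGroup (Fin l) ℂ) : trace (dsH k l (U, V)).1 = trace U.1 + trace V.1 := by
  rw [dsH_coe, trace_add, Matrix.trace_mul_comm, ← Matrix.mul_assoc, J11, Matrix.one_mul,
    Matrix.trace_mul_comm, ← Matrix.mul_assoc, J22, Matrix.one_mul]

theorem hs_sq {X : Type} [Fintype X] [DecidableEq X] (A B : Matrix X X ℂ) :
    hsDist A B ^ 2 * Fintype.card X = fro (A - B) := by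
  rw [hsDist_eq, div_pow, Real.sq_sqrt (Nat.cast_nonneg _), fn_sq]
  rcases Nat.eq_zero_or_pos (Fintype.card X) with h0 | h0
  · rw [h0, Nat.cast_zero, mul_zero]
    have := Fintype.card_eq_zero_iff.mp h0
    unfold fro
    simp
  · have : (0 : ℝ) < Fintype.card X := by exact_mod_cast h0
    field_simp

theorem hs_nonneg {X : Type} [Fintype X] [DecidableEq X] (A B : Matrix X X ℂ) :
    0 ≤ hsDist A B := by
  rw [hsDist_eq]
  exact div_nonneg (fn_nonneg _) (Real.sqrt_nonneg _)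

theorem hs_zero {k : ℕ} (h : k = 0) (A B : Matrix (Fin k) (Fin k) ℂ) : hsDist A B = 0 := by
  subst h
  rw [hsDist_eq]
  simp

/-- The operations for unitary groups. -/
noncomputable def opsH : Ops hsCls where
  zero := fun k h x y => hs_zero h x.1 y.1
  ex h := exH h
  ex_ex := by
    intro k l m h h' U
    apply Subtype.ext
    show exM (Jm (Fin.castLE h')) (exM (Jm (Fin.castLE h)) U.1) = exM (Jm (Fin.castLE (h.trans h'))) U.1
    rw [exM_exM, ← Jm_comp]
    rfl
  ex_rfl := by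
    intro k U
    apply Subtype.ext
    show exM (Jm (Fin.castLE (le_refl k))) U.1 = U.1
    have : Jm (Fin.castLE (le_refl k)) = (1 : Matrix (Fin k) (Fin k) ℂ) := by
      ext x y
      rw [Jm_apply, Matrix.one_apply]
      rfl
    rw [this]
    unfold exM
    simp
  ex_d := by
    intro k l h U V
    show hsDist (exM (Jm (Fin.castLE h)) U.1) (exM (Jm (Fin.castLE h)) V.1) ≤ hsDist U.1 V.1
    have h1 := hs_sq (exM (Jm (Fin.castLE h)) U.1) (exM (Jm (Fin.castLE h)) V.1)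
    have h2 := hs_sq (X := Fin k) U.1 V.1
    rw [exM_sub, fro_JAJ _ (Jm_isometry _ (Fin.castLE_injective h)), ← h2, Fintype.card_fin,
      Fintype.card_fin] at h1
    have h3 := hs_nonneg (exM (Jm (Fin.castLE h)) U.1) (exM (Jm (Fin.castLE h)) V.1)
    have h4 := hs_nonneg (X := Fin k) U.1 V.1
    rcases Nat.eq_zero_or_pos l with h0 | hl
    · rw [hs_zero h0]; exact h4
    have hl' : (0 : ℝ) < l := by exact_mod_cast hl
    have hkl : (k : ℝ) ≤ l := by exact_mod_cast h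
    refine abs_le_of_sq_le_sq' ?_ h4 |>.2
    have h5 : hsDist (exM (Jm (Fin.castLE h)) U.1) (exM (Jm (Fin.castLE h)) V.1) ^ 2 * (l : ℝ) ≤
        hsDist (X := Fin k) U.1 V.1 ^ 2 * (l : ℝ) := by
      rw [h1]; gcongr
    exact le_of_mul_le_mul_right h5 hl'
  ex_d' := by
    intro k l h hl2 U V
    show hsDist (X := Fin k) U.1 V.1 ≤
      2 * hsDist (exM (Jm (Fin.castLE h)) U.1) (exM (Jm (Fin.castLE h)) V.1)
    have h1 := hs_sq (exM (Jm (Fin.castLE h)) U.1) (exM (Jm (Fin.castLE h)) V.1)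
    have h2 := hs_sq (X := Fin k) U.1 V.1
    rw [exM_sub, fro_JAJ _ (Jm_isometry _ (Fin.castLE_injective h)), ← h2, Fintype.card_fin,
      Fintype.card_fin] at h1
    have h3 := hs_nonneg (exM (Jm (Fin.castLE h)) U.1) (exM (Jm (Fin.castLE h)) V.1)
    have h4 := hs_nonneg (X := Fin k) U.1 V.1
    rcases Nat.eq_zero_or_pos k with h0 | hk
    · rw [hs_zero h0]; positivity
    have hk' : (0 : ℝ) < k := by exact_mod_cast hk
    have hkl : (l : ℝ) ≤ 2 * k := by exact_mod_cast hl2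
    refine abs_le_of_sq_le_sq' ?_ (by positivity) |>.2
    have h5 : hsDist (X := Fin k) U.1 V.1 ^ 2 * (k : ℝ) ≤
        (2 * hsDist (exM (Jm (Fin.castLE h)) U.1) (exM (Jm (Fin.castLE h)) V.1)) ^ 2 * (k : ℝ) := by
      rw [← h1]
      nlinarith [sq_nonneg (hsDist (exM (Jm (Fin.castLE h)) U.1) (exM (Jm (Fin.castLE h)) V.1))]
    exact le_of_mul_le_mul_right h5 hk'
  ds k l := dsH k l
  ds_ex := by
    intro k l U
    apply Subtype.ext
    show Jm (Fin.castAdd l : Fin k → Fin (k + l)) * U.1 *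
      (Jm (Fin.castAdd l : Fin k → Fin (k + l)))ᴴ + Jm (Fin.natAdd k : Fin l → Fin (k + l)) *
      1 * (Jm (Fin.natAdd k : Fin l → Fin (k + l)))ᴴ =
      exM (Jm (Fin.castLE (Nat.le_add_right k l))) U.1
    unfold exM
    rw [Matrix.mul_one, ← Jsum k l]
    show _ = Jm (Fin.castAdd l) * U.1 * (Jm (Fin.castAdd l))ᴴ + (_ - Jm (Fin.castAdd l) *
      (Jm (Fin.castAdd l : Fin k → Fin (k + l)))ᴴ)
    abel
  ds_d := by
    intro k l x y y'
    show hsDist (dsH k l (x, y)).1 (dsH k l (x, y')).1 ^ 2 * ((k : ℝ) + l) ≤ 4 * l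
    have h1 := hs_sq (dsH k l (x, y)).1 (dsH k l (x, y')).1
    rw [Fintype.card_fin] at h1
    push_cast at h1
    rw [h1]
    have h2 : (dsH k l (x, y)).1 - (dsH k l (x, y')).1 =
        Jm (Fin.natAdd k : Fin l → Fin (k + l)) * (y.1 - y'.1) *
          (Jm (Fin.natAdd k : Fin l → Fin (k + l)))ᴴ := by
      rw [dsH_coe, dsH_coe, Matrix.mul_sub, Matrix.sub_mul]
      abel
    rw [h2, fro_JAJ _ (J22 k l)]
    have h3 := fro_unitary_sub (X := Fin l) y y'
    rwa [Fintype.card_fin] at h3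

theorem haddH {H : Type} [Group H] [Fintype H] : HAdd opsH (HH H) := by
  intro k l π π' e
  obtain ⟨h, b⟩ := e
  change H →* Matrix.unitaryGroup (Fin k) ℂ at π
  change H →* Matrix.unitaryGroup (Fin l) ℂ at π'
  have h1 := dsH_trace k l (π h) (π' h)
  cases b
  · show (trace (dsH k l (π h, π' h)).1).im = (trace (π h).1).im + (trace (π' h).1).im
    rw [h1, Complex.add_im]
  · show (trace (dsH k l (π h, π' h)).1).re = (trace (π h).1).re + (trace (π' h).1).re
    rw [h1, Complex.add_re]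

end fin

end Pool.Agent.H698R4
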