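import Pool.Agent.H698R4.FxPerm1

set_option autoImplicit false

/-! Absorption for the class of symmetric groups. -/

namespace Pool.Agent.H698R4

open Filter Topology Equiv Pool.Agent.H698R3 Pool.Agent.H698R3.Amalg

/-- `g` is killed by all homomorphisms to finite groups -/
def Killed {G : Type} [Group G] (g : G) : Prop :=
  ∀ (Q : Type) [Group Q] [Finite Q] (q : G →* Q), q g = 1

/-- the same elements of `H` are killed by all finite quotients of `G₁` and of `G₂` -/
def SameRes {H G₁ G₂ : Type} [Group H] [Group G₁] [Group G₂] (f₁ : H →* G₁) (f₂ : H →* G₂) :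
    Prop := ∀ h : H, Killed (f₁ h) ↔ Killed (f₂ h)

theorem exists_finite_sep {H G : Type} [Group H] [Group G] [Finite H] (f : H →* G) :
    ∃ (Q : Type) (_ : Group Q) (_ : Finite Q) (q : G →* Q), ∀ h, q (f h) = 1 → Killed (f h) := by
  have h1 : ∀ h : H, ∃ (Q : Type) (_ : Group Q) (_ : Finite Q) (q : G →* Q),
      q (f h) = 1 → Killed (f h) := by
    intro h
    by_cases hh : Killed (f h)
    · exact ⟨Unit, inferInstance, inferInstance, 1, fun _ => hh⟩
    · unfold Killed at hh
      push Not at hh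
      obtain ⟨Q, i1, i2, q, hq⟩ := hh
      exact ⟨Q, i1, i2, q, fun h' => absurd h' hq⟩
  choose Q i1 i2 q hq using h1
  refine ⟨∀ h, Q h, inferInstance, inferInstance, MonoidHom.pi q, fun h hh => ?_⟩
  exact hq h (congrFun hh h)

/-- left multiplication on the first coordinate -/
def L₁ (A B : Type) [Group A] [Group B] : A →* Perm (A × B) where
  toFun a := Equiv.prodCongr (Equiv.mulLeft a) (Equiv.refl B)
  map_one' := by ext x <;> simp
  map_mul' a b := by ext x <;> simp [mul_assoc]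

/-- left multiplication on the second coordinate -/
def L₂ (A B : Type) [Group A] [Group B] : B →* Perm (A × B) where
  toFun b := Equiv.prodCongr (Equiv.refl A) (Equiv.mulLeft b)
  map_one' := by ext x <;> simp
  map_mul' a b := by ext x <;> simp [mul_assoc]

/-- permutations of `X` act on families of subsets -/
def Aset (I X : Type) : Perm X →* Perm (I → Set X) where
  toFun σ :=
    { toFun := fun z i => σ '' z i
      invFun := fun z i => σ.symm '' z i
      left_inv := fun z => by funext i; simp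
      right_inv := fun z => by funext i; simp }
  map_one' := by
    apply Equiv.ext
    intro z
    funext i
    show (fun x => x) '' z i = z i
    simp
  map_mul' σ τ := by
    apply Equiv.ext
    intro z
    funext i
    show (fun x => σ (τ x)) '' z i = σ '' (τ '' z i)
    rw [Set.image_image]

theorem Aset_apply (I X : Type) (σ : Perm X) (z : I → Set X) (i : I) (x : X) :
    x ∈ Aset I X σ z i ↔ σ⁻¹ x ∈ z i := by
  show x ∈ σ '' z i ↔ _
  rw [Equiv.image_eq_preimage_symm]
  rfl

theorem absorbP {H G₁ G₂ : Type} [Group H] [Fintype H] [Group G₁] [Group G₂] (f₁ : H →* G₁)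
    (f₂ : H →* G₂) (hres : SameRes f₁ f₂) : Absorb f₁ f₂ (HP H) := by
  classical
  intro k ψ
  change G₁ →* Perm (Fin k) at ψ
  obtain ⟨Q₁, _, _, q₁, hq₁⟩ := exists_finite_sep f₁
  obtain ⟨Q₂, _, _, q₂, hq₂⟩ := exists_finite_sep f₂
  let Q := Q₁ × Perm (Fin k)
  let q : G₁ →* Q := q₁.prod ψ
  let X := Q × Q₂
  have := Fintype.ofFinite X
  let π : H →* Perm X := (L₁ Q Q₂).comp (q.comp f₁)
  let π' : H →* Perm X := (L₂ Q Q₂).comp (q₂.comp f₂)
  have hst : ∀ x h, h ∈ stH π x ↔ Killed (f₁ h) := by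
    intro x h
    rw [mem_stH]
    constructor
    · intro hh
      have h3 : q (f₁ h) * x.1 = x.1 := congrArg Prod.fst hh
      have h4 : q (f₁ h) = 1 := mul_eq_right.mp h3
      exact hq₁ h (congrArg Prod.fst h4)
    · intro hh
      show L₁ Q Q₂ (q (f₁ h)) x = x
      rw [hh Q q, map_one]
      rfl
  have hst' : ∀ x h, h ∈ stH π' x ↔ Killed (f₁ h) := by
    intro x h
    rw [mem_stH, hres h]
    constructor
    · intro hh
      have h3 : q₂ (f₂ h) * x.2 = x.2 := congrArg Prod.snd hh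
      exact hq₂ h (mul_eq_right.mp h3)
    · intro hh
      show L₂ Q Q₂ (q₂ (f₂ h)) x = x
      rw [hh Q₂ q₂, map_one]
      rfl
  have hst'' : ∀ x, stH π x = stH π' x := fun x => by
    ext h
    rw [hst, hst']
  obtain ⟨u, hu, -⟩ := exists_conj π π' (fun K => by simp only [hst''])
  let χ₁ : G₁ →* Perm X := (L₁ Q Q₂).comp q
  let χ₂ : G₂ →* Perm X := (MulAut.conj u).toMonoidHom.comp ((L₂ Q Q₂).comp q₂)
  let Z := Fin k → Set X
  have : Finite (Set X) := inferInstance
  have hZ : Finite Z := Pi.finite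
  have := Fintype.ofFinite Z
  let α₁ : G₁ →* Perm Z := (Aset (Fin k) X).comp χ₁
  let α₂ : G₂ →* Perm Z := (Aset (Fin k) X).comp χ₂
  have hα : α₁.comp f₁ = α₂.comp f₂ := by
    ext1 h
    show Aset (Fin k) X (π h) = Aset (Fin k) X (u * π' h * u⁻¹)
    rw [hu h]
  let j : Fin k → Z := fun a i => {x | x.1.2 i = a}
  have hj : Function.Injective j := by
    intro a b hab
    have h3 : ((1, 1) : X) ∈ j a a := rfl
    rw [hab] at h3
    exact h3
  have hjeq : ∀ g a, α₁ g (j a) = j (ψ g a) := by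
    intro g a
    funext i
    ext x
    rw [show (α₁ g (j a) i) = Aset (Fin k) X (χ₁ g) (j a) i from rfl, Aset_apply]
    show ((q g)⁻¹ * x.1).2 i = a ↔ x.1.2 i = ψ g a
    show (ψ g)⁻¹ (x.1.2 i) = a ↔ x.1.2 i = ψ g a
    rw [Equiv.Perm.inv_eq_iff_eq]
  have hmem : ∀ g z, (z ∉ Set.range j) ↔ (α₁ g z ∉ Set.range j) := by
    intro g z
    rw [not_iff_not]
    constructor
    · rintro ⟨a, rfl⟩
      exact ⟨ψ g a, (hjeq g a).symm⟩
    · rintro ⟨a, ha⟩
      refine ⟨ψ g⁻¹ a, ?_⟩
      rw [← hjeq, ha, ← Perm.mul_apply, ← map_mul, inv_mul_cancel, map_one, Perm.one_apply]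
  let W := {z : Z // z ∉ Set.range j}
  let β : G₁ →* Perm W :=
    { toFun := fun g => (α₁ g).subtypePerm (fun z => (hmem g z).symm)
      map_one' := by ext z; simp
      map_mul' := fun g h => by ext z; simp [Perm.mul_apply] }
  let l := Fintype.card W
  let e : Fin k ⊕ W ≃ Z := ((Equiv.ofInjective j hj).sumCongr (Equiv.refl W)).trans
    (Equiv.Set.sumCompl (Set.range j))
  have he1 : ∀ a, e (Sum.inl a) = j a := fun a => rfl
  have he2 : ∀ w : W, e (Sum.inr w) = w.1 := fun w => rfl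
  let eW : W ≃ Fin l := Fintype.equivFin W
  let eZ : Z ≃ Fin (k + l) := (e.symm.trans ((Equiv.refl _).sumCongr eW)).trans finSumFinEquiv
  refine ⟨l, transp eW β, transp eZ α₂, fun K => ?_⟩
  have g1 := cnt_embed (α₁.comp f₁) (ψ.comp f₁) (β.comp f₁) e
    (fun h a => by rw [he1, he1]; exact hjeq (f₁ h) a)
    (fun h w => by rw [he2, he2]; rfl) K
  have g2 := cnt_transp (β.comp f₁) eW K
  have g3 := cnt_transp (α₂.comp f₂) eZ K
  have g4 : cnt ((transp eZ α₂).comp f₂) K = cnt (ψ.comp f₁) K + cnt ((transp eW β).comp f₁) K := by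
    show cnt (transp eZ (α₂.comp f₂)) K = cnt (ψ.comp f₁) K + cnt (transp eW (β.comp f₁)) K
    rw [g3, g2, ← hα, g1]
  have g5 := hvP_eq (k + l) ((transp eZ α₂).comp f₂) K
  have g6 := hvP_eq k (ψ.comp f₁) K
  have g7 := hvP_eq l ((transp eW β).comp f₁) K
  calc (HP H).hv k (ψ.comp f₁) K + (HP H).hv l ((transp eW β).comp f₁) K
      = (cnt (ψ.comp f₁) K : ℝ) + (cnt ((transp eW β).comp f₁) K : ℝ) := by rw [← g6, ← g7]
    _ = (cnt ((transp eZ α₂).comp f₂) K : ℝ) := by rw [g4]; push_cast; rfl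
    _ = (HP H).hv (k + l) ((transp eZ α₂).comp f₂) K := g5.symm

end Pool.Agent.H698R4
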