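import Pool.Agent.H698R4.FxHs1
import Pool.Agent.H698R4.FxPerm2

set_option autoImplicit false

/-! Absorption for the class of unitary groups. -/

namespace Pool.Agent.H698R4

open Filter Topology Matrix Kronecker Pool.Agent.H698R3 Pool.Agent.H698R3.Amalg

section compl

variable {G X : Type} [Group G] [Fintype X] [DecidableEq X]

/-- the complement of a subrepresentation -/
theorem exists_compl {k l : ℕ} (hc : k + l = Fintype.card X) (ρ : G →* Matrix.unitaryGroup X ℂ)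
    (ψ : G →* Matrix.unitaryGroup (Fin k) ℂ) (J : Matrix X (Fin k) ℂ) (hJ : Jᴴ * J = 1)
    (hJe : ∀ g, (ρ g).1 * J = J * (ψ g).1) :
    ∃ ψ' : G →* Matrix.unitaryGroup (Fin l) ℂ, ∀ g,
      trace (ρ g).1 = trace (ψ g).1 + trace (ψ' g).1 := by
  obtain ⟨V, hV1, hV2, hV3⟩ := complete J hJ (Fin.castAdd l : Fin k → Fin (k + l))
    (Fin.castAdd_injective k l) (by rw [Fintype.card_fin]; exact hc)
  set J1 := Jm (Fin.castAdd l : Fin k → Fin (k + l)) with hJ1
  set J2 := Jm (Fin.natAdd k : Fin l → Fin (k + l)) with hJ2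
  have hVJ : V * J1 = J := by rw [hJ1, mul_Jm]; exact hV3
  have hVJ' : Vᴴ * J = J1 := by rw [← hVJ, ← Matrix.mul_assoc, hV1, Matrix.one_mul]
  obtain ⟨R, hR⟩ : ∃ R : G → Matrix (Fin (k + l)) (Fin (k + l)) ℂ,
    ∀ g, R g = Vᴴ * (ρ g).1 * V := ⟨_, fun _ => rfl⟩
  have hR1 : R 1 = 1 := by
    rw [hR, rep_one, Matrix.mul_one, hV1]
  have hRm : ∀ g h, R (g * h) = R g * R h := by
    intro g h
    rw [hR, hR, hR, rep_mul]
    have : Vᴴ * (ρ g).1 * V * (Vᴴ * (ρ h).1 * V) = Vᴴ * (ρ g).1 * (V * Vᴴ) * (ρ h).1 * V := by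
      simp only [Matrix.mul_assoc]
    rw [this, hV2, Matrix.mul_one]
    simp only [Matrix.mul_assoc]
  have hRa : ∀ g, R g⁻¹ = (R g)ᴴ := by
    intro g
    rw [hR, hR, rep_inv, conjTranspose_mul, conjTranspose_mul, conjTranspose_conjTranspose,
      Matrix.mul_assoc]
  have hRJ : ∀ g, R g * J1 = J1 * (ψ g).1 := by
    intro g
    rw [hR, Matrix.mul_assoc, hVJ, Matrix.mul_assoc, hJe, ← Matrix.mul_assoc, hVJ']
  have hJR : ∀ g, J2ᴴ * R g * J1 = 0 := by
    intro g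
    rw [Matrix.mul_assoc, hRJ, ← Matrix.mul_assoc, hJ1, hJ2, J21, Matrix.zero_mul]
  have hsum : J1 * J1ᴴ + J2 * J2ᴴ = 1 := Jsum k l
  refine ⟨mkRep (fun g => J2ᴴ * R g * J2) ?_ ?_ ?_, ?_⟩
  · show J2ᴴ * R 1 * J2 = 1
    rw [hR1, Matrix.mul_one]
    exact J22 k l
  · intro g h
    show J2ᴴ * R (g * h) * J2 = J2ᴴ * R g * J2 * (J2ᴴ * R h * J2)
    rw [hRm]
    have h1 : J2ᴴ * (R g * R h) * J2 = J2ᴴ * R g * (J1 * J1ᴴ + J2 * J2ᴴ) * R h * J2 := by
      rw [hsum, Matrix.mul_one]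
      simp only [Matrix.mul_assoc]
    rw [h1, Matrix.mul_add, ← Matrix.mul_assoc (J2ᴴ * R g) J1 J1ᴴ, hJR, Matrix.zero_mul, zero_add]
    simp only [Matrix.mul_assoc]
  · intro g
    show J2ᴴ * R g⁻¹ * J2 = (J2ᴴ * R g * J2)ᴴ
    rw [hRa, conjTranspose_mul, conjTranspose_mul, conjTranspose_conjTranspose, Matrix.mul_assoc]
  · intro g
    have h1 : trace (ρ g).1 = trace (R g) := by
      rw [hR, Matrix.trace_mul_comm, ← Matrix.mul_assoc, hV2, Matrix.one_mul]
    have h2 : trace (R g) = trace (R g * J1 * J1ᴴ) + trace (R g * J2 * J2ᴴ) := by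
      rw [← trace_add, Matrix.mul_assoc (R g) J1, Matrix.mul_assoc (R g) J2, ← Matrix.mul_add,
        hsum, Matrix.mul_one]
    have h3 : trace (R g * J1 * J1ᴴ) = trace (ψ g).1 := by
      rw [hRJ, Matrix.trace_mul_comm, ← Matrix.mul_assoc]
      rw [show J1ᴴ * J1 = 1 from J11 k l, Matrix.one_mul]
    have h4 : trace (R g * J2 * J2ᴴ) = trace (J2ᴴ * R g * J2) := by
      rw [Matrix.trace_mul_comm, Matrix.mul_assoc]
    rw [h1, h2, h3, h4]
    rfl

end compl

section perm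

variable {Z : Type} [Fintype Z] [DecidableEq Z]

/-- the permutation representation -/
def permU : Equiv.Perm Z →* Matrix.unitaryGroup Z ℂ :=
  mkRep (fun σ => Jm (σ : Z → Z))
    (by
      ext x y
      rw [Jm_apply, Matrix.one_apply]
      rfl)
    (fun σ τ => by
      rw [← Jm_comp]
      rfl)
    (fun σ => by
      ext x y
      rw [conjTranspose_apply, Jm_apply, Jm_apply]
      have : (x = σ⁻¹ y) ↔ (y = σ x) := by
        rw [Equiv.Perm.eq_inv_iff_eq]
        exact eq_comm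
      by_cases h : y = σ x
      · rw [if_pos h, if_pos (this.mpr h), star_one]
      · rw [if_neg h, if_neg (fun h' => h (this.mp h')), star_zero])

theorem permU_coe (σ : Equiv.Perm Z) : (permU σ).1 = Jm (σ : Z → Z) := rfl

theorem permU_trace_zero (σ : Equiv.Perm Z) (h : ∀ x, σ x ≠ x) : trace (permU σ).1 = 0 := by
  rw [permU_coe]
  refine Finset.sum_eq_zero fun x _ => ?_
  rw [Matrix.diag_apply, Jm_apply, if_neg (fun h' => h x h'.symm)]

/-- tensor product of unitary representations -/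
def tnR {G X Y : Type} [Group G] [Fintype X] [DecidableEq X] [Fintype Y] [DecidableEq Y]
    (σ : G →* Matrix.unitaryGroup X ℂ) (τ : G →* Matrix.unitaryGroup Y ℂ) :
    G →* Matrix.unitaryGroup (X × Y) ℂ :=
  mkRep (fun g => (σ g).1 ⊗ₖ (τ g).1)
    (by rw [rep_one, rep_one, one_kronecker_one])
    (fun g h => by rw [rep_mul, rep_mul, mul_kronecker_mul])
    (fun g => by rw [rep_inv, rep_inv, conjTranspose_kronecker])

theorem tnR_coe {G X Y : Type} [Group G] [Fintype X] [DecidableEq X] [Fintype Y] [DecidableEq Y]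
    (σ : G →* Matrix.unitaryGroup X ℂ) (τ : G →* Matrix.unitaryGroup Y ℂ) (g : G) :
    (tnR σ τ g).1 = (σ g).1 ⊗ₖ (τ g).1 := rfl

end perm

theorem absorbH {H G₁ G₂ : Type} [Group H] [Fintype H] [Group G₁] [Group G₂] (f₁ : H →* G₁)
    (f₂ : H →* G₂) (hres : SameRes f₁ f₂)
    (hlin : ∀ (m : ℕ) (ψ : G₁ →* Matrix.unitaryGroup (Fin m) ℂ) (g : G₁), Killed g → ψ g = 1) :
    Absorb f₁ f₂ (HH H) := by
  classical
  intro k ψ
  change G₁ →* Matrix.unitaryGroup (Fin k) ℂ at ψ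
  obtain ⟨Q₁, _, _, q₁, hq₁⟩ := exists_finite_sep f₁
  obtain ⟨Q₂, _, _, q₂, hq₂⟩ := exists_finite_sep f₂
  have := Fintype.ofFinite Q₁
  have := Fintype.ofFinite Q₂
  let W := Q₁ × Q₂
  let P₁ : G₁ →* Matrix.unitaryGroup W ℂ := permU.comp ((L₁ Q₁ Q₂).comp q₁)
  let P₂ : G₂ →* Matrix.unitaryGroup W ℂ := permU.comp ((L₂ Q₁ Q₂).comp q₂)
  let X := Fin k × W
  let ρ : G₁ →* Matrix.unitaryGroup X ℂ := tnR ψ P₁
  let θ : G₂ →* Matrix.unitaryGroup X ℂ := tnR 1 P₂
  have hWpos : 0 < Fintype.card W := Fintype.card_pos_iff.mpr ⟨(1, 1)⟩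
  have hcX : Fintype.card X = k * Fintype.card W := by
    rw [Fintype.card_prod, Fintype.card_fin]
  obtain ⟨l, hl⟩ : ∃ l, k + l = Fintype.card X :=
    ⟨Fintype.card X - k, by
      have : k ≤ Fintype.card X := by rw [hcX]; exact Nat.le_mul_of_pos_right k hWpos
      omega⟩
  let c : ℝ := (Real.sqrt (Fintype.card W))⁻¹
  have hc : (c : ℂ) * c * Fintype.card W = 1 := by
    have h3 : (0 : ℝ) < Fintype.card W := by exact_mod_cast hWpos
    have h4 : c * c * Fintype.card W = 1 := by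
      show (Real.sqrt (Fintype.card W))⁻¹ * (Real.sqrt (Fintype.card W))⁻¹ * _ = 1
      have h5 := Real.mul_self_sqrt h3.le
      have h6 := (Real.sqrt_pos.mpr h3).ne'
      rw [← mul_inv, h5, inv_mul_cancel₀ h3.ne']
    exact_mod_cast h4
  let J : Matrix X (Fin k) ℂ := Matrix.of fun x b => if x.1 = b then (c : ℂ) else 0
  have hJa : ∀ x b, J x b = if x.1 = b then (c : ℂ) else 0 := fun _ _ => rfl
  have hJ : Jᴴ * J = 1 := by
    ext b b'
    rw [Matrix.mul_apply, Fintype.sum_prod_type, Matrix.one_apply]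
    simp only [conjTranspose_apply, hJa]
    by_cases hb : b = b'
    · subst hb
      rw [if_pos rfl, Finset.sum_eq_single b]
      · simp only [if_true, Finset.sum_const, Finset.card_univ, nsmul_eq_mul]
        rw [← hc, show star (c : ℂ) = (c : ℂ) from Complex.conj_ofReal c]
        ring
      · intro a _ ha
        simp [ha]
      · intro h; exact absurd (Finset.mem_univ _) h
    · rw [if_neg hb]
      refine Finset.sum_eq_zero fun a _ => Finset.sum_eq_zero fun w _ => ?_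
      by_cases ha : a = b
      · subst ha
        rw [if_neg hb, mul_zero]
      · rw [if_neg ha, star_zero, zero_mul]
  have hJe : ∀ g, (ρ g).1 * J = J * (ψ g).1 := by
    intro g
    ext ⟨a, w⟩ b
    rw [Matrix.mul_apply, Matrix.mul_apply, Fintype.sum_prod_type]
    simp only [hJa]
    have e1 : ∀ a' : Fin k, ∑ w' : W, (ρ g).1 (a, w) (a', w') * (if a' = b then (c : ℂ) else 0) =
        (ψ g).1 a a' * (if a' = b then (c : ℂ) else 0) := by
      intro a'
      have e2 : ∀ w' : W, (ρ g).1 (a, w) (a', w') =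
          (ψ g).1 a a' * (if w = L₁ Q₁ Q₂ (q₁ g) w' then 1 else 0) := by
        intro w'
        show ((ψ g).1 ⊗ₖ (P₁ g).1) (a, w) (a', w') = _
        rw [Matrix.kronecker_apply, show (P₁ g).1 = Jm (L₁ Q₁ Q₂ (q₁ g) : W → W) from rfl, Jm_apply]
      simp only [e2]
      rw [← Finset.sum_mul, ← Finset.mul_sum, Finset.sum_eq_single ((L₁ Q₁ Q₂ (q₁ g)).symm w)]
      · rw [if_pos (by rw [Equiv.apply_symm_apply]), mul_one]
      · intro w' _ hw'
        rw [if_neg (fun h => hw' (by rw [h, Equiv.symm_apply_apply]))]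
      · intro h; exact absurd (Finset.mem_univ _) h
    rw [Finset.sum_congr rfl (fun a' _ => e1 a')]
    simp [mul_comm]
  obtain ⟨ψ', hψ'⟩ := exists_compl hl ρ ψ J hJ hJe
  let eX : X ≃ Fin (k + l) := Fintype.equivOfCardEq (by rw [Fintype.card_fin]; exact hl.symm)
  refine ⟨l, ψ', trR eX θ, ?_⟩
  have htr : ∀ h : H, trace (ψ (f₁ h)).1 + trace (ψ' (f₁ h)).1 = trace (trR eX θ (f₂ h)).1 := by
    intro h
    rw [← hψ']
    have h3 : trace (trR eX θ (f₂ h)).1 = trace (θ (f₂ h)).1 := by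
      rw [trR_coe]
      unfold Matrix.trace
      rw [← Equiv.sum_comp eX.symm]
      rfl
    rw [h3]
    show trace ((ψ (f₁ h)).1 ⊗ₖ (P₁ (f₁ h)).1) =
      trace (((1 : G₂ →* Matrix.unitaryGroup (Fin k) ℂ) (f₂ h)).1 ⊗ₖ (P₂ (f₂ h)).1)
    rw [trace_kronecker, trace_kronecker]
    by_cases hh : Killed (f₁ h)
    · have a1 : (ψ (f₁ h)).1 = 1 := by rw [hlin k ψ _ hh]; rfl
      have a2 : (P₁ (f₁ h)).1 = 1 := by
        show (permU (L₁ Q₁ Q₂ (q₁ (f₁ h)))).1 = 1
        rw [hh Q₁ q₁, map_one, map_one]; rfl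
      have a3 : (P₂ (f₂ h)).1 = 1 := by
        show (permU (L₂ Q₁ Q₂ (q₂ (f₂ h)))).1 = 1
        rw [(hres h).mp hh Q₂ q₂, map_one, map_one]; rfl
      have a4 : ((1 : G₂ →* Matrix.unitaryGroup (Fin k) ℂ) (f₂ h)).1 = 1 := rfl
      rw [a1, a2, a3, a4]
    · have h4 : trace (P₁ (f₁ h)).1 = 0 := permU_trace_zero _ (fun x hx => by
        have h5 : q₁ (f₁ h) * x.1 = x.1 := congrArg Prod.fst hx
        exact hh (hq₁ h (mul_eq_right.mp h5)))
      have h5 : trace (P₂ (f₂ h)).1 = 0 := permU_trace_zero _ (fun x hx => by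
        have h5 : q₂ (f₂ h) * x.2 = x.2 := congrArg Prod.snd hx
        exact hh ((hres h).mpr (hq₂ h (mul_eq_right.mp h5))))
      rw [h4, h5, mul_zero, mul_zero]
  rintro ⟨h, b⟩
  have h3 := htr h
  cases b
  · show (trace (ψ (f₁ h)).1).im + (trace (ψ' (f₁ h)).1).im = (trace (trR eX θ (f₂ h)).1).im
    rw [← h3, Complex.add_im]
  · show (trace (ψ (f₁ h)).1).re + (trace (ψ' (f₁ h)).1).re = (trace (trR eX θ (f₂ h)).1).re
    rw [← h3, Complex.add_re]

end Pool.Agent.H698R4
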