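import Pool.Agent.H698R4.FxAbs

set_option autoImplicit false

/-! Flexible stability with respect to a generating tuple. -/

namespace Pool.Agent.H698R4

open Filter Topology Pool.Agent.H698R3.Amalg

variable {𝒞 : Cls} {O : Ops 𝒞}

/-- Flexible stability with respect to a generating tuple `s`. -/
def FlexWrt (O : Ops 𝒞) {G ι : Type} [Group G] (s : ι → G) : Prop :=
  ∀ ε : ℝ, 0 < ε → ∃ δ : ℝ, 0 < δ ∧ ∃ E : Finset (FreeGroup ι),
    (∀ e ∈ E, FreeGroup.lift s e = 1) ∧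
    ∀ (k : ℕ) (φ : FreeGroup ι →* 𝒞.C k), (∀ e ∈ E, 𝒞.d k (φ e) 1 ≤ δ) →
      ∃ (m : ℕ) (h : k ≤ m) (ψ : G →* 𝒞.C m), (m : ℝ) ≤ (1 + ε) * k ∧
        ∀ i, 𝒞.d m (O.ex h (φ (FreeGroup.of i))) (ψ (s i)) ≤ ε

theorem flex_of_wrt (hm : 𝒞.IsMetric) {G ι : Type} [Group G] (s : ι → G)
    (hs : Function.Surjective (FreeGroup.lift s)) (h : FlexWrt O s) : Flex O G := by
  intro k φ hφ
  let Φ : ∀ n, FreeGroup ι →* 𝒞.C (k n) := fun n => FreeGroup.lift (fun i => φ n (s i))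
  have hone : Tendsto (fun n => 𝒞.d (k n) (φ n 1) 1) atTop (𝓝 0) := by
    refine (hφ 1 1).congr fun n => ?_
    have h1 := hm.left (k n) (φ n 1) (φ n 1) 1
    rw [mul_one] at h1
    rw [mul_one]
    exact h1
  have hone' : Tendsto (fun n => 𝒞.d (k n) 1 (φ n 1)) atTop (𝓝 0) :=
    hone.congr fun n => hm.symm _ _ _
  have hΦ : ∀ w, Tendsto (fun n => 𝒞.d (k n) (Φ n w) (φ n (FreeGroup.lift s w))) atTop (𝓝 0) := by
    intro w
    induction w using FreeGroup.induction_on with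
    | C1 =>
      refine hone'.congr fun n => ?_
      rw [map_one, map_one]
    | of i =>
      refine tendsto_const_nhds.congr fun n => ?_
      show (0 : ℝ) = 𝒞.d (k n) (Φ n (FreeGroup.of i)) _
      rw [show Φ n (FreeGroup.of i) = φ n (s i) from FreeGroup.lift_apply_of, FreeGroup.lift_apply_of, hm.self]
    | inv_of i _ =>
      refine squeeze_zero (fun n => hm.nonneg _ _ _) (fun n => ?_)
        (by have := hone'.add (hφ (s i) (s i)⁻¹); rwa [add_zero] at this)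
      rw [map_inv, map_inv, show Φ n (FreeGroup.of i) = φ n (s i) from FreeGroup.lift_apply_of,
        FreeGroup.lift_apply_of]
      have h1 := hm.left (k n) (φ n (s i)) (φ n (s i))⁻¹ (φ n (s i)⁻¹)
      rw [mul_inv_cancel] at h1
      rw [← h1]
      have h2 := hm.tri (k n) 1 (φ n 1) (φ n (s i) * φ n (s i)⁻¹)
      have h3 := hm.symm (k n) (φ n 1) (φ n (s i) * φ n (s i)⁻¹)
      rw [mul_inv_cancel (s i)]
      linarith
    | mul x y hx hy =>
      have t := (hφ (FreeGroup.lift s x) (FreeGroup.lift s y)).add (hx.add hy)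
      rw [add_zero, add_zero] at t
      refine squeeze_zero (fun n => hm.nonneg _ _ _) (fun n => ?_) t
      rw [map_mul, map_mul]
      have h1 := hm.tri (k n) (Φ n x * Φ n y)
        (φ n (FreeGroup.lift s x) * φ n (FreeGroup.lift s y))
        (φ n (FreeGroup.lift s x * FreeGroup.lift s y))
      have h2 := hm.mul_mul (k n) (Φ n x) (φ n (FreeGroup.lift s x)) (Φ n y)
        (φ n (FreeGroup.lift s y))
      linarith
  have hker : ∀ w, FreeGroup.lift s w = 1 → Tendsto (fun n => 𝒞.d (k n) (Φ n w) 1) atTop (𝓝 0) := by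
    intro w hw
    refine squeeze_zero (fun n => hm.nonneg _ _ _) (fun n => hm.tri (k n) (Φ n w) (φ n 1) 1)
      (by have := (hΦ w).add hone; rwa [add_zero, hw] at this)
  let A : ℕ → ℕ → Prop := fun j n => ∃ (m : ℕ) (hh : k n ≤ m) (ψ : G →* 𝒞.C m),
    0 < j → (m : ℝ) ≤ (1 + 1 / ((j : ℝ) + 1)) * k n ∧
      ∀ i, 𝒞.d m (O.ex hh (Φ n (FreeGroup.of i))) (ψ (s i)) ≤ 1 / ((j : ℝ) + 1)
  obtain ⟨κ, hκ1, hκ2⟩ := diag A
    (fun n => ⟨k n, le_rfl, 1, fun h => absurd h (lt_irrefl 0)⟩)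
    (by
      intro j
      obtain ⟨δ, hδ, E, hE, hh⟩ := h (1 / ((j : ℝ) + 1)) (by positivity)
      have hev : ∀ᶠ n in atTop, ∀ e ∈ E, 𝒞.d (k n) (Φ n e) 1 ≤ δ := by
        rw [Filter.eventually_all_finset]
        intro e he
        exact ((hker e (hE e he)).eventually (gt_mem_nhds hδ)).mono (fun n hn => le_of_lt hn)
      filter_upwards [hev] with n hn
      obtain ⟨m, hkm, ψ, h1, h2⟩ := hh (k n) (Φ n) hn
      exact ⟨m, hkm, ψ, fun _ => ⟨h1, h2⟩⟩)
  choose m hkm ψ hbd using hκ2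
  have hinv : Tendsto (fun n => 1 / ((κ n : ℝ) + 1)) atTop (𝓝 0) :=
    tendsto_one_div_add_atTop_nhds_zero_nat.comp hκ1
  have hgen : ∀ w, Tendsto (fun n => 𝒞.d (m n) (O.ex (hkm n) (Φ n w)) (ψ n (FreeGroup.lift s w)))
      atTop (𝓝 0) := by
    intro w
    induction w using FreeGroup.induction_on with
    | C1 =>
      refine tendsto_const_nhds.congr fun n => ?_
      rw [map_one, map_one, map_one, map_one, hm.self]
    | of i =>
      refine squeeze_zero' (Eventually.of_forall fun n => hm.nonneg _ _ _) ?_ hinv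
      filter_upwards [hκ1.eventually (eventually_gt_atTop 0)] with n hn
      have h1 := (hbd n hn).2 i
      rw [show FreeGroup.lift s (FreeGroup.of i) = s i from FreeGroup.lift_apply_of]
      exact h1
    | inv_of i hi =>
      refine hi.congr fun n => ?_
      rw [map_inv, map_inv, map_inv, map_inv, hm.inv]
    | mul x y hx hy =>
      refine squeeze_zero (fun n => hm.nonneg _ _ _) (fun n => ?_)
        (by have := hx.add hy; rwa [add_zero] at this)
      rw [map_mul, map_mul, map_mul, map_mul]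
      exact hm.mul_mul _ _ _ _ _
  refine ⟨m, hkm, ψ, ?_, ?_⟩
  · intro ε hε
    have h3 : ∀ᶠ n in atTop, 1 / ((κ n : ℝ) + 1) ≤ ε :=
      (hinv.eventually (gt_mem_nhds hε)).mono (fun n hn => le_of_lt hn)
    filter_upwards [h3, hκ1.eventually (eventually_gt_atTop 0)] with n g3 g4
    refine (hbd n g4).1.trans ?_
    gcongr
  · intro a
    obtain ⟨w, rfl⟩ := hs a
    refine squeeze_zero (fun n => hm.nonneg _ _ _) (fun n => ?_)
      (by have := (hΦ w).add (hgen w); rwa [add_zero] at this)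
    have h1 := hm.tri (m n) (O.ex (hkm n) (φ n (FreeGroup.lift s w))) (O.ex (hkm n) (Φ n w))
      (ψ n (FreeGroup.lift s w))
    have h2 := O.ex_d (hkm n) (Φ n w) (φ n (FreeGroup.lift s w))
    rw [hm.symm (m n) (O.ex (hkm n) (Φ n w))] at h2
    linarith

theorem wrt_of_flex (hm : 𝒞.IsMetric) {G ι : Type} [Group G] [Finite ι] (s : ι → G)
    (hs : Function.Surjective (FreeGroup.lift s)) (h : Flex O G) : FlexWrt O s := by
  classical
  have : Countable (FreeGroup ι) := by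
    have : Countable (List (ι × Bool)) := inferInstance
    exact Quot.mk_surjective.countable
  obtain ⟨en, hen⟩ := exists_surjective_nat (FreeGroup ι)
  by_contra hcon
  unfold FlexWrt at hcon
  push Not at hcon
  obtain ⟨ε, hε, hbad⟩ := hcon
  have hbad' : ∀ n : ℕ, ∃ (k : ℕ) (φ : FreeGroup ι →* 𝒞.C k),
      (∀ e ∈ ((Finset.range n).image en).filter (fun e => FreeGroup.lift s e = 1),
        𝒞.d k (φ e) 1 ≤ 1 / ((n : ℝ) + 1)) ∧
      ∀ (m : ℕ) (hh : k ≤ m) (ψ : G →* 𝒞.C m), (m : ℝ) ≤ (1 + ε) * k →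
        ∃ i, ε < 𝒞.d m (O.ex hh (φ (FreeGroup.of i))) (ψ (s i)) := by
    intro n
    exact hbad (1 / ((n : ℝ) + 1)) (by positivity) _ (fun e he => (Finset.mem_filter.mp he).2)
  choose k Φ hΦ1 hΦ2 using hbad'
  have hker : ∀ w, FreeGroup.lift s w = 1 → Tendsto (fun n => 𝒞.d (k n) (Φ n w) 1) atTop (𝓝 0) := by
    intro w hw
    obtain ⟨j, rfl⟩ := hen w
    refine squeeze_zero' (Eventually.of_forall fun n => hm.nonneg _ _ _) ?_
      tendsto_one_div_add_atTop_nhds_zero_nat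
    filter_upwards [eventually_gt_atTop j] with n hn
    exact hΦ1 n _ (Finset.mem_filter.mpr
      ⟨Finset.mem_image_of_mem _ (Finset.mem_range.mpr hn), hw⟩)
  have hdiff : ∀ x y, FreeGroup.lift s x = FreeGroup.lift s y →
      Tendsto (fun n => 𝒞.d (k n) (Φ n x) (Φ n y)) atTop (𝓝 0) := by
    intro x y hxy
    refine (hker (y⁻¹ * x) (by rw [map_mul, map_inv, hxy, inv_mul_cancel])).congr fun n => ?_
    have h1 := hm.left (k n) (Φ n y) (Φ n (y⁻¹ * x)) 1
    rw [← map_mul, mul_inv_cancel_left, mul_one] at h1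
    exact h1.symm
  choose σ hσ using hs
  obtain ⟨m, hkm, ψ, hb, hψ⟩ := h k (fun n g => Φ n (σ g)) (by
    intro a b
    refine (hdiff (σ a * σ b) (σ (a * b)) (by rw [map_mul, hσ, hσ, hσ])).congr fun n => ?_
    rw [map_mul])
  have e1 := hb ε hε
  have e2 : ∀ᶠ n in atTop, ∀ i, 𝒞.d (m n) (O.ex (hkm n) (Φ n (σ (s i)))) (ψ n (s i)) ≤ ε / 2 := by
    rw [Filter.eventually_all]
    intro i
    exact ((hψ (s i)).eventually (gt_mem_nhds (half_pos hε))).mono (fun n hn => le_of_lt hn)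
  have e3 : ∀ᶠ n in atTop, ∀ i, 𝒞.d (k n) (Φ n (FreeGroup.of i)) (Φ n (σ (s i))) ≤ ε / 2 := by
    rw [Filter.eventually_all]
    intro i
    refine ((hdiff (FreeGroup.of i) (σ (s i)) ?_).eventually
      (gt_mem_nhds (half_pos hε))).mono (fun n hn => le_of_lt hn)
    rw [hσ, FreeGroup.lift_apply_of]
  obtain ⟨n, g1, g2, g3⟩ := (e1.and (e2.and e3)).exists
  obtain ⟨i, hi⟩ := hΦ2 n (m n) (hkm n) (ψ n) g1
  have h1 := hm.tri (m n) (O.ex (hkm n) (Φ n (FreeGroup.of i))) (O.ex (hkm n) (Φ n (σ (s i))))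
    (ψ n (s i))
  have h2 := O.ex_d (hkm n) (Φ n (FreeGroup.of i)) (Φ n (σ (s i)))
  have h3 := g2 i
  have h4 := g3 i
  linarith

theorem flex_of_stable {G : Type} [Group G] (h : 𝒞.Stable G) : Flex O G := by
  intro k φ hφ
  obtain ⟨ψ, hψ⟩ := h k φ hφ
  refine ⟨k, fun n => le_rfl, ψ, fun ε hε => Eventually.of_forall fun n => ?_, fun a => ?_⟩
  · have : (0 : ℝ) ≤ k n := Nat.cast_nonneg _
    nlinarith
  · refine (hψ a).congr fun n => ?_
    rw [O.ex_rfl]

/-- `G` has asymptotic homomorphisms into the class that separate its elements. -/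
def Approx (𝒞 : Cls) (G : Type) [Group G] : Prop :=
  ∃ (k : ℕ → ℕ) (φ : ∀ n, G → 𝒞.C (k n)),
    (∀ a b : G, Tendsto (fun n => 𝒞.d (k n) (φ n a * φ n b) (φ n (a * b))) atTop (𝓝 0)) ∧
    ∀ g : G, g ≠ 1 → ∃ c : ℝ, 0 < c ∧ ∀ᶠ n in atTop, c ≤ 𝒞.d (k n) (φ n g) 1

theorem exists_hom_ne {G : Type} [Group G] (h : Flex O G) (ha : Approx 𝒞 G)
    (g : G) (hg : g ≠ 1) : ∃ (m : ℕ) (ψ : G →* 𝒞.C m), ψ g ≠ 1 := by
  obtain ⟨k, φ, hφ, hsep⟩ := ha
  obtain ⟨c, hc, hcn⟩ := hsep g hg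
  obtain ⟨m, hkm, ψ, hb, hψ⟩ := h k φ hφ
  have e1 := hb 1 one_pos
  have e2 := (hψ g).eventually (gt_mem_nhds (half_pos hc))
  obtain ⟨n, g1, g2, g3⟩ := (e1.and (e2.and hcn)).exists
  refine ⟨m n, ψ n, fun h1 => ?_⟩
  have h2 : m n ≤ 2 * k n := by
    have : (m n : ℝ) ≤ ((2 * k n : ℕ) : ℝ) := by push_cast; linarith
    exact_mod_cast this
  have h3 := O.ex_d' (hkm n) h2 (φ n g) 1
  rw [map_one] at h3
  rw [h1] at g2
  linarith

end Pool.Agent.H698R4
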