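import Pool.Agent.H698R4.FxPerm2
import Pool.Agent.H698R4.FxWrt

set_option autoImplicit false

/-! Flexible stability in permutations. -/

namespace Pool.Agent.H698R4

open Filter Topology Equiv Pool.Agent.H698R3 Pool.Agent.H698R3.Amalg

/-- Flexible stability in permutations of `G = ⟨s i⟩`: for every `ε > 0` there are `δ > 0` and a
finite set `E` of relations such that every homomorphism `φ : F → Sym(X)` from the free group with
`d(φ e, 1) ≤ δ` for `e ∈ E` admits a finite set `Y ⊇ X` with `|Y| ≤ (1+ε)|X|` and a homomorphism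
`ψ : G → Sym(Y)` with `d(φ(s_i), ψ(s_i)|_X) ≤ ε` for all `i`, where `ψ(s_i)|_X` is any permutation
of `X` agreeing with `ψ(s_i)` on `X ∩ ψ(s_i)⁻¹ X`. -/
def FlexPermWrt {G ι : Type} [Group G] (s : ι → G) : Prop :=
  ∀ ε : ℝ, 0 < ε → ∃ δ : ℝ, 0 < δ ∧ ∃ E : Finset (FreeGroup ι),
    (∀ e ∈ E, FreeGroup.lift s e = 1) ∧
    ∀ (X : Type) [Fintype X] [DecidableEq X] (φ : FreeGroup ι →* Perm X),
      (∀ e ∈ E, Stab.hammingDist (φ e) 1 ≤ δ) →
      ∃ (Y : Type) (_ : Fintype Y) (_ : DecidableEq Y) (j : X ↪ Y) (ψ : G →* Perm Y),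
        (Fintype.card Y : ℝ) ≤ (1 + ε) * Fintype.card X ∧
        ∀ (i : ι) (τ : Perm X), (∀ x x', ψ (s i) (j x) = j x' → τ x = x') →
          Stab.hammingDist (φ (FreeGroup.of i)) τ ≤ ε

theorem exists_comp {X Y : Type} [Finite Y] (p : Perm Y) (j : X ↪ Y) :
    ∃ τ : Perm X, ∀ x x', p (j x) = j x' → τ x = x' := by
  classical
  obtain ⟨τ', hτ'⟩ := exists_ext p (fun y => y ∉ Set.range j)
  let eX : X ≃ {y // ¬ (y ∉ Set.range j)} :=
    (Equiv.ofInjective j j.injective).trans (Equiv.subtypeEquivRight (fun y => not_not.symm))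
  have heX : ∀ x, (eX x).1 = j x := fun x => rfl
  refine ⟨eX.symm.permCongr τ', fun x x' hx => ?_⟩
  have h1 : (τ' (eX x)).1 = p (eX x).1 := hτ' (eX x) (by
    rw [heX, hx, not_not]; exact ⟨x', rfl⟩)
  rw [heX, hx] at h1
  show eX.symm (τ' (eX x)) = x'
  rw [Equiv.symm_apply_eq]
  exact Subtype.ext h1

theorem exists_equiv_ext {Y : Type} [Fintype Y] [DecidableEq Y] {k m : ℕ} (hm : Fintype.card Y = m)
    (h : k ≤ m) (j : Fin k ↪ Y) : ∃ e : Y ≃ Fin m, ∀ x, e (j x) = Fin.castLE h x := by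
  classical
  subst hm
  let e0 : Y ≃ Fin (Fintype.card Y) := Fintype.equivFin Y
  let f : Fin k ↪ Fin (Fintype.card Y) := j.trans e0.toEmbedding
  let g : Fin k ↪ Fin (Fintype.card Y) := Fin.castLEEmb h
  let a : {y // y ∈ Set.range f} ≃ {y // y ∈ Set.range g} :=
    (Equiv.ofInjective f f.injective).symm.trans (Equiv.ofInjective g g.injective)
  let b := a.extendSubtype
  refine ⟨e0.trans b, fun x => ?_⟩
  show b (f x) = g x
  rw [show b (f x) = a.extendSubtype (f x) from rfl,
    Equiv.extendSubtype_apply_of_mem a (f x) ⟨x, rfl⟩]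
  have : (Equiv.ofInjective f f.injective).symm ⟨f x, ⟨x, rfl⟩⟩ = x :=
    Equiv.ofInjective_symm_apply f.injective x
  show ((Equiv.ofInjective g g.injective)
    ((Equiv.ofInjective f f.injective).symm ⟨f x, _⟩)).1 = g x
  rw [this]
  rfl

theorem hamming_le_iff {X : Type} [Fintype X] [DecidableEq X] (σ τ : Perm X) (ε : ℝ) (hε : 0 ≤ ε) :
    Stab.hammingDist σ τ ≤ ε ↔
      ((Finset.univ.filter (fun x => σ x ≠ τ x)).card : ℝ) ≤ ε * Fintype.card X := by
  unfold Stab.hammingDist
  rcases Nat.eq_zero_or_pos (Fintype.card X) with h0 | h0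
  · have h1 : (Finset.univ.filter (fun x => σ x ≠ τ x)).card = 0 := by
      have := Finset.card_le_univ (Finset.univ.filter (fun x => σ x ≠ τ x))
      omega
    rw [h1, h0]
    simp [hε]
  · have : (0 : ℝ) < Fintype.card X := by exact_mod_cast h0
    rw [div_le_iff₀ this]

theorem flexWrt_of_perm {G ι : Type} [Group G] (s : ι → G) (h : FlexPermWrt s) :
    FlexWrt opsP s := by
  classical
  intro ε hε
  obtain ⟨δ, hδ, E, hE, hh⟩ := h (ε / 3) (by linarith)
  refine ⟨δ, hδ, E, hE, fun k φ hφ => ?_⟩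
  change FreeGroup ι →* Perm (Fin k) at φ
  obtain ⟨Y, _, _, j, ψ, hY, hψ⟩ := hh (Fin k) φ hφ
  rw [Fintype.card_fin] at hY
  have hkm : k ≤ Fintype.card Y := by
    have := Fintype.card_le_of_embedding j
    rwa [Fintype.card_fin] at this
  obtain ⟨e, he⟩ := exists_equiv_ext rfl hkm j
  refine ⟨Fintype.card Y, hkm, transp e ψ, ?_, fun i => ?_⟩
  · have : (0 : ℝ) ≤ k := Nat.cast_nonneg _
    nlinarith
  show Stab.hammingDist (exP hkm (φ (FreeGroup.of i))) (transp e ψ (s i)) ≤ ε
  rw [hamming_le_iff _ _ _ hε.le, Fintype.card_fin]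
  set σ := φ (FreeGroup.of i) with hσ
  set p := ψ (s i) with hp
  obtain ⟨τ, hτ⟩ := exists_comp p j
  have h1 := (hamming_le_iff _ _ _ (by linarith)).mp (hψ i τ hτ)
  rw [Fintype.card_fin] at h1
  have hsub : Finset.univ.filter (fun y => exP hkm σ y ≠ transp e ψ (s i) y) ⊆
      ((Finset.univ.filter (fun x => σ x ≠ τ x)).image (Fin.castLE hkm)) ∪
      ((Finset.univ.filter (fun x => p (j x) ∉ Set.range j)).image (Fin.castLE hkm)) ∪
      (Finset.univ \ Finset.univ.image (Fin.castLE hkm)) := by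
    intro y hy
    rw [Finset.mem_filter] at hy
    by_cases hy1 : y ∈ Finset.univ.image (Fin.castLE hkm)
    · obtain ⟨x, -, rfl⟩ := Finset.mem_image.mp hy1
      rw [Finset.mem_union, Finset.mem_union]
      left
      by_cases hx : p (j x) ∈ Set.range j
      · left
        obtain ⟨x', hx'⟩ := hx
        refine Finset.mem_image_of_mem _ (Finset.mem_filter.mpr ⟨Finset.mem_univ _, fun hst => ?_⟩)
        apply hy.2
        rw [exP_cast, ← he x, transp_apply, ← hp, ← hx', he, hst, hτ x x' hx'.symm]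
      · right
        exact Finset.mem_image_of_mem _ (Finset.mem_filter.mpr ⟨Finset.mem_univ _, hx⟩)
    · rw [Finset.mem_union]
      right
      exact Finset.mem_sdiff.mpr ⟨Finset.mem_univ _, hy1⟩
  have hc1 : (Finset.univ \ Finset.univ.image (Fin.castLE hkm) :
      Finset (Fin (Fintype.card Y))).card = Fintype.card Y - k := by
    rw [Finset.card_sdiff_of_subset (Finset.subset_univ _), Finset.card_image_of_injective _
      (Fin.castLE_injective hkm), Finset.card_univ, Finset.card_univ, Fintype.card_fin,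
      Fintype.card_fin]
  have hc2 : (Finset.univ.filter (fun x => p (j x) ∉ Set.range j)).card ≤ Fintype.card Y - k := by
    have h2 : ((Finset.univ.filter (fun x => p (j x) ∉ Set.range j)).image (fun x => p (j x))) ⊆
        Finset.univ \ Finset.univ.image j := by
      intro y hy
      obtain ⟨x, hx, rfl⟩ := Finset.mem_image.mp hy
      refine Finset.mem_sdiff.mpr ⟨Finset.mem_univ _, fun hc => (Finset.mem_filter.mp hx).2 ?_⟩
      obtain ⟨x', -, hx'⟩ := Finset.mem_image.mp hc
      exact ⟨x', hx'⟩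
    have h3 := Finset.card_le_card h2
    have hinj : Function.Injective (fun x => p (j x)) := p.injective.comp j.injective
    rw [Finset.card_image_of_injective _ hinj, Finset.card_sdiff_of_subset (Finset.subset_univ _), Finset.card_image_of_injective _
      j.injective, Finset.card_univ, Finset.card_univ, Fintype.card_fin] at h3
    exact h3
  have h2 := (Finset.card_le_card hsub).trans ((Finset.card_union_le _ _).trans
    (Nat.add_le_add_right (Finset.card_union_le _ _) _))
  rw [hc1] at h2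
  have h3 := Finset.card_image_le (s := Finset.univ.filter (fun x => σ x ≠ τ x))
    (f := Fin.castLE hkm)
  have h4 := Finset.card_image_le (s := Finset.univ.filter (fun x => p (j x) ∉ Set.range j))
    (f := Fin.castLE hkm)
  have h5 : (Finset.univ.filter (fun y => exP hkm σ y ≠ transp e ψ (s i) y)).card + 2 * k ≤
      (Finset.univ.filter (fun x => σ x ≠ τ x)).card + 2 * Fintype.card Y := by omega
  have h6 : ((Finset.univ.filter (fun y => exP hkm σ y ≠ transp e ψ (s i) y)).card : ℝ) + 2 * k ≤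
      ((Finset.univ.filter (fun x => σ x ≠ τ x)).card : ℝ) + 2 * Fintype.card Y := by
    exact_mod_cast h5
  have h7 : (k : ℝ) ≤ Fintype.card Y := by exact_mod_cast hkm
  have h8 : ε * (k : ℝ) ≤ ε * Fintype.card Y := by gcongr
  linarith

theorem perm_of_flexWrt {G ι : Type} [Group G] (s : ι → G) (h : FlexWrt opsP s) :
    FlexPermWrt s := by
  classical
  intro ε hε
  obtain ⟨δ, hδ, E, hE, hh⟩ := h (min (ε / 2) 1) (lt_min (by linarith) one_pos)
  refine ⟨δ, hδ, E, hE, fun X _ _ φ hφ => ?_⟩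
  let k := Fintype.card X
  let e : X ≃ Fin k := Fintype.equivFin X
  obtain ⟨m, hkm, ψ, hm, hψ⟩ := hh k (transp e φ) (fun x hx => by
    show Stab.hammingDist (e.permCongr (φ x)) 1 ≤ δ
    rw [hamming_le_iff _ _ _ hδ.le]
    have h1 := (hamming_le_iff _ _ _ hδ.le).mp (hφ x hx)
    rw [Fintype.card_fin]
    refine le_trans ?_ h1
    rw [Finset.card_filter, Finset.card_filter]
    rw [← Equiv.sum_comp e]
    simp)
  change G →* Perm (Fin m) at ψ
  let j : X ↪ Fin m := e.toEmbedding.trans (Fin.castLEEmb hkm)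
  have hjx : ∀ x, j x = Fin.castLE hkm (e x) := fun x => rfl
  refine ⟨Fin m, inferInstance, inferInstance, j, ψ, ?_, fun i τ hτ => ?_⟩
  · rw [Fintype.card_fin]
    refine hm.trans ?_
    have h1 : min (ε / 2) 1 ≤ ε := (min_le_left _ _).trans (by linarith)
    have : (0 : ℝ) ≤ Fintype.card X := Nat.cast_nonneg _
    show (1 + min (ε / 2) 1) * (Fintype.card X : ℝ) ≤ _
    nlinarith
  · rw [hamming_le_iff _ _ _ hε.le]
    have h1 : Stab.hammingDist (exP hkm (transp e φ (FreeGroup.of i))) (ψ (s i)) ≤ min (ε / 2) 1 :=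
      hψ i
    rw [hamming_le_iff _ _ _ (by positivity), Fintype.card_fin] at h1
    have h2 : (Finset.univ.filter (fun x => φ (FreeGroup.of i) x ≠ τ x)).card ≤
        (Finset.univ.filter
          (fun y => exP hkm (transp e φ (FreeGroup.of i)) y ≠ ψ (s i) y)).card := by
      rw [← Finset.card_map j]
      apply Finset.card_le_card
      intro y hy
      obtain ⟨x, hx, rfl⟩ := Finset.mem_map.mp hy
      rw [Finset.mem_filter] at hx ⊢
      refine ⟨Finset.mem_univ _, fun hc => hx.2 ?_⟩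
      rw [hjx, exP_cast, transp_apply, ← hjx, ← hjx] at hc
      exact (hτ x _ hc.symm).symm
    have h3 : ((Finset.univ.filter (fun x => φ (FreeGroup.of i) x ≠ τ x)).card : ℝ) ≤
        min (ε / 2) 1 * m := (Nat.cast_le.mpr h2).trans h1
    have h4 : (0 : ℝ) ≤ k := Nat.cast_nonneg _
    have h5 : (m : ℝ) ≤ 2 * k := by
      have : min (ε / 2) 1 ≤ 1 := min_le_right _ _
      nlinarith
    have h6 : min (ε / 2) 1 ≤ ε / 2 := min_le_left _ _
    have h7 : (0 : ℝ) ≤ min (ε / 2) 1 := by positivity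
    calc ((Finset.univ.filter (fun x => φ (FreeGroup.of i) x ≠ τ x)).card : ℝ)
        ≤ min (ε / 2) 1 * m := h3
      _ ≤ ε / 2 * (2 * k) := by gcongr
      _ = ε * Fintype.card X := by ring

/-- `G` is sofic: it has asymptotic homomorphisms to finite symmetric groups that separate its
elements. -/
def Sofic (G : Type) [Group G] : Prop :=
  ∃ (k : ℕ → ℕ) (φ : ∀ n, G → Perm (Fin (k n))),
    (∀ a b : G, Tendsto (fun n => Stab.hammingDist (φ n a * φ n b) (φ n (a * b))) atTop (𝓝 0)) ∧
    ∀ g : G, g ≠ 1 → ∃ c : ℝ, 0 < c ∧ ∀ᶠ n in atTop, c ≤ Stab.hammingDist (φ n g) 1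

theorem lift_surj {G : Type} [Group G] {ι : Type} (s : ι → G)
    (hs : Subgroup.closure (Set.range s) = ⊤) : Function.Surjective (FreeGroup.lift s) := by
  rw [← MonoidHom.range_eq_top, FreeGroup.range_lift_eq_closure, hs]

theorem flexPerm_amalg {G₁ G₂ H ι₁ ι₂ : Type} [Group G₁] [Group G₂] [Group H] [Finite H]
    (f₁ : H →* G₁) (f₂ : H →* G₂) (hres : SameRes f₁ f₂)
    (s₁ : ι₁ → G₁) (hs₁ : Subgroup.closure (Set.range s₁) = ⊤)
    (s₂ : ι₂ → G₂) (hs₂ : Subgroup.closure (Set.range s₂) = ⊤)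
    (h₁ : PermutationStable G₁ ∨ FlexPermWrt s₁) (h₂ : PermutationStable G₂ ∨ FlexPermWrt s₂)
    {ι : Type} [Finite ι] (s : ι → AmalgProd f₁ f₂) (hs : Subgroup.closure (Set.range s) = ⊤) :
    FlexPermWrt s := by
  have := Fintype.ofFinite H
  have g₁ : Flex opsP G₁ := by
    rcases h₁ with h | h
    · exact flex_of_stable ((permStable_iff G₁).mp h)
    · exact flex_of_wrt permCls_metric s₁ (lift_surj s₁ hs₁) (flexWrt_of_perm s₁ h)
  have g₂ : Flex opsP G₂ := by
    rcases h₂ with h | h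
    · exact flex_of_stable ((permStable_iff G₂).mp h)
    · exact flex_of_wrt permCls_metric s₂ (lift_surj s₂ hs₂) (flexWrt_of_perm s₂ h)
  have g := flex_amalg (O := opsP) (f₁ := f₁) (f₂ := f₂) permCls_metric haddP
    (absorbP f₁ f₂ hres) (absorbP f₂ f₁ fun h => (hres h).symm) g₁ g₂
  exact perm_of_flexWrt s (wrt_of_flex permCls_metric s (lift_surj s hs) g)

theorem not_killed_of_sofic {G ι : Type} [Group G] (s : ι → G)
    (hs : Subgroup.closure (Set.range s) = ⊤)
    (h : PermutationStable G ∨ FlexPermWrt s) (hsof : Sofic G) (g : G) (hg : g ≠ 1) :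
    ¬ Killed g := by
  have hfl : Flex opsP G := by
    rcases h with h | h
    · exact flex_of_stable ((permStable_iff G).mp h)
    · exact flex_of_wrt permCls_metric s (lift_surj s hs) (flexWrt_of_perm s h)
  obtain ⟨m, ψ, hψ⟩ := exists_hom_ne hfl hsof g hg
  exact fun hk => hψ (hk (Perm (Fin m)) ψ)

theorem sameRes_of {G₁ G₂ H : Type} [Group G₁] [Group G₂] [Group H] (f₁ : H →* G₁)
    (f₂ : H →* G₂) (hf₁ : Function.Injective f₁) (hf₂ : Function.Injective f₂)
    (h₁ : ∀ g : G₁, g ≠ 1 → ¬ Killed g) (h₂ : ∀ g : G₂, g ≠ 1 → ¬ Killed g) :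
    SameRes f₁ f₂ := by
  intro h
  by_cases hh : h = 1
  · subst hh
    rw [map_one, map_one]
    exact ⟨fun _ Q _ _ q => map_one q, fun _ Q _ _ q => map_one q⟩
  · exact ⟨fun hk => absurd hk (h₁ _ fun h' => hh (hf₁ (by rw [h', map_one]))),
      fun hk => absurd hk (h₂ _ fun h' => hh (hf₂ (by rw [h', map_one])))⟩

end Pool.Agent.H698R4
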