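import Pool.Agent.H698R4.FxHs2
import Pool.Agent.H698R4.FxPerm3
import Pool.Agent.H698R4.Malcev

set_option autoImplicit false

/-! Flexible Hilbert-Schmidt stability. -/

namespace Pool.Agent.H698R4

open Filter Topology Matrix Pool.Agent.H698R3 Pool.Agent.H698R3.Amalg

/-- Flexible Hilbert-Schmidt stability of `G = ⟨s i⟩`: for every `ε > 0` there are `δ > 0` and a
finite set `E` of relations such that every homomorphism `φ : F → U(X)` from the free group with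
`d(φ e, 1) ≤ δ` for `e ∈ E` admits a finite set `Y ⊇ X` with `|Y| ≤ (1+ε)|X|` and a homomorphism
`ψ : G → U(Y)` with `d(φ(s_i), ψ(s_i)|_X) ≤ ε` for all `i`, where `ψ(s_i)|_X` is the compression
of `ψ(s_i)` to `ℂ^X ⊆ ℂ^Y`. -/
def FlexHSWrt {G ι : Type} [Group G] (s : ι → G) : Prop :=
  ∀ ε : ℝ, 0 < ε → ∃ δ : ℝ, 0 < δ ∧ ∃ E : Finset (FreeGroup ι),
    (∀ e ∈ E, FreeGroup.lift s e = 1) ∧
    ∀ (X : Type) [Fintype X] [DecidableEq X] (φ : FreeGroup ι →* Matrix.unitaryGroup X ℂ),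
      (∀ e ∈ E, hsDist (φ e).1 1 ≤ δ) →
      ∃ (Y : Type) (_ : Fintype Y) (_ : DecidableEq Y) (j : X ↪ Y)
        (ψ : G →* Matrix.unitaryGroup Y ℂ),
        (Fintype.card Y : ℝ) ≤ (1 + ε) * Fintype.card X ∧
        ∀ i : ι, hsDist (φ (FreeGroup.of i)).1 ((ψ (s i)).1.submatrix j j) ≤ ε

theorem Jm_mul' {X Y Z : Type} [Fintype X] [DecidableEq X] [Fintype Y] [Fintype Z]
    (j : Y → X) (A : Matrix X Z ℂ) : (Jm j)ᴴ * A = A.submatrix j id := by
  have h := mul_Jm j Aᴴ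
  have h2 := congrArg conjTranspose h
  rw [conjTranspose_mul, conjTranspose_conjTranspose] at h2
  rw [h2]
  ext a b
  simp [conjTranspose_apply, Matrix.submatrix_apply]

theorem sub_eq_JJ {X Y : Type} [Fintype X] [DecidableEq X] [Fintype Y]
    (j : Y → X) (A : Matrix X X ℂ) : A.submatrix j j = (Jm j)ᴴ * A * Jm j := by
  rw [mul_Jm, Jm_mul']
  rfl

theorem fro_sub_le {X Y : Type} [Fintype X] [DecidableEq X] [Fintype Y]
    (j : Y → X) (hj : Function.Injective j) (A : Matrix X X ℂ) :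
    fro (A.submatrix j j) ≤ fro A := by
  have h1 : fro (A.submatrix j j) = fro ((A.submatrix j id).submatrix id j) := rfl
  rw [h1]
  refine (fro_submatrix_le _ j hj).trans ?_
  have h2 : fro (A.submatrix j id) = fro (Aᴴ.submatrix id j) := by
    rw [← fro_conjTranspose]
    rfl
  rw [h2]
  refine (fro_submatrix_le _ j hj).trans ?_
  rw [fro_conjTranspose]

theorem fro_proj {k m : ℕ} (h : k ≤ m) :
    fro (1 - Jm (Fin.castLE h) * (Jm (Fin.castLE h))ᴴ) = (m : ℝ) - k := by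
  set J := Jm (Fin.castLE h) with hJ
  have h1 : Jᴴ * J = 1 := Jm_isometry _ (Fin.castLE_injective h)
  have h2 : (1 - J * Jᴴ)ᴴ * (1 - J * Jᴴ) = 1 - J * Jᴴ := by
    rw [conjTranspose_sub, conjTranspose_one, conjTranspose_mul, conjTranspose_conjTranspose]
    have h3 : J * Jᴴ * (J * Jᴴ) = J * Jᴴ := by
      rw [Matrix.mul_assoc, ← Matrix.mul_assoc Jᴴ, h1, Matrix.one_mul]
    rw [Matrix.sub_mul, Matrix.mul_sub, Matrix.mul_sub, h3]
    simp
  rw [fro_eq_re, h2, trace_sub, Matrix.trace_mul_comm, h1, Matrix.trace_one, Matrix.trace_one,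
    Fintype.card_fin, Fintype.card_fin]
  simp

theorem fn_compl_mul {k m : ℕ} (h : k ≤ m) (U V : Matrix.unitaryGroup (Fin m) ℂ) :
    fn ((1 - Jm (Fin.castLE h) * (Jm (Fin.castLE h))ᴴ) * (U.1 - V.1)) ≤
      2 * Real.sqrt ((m : ℝ) - k) := by
  rw [Matrix.mul_sub, sub_eq_add_neg]
  refine (fn_add_le _ _).trans ?_
  have h1 : fn (-((1 - Jm (Fin.castLE h) * (Jm (Fin.castLE h))ᴴ) * V.1)) =
      fn ((1 - Jm (Fin.castLE h) * (Jm (Fin.castLE h))ᴴ) * V.1) := by
    unfold fn; rw [fro_neg]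
  rw [h1, fn_right, fn_right]
  unfold fn
  rw [fro_proj]
  linarith

theorem fn_mul_compl {k m : ℕ} (h : k ≤ m) (U V : Matrix.unitaryGroup (Fin m) ℂ) :
    fn ((U.1 - V.1) * (1 - Jm (Fin.castLE h) * (Jm (Fin.castLE h))ᴴ)) ≤
      2 * Real.sqrt ((m : ℝ) - k) := by
  rw [Matrix.sub_mul, sub_eq_add_neg]
  refine (fn_add_le _ _).trans ?_
  have h1 : fn (-(V.1 * (1 - Jm (Fin.castLE h) * (Jm (Fin.castLE h))ᴴ))) =
      fn (V.1 * (1 - Jm (Fin.castLE h) * (Jm (Fin.castLE h))ᴴ)) := by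
    unfold fn; rw [fro_neg]
  rw [h1, fn_left, fn_left]
  unfold fn
  rw [fro_proj]
  linarith

/-- The distance is controlled by the corner. -/
theorem fn_le_corner {k m : ℕ} (h : k ≤ m) (U V : Matrix.unitaryGroup (Fin m) ℂ) :
    fn (U.1 - V.1) ≤ fn ((U.1 - V.1).submatrix (Fin.castLE h) (Fin.castLE h)) +
      4 * Real.sqrt ((m : ℝ) - k) := by
  set J := Jm (Fin.castLE h) with hJ
  have h1 : Jᴴ * J = 1 := Jm_isometry _ (Fin.castLE_injective h)
  set D := U.1 - V.1 with hD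
  have hdec : D = J * (Jᴴ * D * J) * Jᴴ + ((1 - J * Jᴴ) * D * J * Jᴴ + D * (1 - J * Jᴴ)) := by
    simp only [Matrix.sub_mul, Matrix.mul_sub, Matrix.one_mul, Matrix.mul_one, Matrix.mul_assoc]
    abel
  have e1 : fn (J * (Jᴴ * D * J) * Jᴴ) = fn (D.submatrix (Fin.castLE h) (Fin.castLE h)) := by
    unfold fn
    rw [fro_JAJ J h1, sub_eq_JJ]
  have e2 : fn ((1 - J * Jᴴ) * D * J * Jᴴ) ≤ 2 * Real.sqrt ((m : ℝ) - k) := by
    refine le_trans ?_ (fn_compl_mul h U V)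
    unfold fn
    apply Real.sqrt_le_sqrt
    rw [fro_mul_right _ (by rw [conjTranspose_conjTranspose]; exact h1)]
    rw [hJ, mul_Jm]
    exact fro_submatrix_le _ _ (Fin.castLE_injective h)
  have e3 := fn_mul_compl h U V
  calc fn D ≤ fn (J * (Jᴴ * D * J) * Jᴴ) +
        fn ((1 - J * Jᴴ) * D * J * Jᴴ + D * (1 - J * Jᴴ)) := by
        nth_rewrite 1 [hdec]; exact fn_add_le _ _
    _ ≤ fn (J * (Jᴴ * D * J) * Jᴴ) +
        (fn ((1 - J * Jᴴ) * D * J * Jᴴ) + fn (D * (1 - J * Jᴴ))) := by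
        gcongr; exact fn_add_le _ _
    _ ≤ _ := by rw [e1]; linarith

theorem exH_corner {k m : ℕ} (h : k ≤ m) (U : Matrix.unitaryGroup (Fin k) ℂ) :
    (exH h U).1.submatrix (Fin.castLE h) (Fin.castLE h) = U.1 := by
  rw [sub_eq_JJ, exH_coe]
  have h1 : (Jm (Fin.castLE h))ᴴ * Jm (Fin.castLE h) = 1 :=
    Jm_isometry _ (Fin.castLE_injective h)
  have h2 : ∀ M : Matrix (Fin k) (Fin k) ℂ,
      (Jm (Fin.castLE h))ᴴ * (Jm (Fin.castLE h) * M) = M := by
    intro M; rw [← Matrix.mul_assoc, h1, Matrix.one_mul]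
  unfold exM
  simp only [Matrix.add_mul, Matrix.mul_add, Matrix.sub_mul, Matrix.mul_sub, Matrix.mul_assoc,
    Matrix.one_mul, h1, h2, Matrix.mul_one]
  abel

theorem hs_le_iff {X : Type} [Fintype X] [DecidableEq X] (A B : Matrix X X ℂ) (ε : ℝ)
    (hε : 0 ≤ ε) : hsDist A B ≤ ε ↔ fn (A - B) ≤ ε * Real.sqrt (Fintype.card X) := by
  rw [hsDist_eq]
  rcases Nat.eq_zero_or_pos (Fintype.card X) with h0 | h0
  · have : IsEmpty X := Fintype.card_eq_zero_iff.mp h0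
    have h1 : fn (A - B) = 0 := by
      unfold fn fro
      simp
    rw [h1, h0]
    simp [hε]
  · have h1 : (0 : ℝ) < Fintype.card X := by exact_mod_cast h0
    rw [div_le_iff₀ (Real.sqrt_pos.mpr h1)]

theorem flexWrt_of_hs {G ι : Type} [Group G] (s : ι → G) (h : FlexHSWrt s) : FlexWrt opsH s := by
  classical
  intro ε hε
  set κ : ℝ := min 1 (ε / 5) with hκ
  have hκ0 : 0 < κ := lt_min one_pos (by linarith)
  have hκ1 : κ ≤ 1 := min_le_left _ _
  have hκ2 : κ ≤ ε / 5 := min_le_right _ _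
  obtain ⟨δ, hδ, E, hE, hh⟩ := h (κ ^ 2) (by positivity)
  refine ⟨δ, hδ, E, hE, fun k φ hφ => ?_⟩
  change FreeGroup ι →* Matrix.unitaryGroup (Fin k) ℂ at φ
  obtain ⟨Y, _, _, j, ψ, hY, hψ⟩ := hh (Fin k) φ hφ
  rw [Fintype.card_fin] at hY
  have hkm : k ≤ Fintype.card Y := by
    have := Fintype.card_le_of_embedding j
    rwa [Fintype.card_fin] at this
  obtain ⟨e, he⟩ := exists_equiv_ext rfl hkm j
  have hk0 : (0 : ℝ) ≤ k := Nat.cast_nonneg _
  have hκ3 : κ ^ 2 ≤ κ := by nlinarith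
  have hκ4 : κ ^ 2 ≤ ε := by linarith
  refine ⟨Fintype.card Y, hkm, trR e ψ, ?_, fun i => ?_⟩
  · nlinarith
  show hsDist (exH hkm (φ (FreeGroup.of i))).1 (trR e ψ (s i)).1 ≤ ε
  rw [hs_le_iff _ _ _ hε.le, Fintype.card_fin]
  refine (fn_le_corner hkm _ _).trans ?_
  have h1 : ((exH hkm (φ (FreeGroup.of i))).1 - (trR e ψ (s i)).1).submatrix
      (Fin.castLE hkm) (Fin.castLE hkm) = (φ (FreeGroup.of i)).1 - (ψ (s i)).1.submatrix j j := by
    rw [Matrix.submatrix_sub]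
    show (exH hkm (φ (FreeGroup.of i))).1.submatrix (Fin.castLE hkm) (Fin.castLE hkm) -
      (trR e ψ (s i)).1.submatrix (Fin.castLE hkm) (Fin.castLE hkm) = _
    rw [exH_corner, trR_coe]
    congr 1
    ext x y
    simp only [Matrix.submatrix_apply]
    rw [← he x, ← he y, Equiv.symm_apply_apply, Equiv.symm_apply_apply]
  rw [h1]
  have h2 := (hs_le_iff _ _ _ (by positivity)).mp (hψ i)
  rw [Fintype.card_fin] at h2
  have h3 : Real.sqrt ((Fintype.card Y : ℝ) - k) ≤ κ * Real.sqrt k := by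
    rw [Real.sqrt_le_left (by positivity), mul_pow, Real.sq_sqrt hk0]
    linarith
  have h4 : Real.sqrt k ≤ Real.sqrt (Fintype.card Y) :=
    Real.sqrt_le_sqrt (by exact_mod_cast hkm)
  have h5 : 0 ≤ Real.sqrt k := Real.sqrt_nonneg _
  calc fn ((φ (FreeGroup.of i)).1 - (ψ (s i)).1.submatrix j j) +
        4 * Real.sqrt ((Fintype.card Y : ℝ) - k)
      ≤ κ ^ 2 * Real.sqrt k + 4 * (κ * Real.sqrt k) := by linarith
    _ ≤ κ * Real.sqrt k + 4 * (κ * Real.sqrt k) := by gcongr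
    _ = 5 * κ * Real.sqrt k := by ring
    _ ≤ ε * Real.sqrt (Fintype.card Y) := by
        have : 5 * κ ≤ ε := by linarith
        gcongr

theorem hs_of_flexWrt {G ι : Type} [Group G] (s : ι → G) (h : FlexWrt opsH s) :
    FlexHSWrt s := by
  classical
  intro ε hε
  obtain ⟨δ, hδ, E, hE, hh⟩ := h (min (ε / 2) 1) (lt_min (by linarith) one_pos)
  refine ⟨δ, hδ, E, hE, fun X _ _ φ hφ => ?_⟩
  let k := Fintype.card X
  let e : X ≃ Fin k := Fintype.equivFin X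
  obtain ⟨m, hkm, ψ, hm, hψ⟩ := hh k (trR e φ) (fun x hx => by
    show hsDist (trR e φ x).1 1 ≤ δ
    rw [trR_coe, show (1 : Matrix (Fin k) (Fin k) ℂ) =
      (1 : Matrix X X ℂ).submatrix e.symm e.symm from (Matrix.submatrix_one_equiv _).symm,
      hsDist_submatrix]
    exact hφ x hx)
  change G →* Matrix.unitaryGroup (Fin m) ℂ at ψ
  let j : X ↪ Fin m := e.toEmbedding.trans (Fin.castLEEmb hkm)
  have hjx : ∀ x, j x = Fin.castLE hkm (e x) := fun x => rfl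
  have hε1 : min (ε / 2) 1 ≤ ε / 2 := min_le_left _ _
  have hε2 : min (ε / 2) 1 ≤ 1 := min_le_right _ _
  have hε3 : 0 ≤ min (ε / 2) 1 := by positivity
  have hk0 : (0 : ℝ) ≤ k := Nat.cast_nonneg _
  refine ⟨Fin m, inferInstance, inferInstance, j, ψ, ?_, fun i => ?_⟩
  · rw [Fintype.card_fin]
    refine hm.trans ?_
    show (1 + min (ε / 2) 1) * (k : ℝ) ≤ (1 + ε) * (k : ℝ)
    nlinarith
  · rw [hs_le_iff _ _ _ hε.le]
    have h1 : hsDist (exH hkm (trR e φ (FreeGroup.of i))).1 (ψ (s i)).1 ≤ min (ε / 2) 1 := hψ i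
    rw [hs_le_iff _ _ _ hε3, Fintype.card_fin] at h1
    have h2 : (φ (FreeGroup.of i)).1 - (ψ (s i)).1.submatrix j j =
        ((exH hkm (trR e φ (FreeGroup.of i))).1 - (ψ (s i)).1).submatrix j j := by
      rw [Matrix.submatrix_sub]
      show _ = (exH hkm (trR e φ (FreeGroup.of i))).1.submatrix j j - (ψ (s i)).1.submatrix j j
      congr 1
      have h3 := exH_corner hkm (trR e φ (FreeGroup.of i))
      ext x y
      have h4 := congrFun (congrFun h3 (e x)) (e y)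
      rw [Matrix.submatrix_apply, trR_coe, Matrix.submatrix_apply, Equiv.symm_apply_apply,
        Equiv.symm_apply_apply] at h4
      exact h4.symm
    have h3 : fn ((φ (FreeGroup.of i)).1 - (ψ (s i)).1.submatrix j j) ≤
        fn ((exH hkm (trR e φ (FreeGroup.of i))).1 - (ψ (s i)).1) := by
      rw [h2]
      unfold fn
      exact Real.sqrt_le_sqrt (fro_sub_le j j.injective _)
    have h5 : (m : ℝ) ≤ 2 * k := by
      have h6 : (m : ℝ) ≤ (1 + min (ε / 2) 1) * (k : ℝ) := hm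
      nlinarith
    have h6 : Real.sqrt m ≤ 2 * Real.sqrt k := by
      rw [Real.sqrt_le_left (by positivity), mul_pow, Real.sq_sqrt hk0]
      linarith
    calc fn ((φ (FreeGroup.of i)).1 - (ψ (s i)).1.submatrix j j)
        ≤ min (ε / 2) 1 * Real.sqrt m := h3.trans h1
      _ ≤ ε / 2 * (2 * Real.sqrt k) := by gcongr
      _ = ε * Real.sqrt (Fintype.card X) := by ring

/-- `G` is hyperlinear: it has asymptotic homomorphisms to finite-dimensional unitary groups that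
separate its elements. -/
def Hyperlinear (G : Type) [Group G] : Prop :=
  ∃ (k : ℕ → ℕ) (φ : ∀ n, G → Matrix.unitaryGroup (Fin (k n)) ℂ),
    (∀ a b : G, Tendsto (fun n => hsDist (φ n a * φ n b).1 (φ n (a * b)).1) atTop (𝓝 0)) ∧
    ∀ g : G, g ≠ 1 → ∃ c : ℝ, 0 < c ∧ ∀ᶠ n in atTop, c ≤ hsDist (φ n g).1 1

theorem killed_lin {G ι : Type} [Group G] [Finite ι] (s : ι → G)
    (hs : Subgroup.closure (Set.range s) = ⊤) (m : ℕ) (ψ : G →* Matrix.unitaryGroup (Fin m) ℂ)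
    (g : G) (hg : Killed g) : ψ g = 1 := by
  by_contra hne
  obtain ⟨Q, _, _, q, hq⟩ := malcev s hs ((Matrix.unitaryGroup (Fin m) ℂ).subtype.comp ψ) g
    (fun h1 => hne (Subtype.ext h1))
  exact hq (hg Q q)

theorem flexHS_amalg {G₁ G₂ H ι₁ ι₂ : Type} [Group G₁] [Group G₂] [Group H] [Finite H]
    [Finite ι₁] [Finite ι₂] (f₁ : H →* G₁) (f₂ : H →* G₂) (hres : SameRes f₁ f₂)
    (s₁ : ι₁ → G₁) (hs₁ : Subgroup.closure (Set.range s₁) = ⊤)
    (s₂ : ι₂ → G₂) (hs₂ : Subgroup.closure (Set.range s₂) = ⊤)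
    (h₁ : HilbertSchmidtStable G₁ ∨ FlexHSWrt s₁) (h₂ : HilbertSchmidtStable G₂ ∨ FlexHSWrt s₂)
    {ι : Type} [Finite ι] (s : ι → AmalgProd f₁ f₂) (hs : Subgroup.closure (Set.range s) = ⊤) :
    FlexHSWrt s := by
  have := Fintype.ofFinite H
  have g₁ : Flex opsH G₁ := by
    rcases h₁ with h | h
    · exact flex_of_stable ((hsStable_iff G₁).mp h)
    · exact flex_of_wrt hsCls_metric s₁ (lift_surj s₁ hs₁) (flexWrt_of_hs s₁ h)
  have g₂ : Flex opsH G₂ := by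
    rcases h₂ with h | h
    · exact flex_of_stable ((hsStable_iff G₂).mp h)
    · exact flex_of_wrt hsCls_metric s₂ (lift_surj s₂ hs₂) (flexWrt_of_hs s₂ h)
  have g := flex_amalg (O := opsH) (f₁ := f₁) (f₂ := f₂) hsCls_metric haddH
    (absorbH f₁ f₂ hres (killed_lin s₁ hs₁))
    (absorbH f₂ f₁ (fun h => (hres h).symm) (killed_lin s₂ hs₂)) g₁ g₂
  exact hs_of_flexWrt s (wrt_of_flex hsCls_metric s (lift_surj s hs) g)

theorem not_killed_of_hyperlinear {G ι : Type} [Group G] [Finite ι] (s : ι → G)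
    (hs : Subgroup.closure (Set.range s) = ⊤)
    (h : HilbertSchmidtStable G ∨ FlexHSWrt s) (hyp : Hyperlinear G) (g : G) (hg : g ≠ 1) :
    ¬ Killed g := by
  have hfl : Flex opsH G := by
    rcases h with h | h
    · exact flex_of_stable ((hsStable_iff G).mp h)
    · exact flex_of_wrt hsCls_metric s (lift_surj s hs) (flexWrt_of_hs s h)
  obtain ⟨m, ψ, hψ⟩ := exists_hom_ne hfl hyp g hg
  exact fun hk => hψ (killed_lin s hs m ψ g hk)

end Pool.Agent.H698R4
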