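import Pool.Agent.H698R4.FxAbs
import Pool.Agent.H698R3.AmPermFinal

set_option autoImplicit false

/-! The operations on the class of symmetric groups. -/

namespace Pool.Agent.H698R4

open Filter Topology Equiv Pool.Agent.H698R3 Pool.Agent.H698R3.Amalg

/-- extension of a permutation by the identity -/
noncomputable def exP {k l : ℕ} (h : k ≤ l) : Perm (Fin k) →* Perm (Fin l) :=
  Equiv.Perm.viaEmbeddingHom (Fin.castLEEmb h)

theorem exP_cast {k l : ℕ} (h : k ≤ l) (σ : Perm (Fin k)) (x : Fin k) :
    exP h σ (Fin.castLE h x) = Fin.castLE h (σ x) :=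
  Equiv.Perm.viaEmbedding_apply σ (Fin.castLEEmb h) x

theorem exP_of_le {k l : ℕ} (h : k ≤ l) (σ : Perm (Fin k)) (x : Fin l) (hx : k ≤ x.1) :
    exP h σ x = x := by
  refine Equiv.Perm.viaEmbedding_apply_of_notMem σ (Fin.castLEEmb h) x ?_
  rintro ⟨y, rfl⟩
  exact absurd y.2 (not_lt.mpr hx)

theorem fin_cases {k l : ℕ} (h : k ≤ l) (x : Fin l) :
    (∃ y : Fin k, Fin.castLE h y = x) ∨ k ≤ x.1 := by
  by_cases hx : x.1 < k
  · left; exact ⟨⟨x.1, hx⟩, rfl⟩
  · right; exact not_lt.mp hx

theorem exP_ne {k l : ℕ} (h : k ≤ l) (σ τ : Perm (Fin k)) :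
    (Finset.univ.filter (fun x => exP h σ x ≠ exP h τ x)).card =
      (Finset.univ.filter (fun x => σ x ≠ τ x)).card := by
  classical
  have h1 : Finset.univ.filter (fun x => exP h σ x ≠ exP h τ x) =
      (Finset.univ.filter (fun x => σ x ≠ τ x)).map (Fin.castLEEmb h) := by
    ext x
    rw [Finset.mem_filter, Finset.mem_map]
    constructor
    · rintro ⟨-, hx⟩
      rcases fin_cases h x with ⟨y, rfl⟩ | hx'
      · refine ⟨y, ?_, rfl⟩
        rw [Finset.mem_filter]
        refine ⟨Finset.mem_univ _, fun hy => hx ?_⟩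
        rw [exP_cast, exP_cast, hy]
      · exact absurd (by rw [exP_of_le h σ x hx', exP_of_le h τ x hx']) hx
    · rintro ⟨y, hy, rfl⟩
      refine ⟨Finset.mem_univ _, fun hx => (Finset.mem_filter.mp hy).2 ?_⟩
      rw [Fin.castLEEmb_apply, exP_cast, exP_cast] at hx
      exact Fin.castLE_injective h hx
  rw [h1, Finset.card_map]

/-- block sum of permutations -/
def dsP (k l : ℕ) : Perm (Fin k) × Perm (Fin l) →* Perm (Fin (k + l)) :=
  (finSumFinEquiv (m := k) (n := l)).permCongrHom.toMonoidHom.comp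
    (Equiv.Perm.sumCongrHom (Fin k) (Fin l))

theorem dsP_castAdd (k l : ℕ) (σ : Perm (Fin k)) (τ : Perm (Fin l)) (x : Fin k) :
    dsP k l (σ, τ) (Fin.castAdd l x) = Fin.castAdd l (σ x) := by
  show finSumFinEquiv (Equiv.Perm.sumCongrHom (Fin k) (Fin l) (σ, τ)
    (finSumFinEquiv.symm (Fin.castAdd l x))) = _
  rw [finSumFinEquiv_symm_apply_castAdd]
  rfl

theorem dsP_natAdd (k l : ℕ) (σ : Perm (Fin k)) (τ : Perm (Fin l)) (x : Fin l) :
    dsP k l (σ, τ) (Fin.natAdd k x) = Fin.natAdd k (τ x) := by
  show finSumFinEquiv (Equiv.Perm.sumCongrHom (Fin k) (Fin l) (σ, τ)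
    (finSumFinEquiv.symm (Fin.natAdd k x))) = _
  rw [finSumFinEquiv_symm_apply_natAdd]
  rfl

theorem hamming_mul_card {k : ℕ} (σ τ : Perm (Fin k)) :
    Stab.hammingDist σ τ * k = ((Finset.univ.filter (fun x => σ x ≠ τ x)).card : ℝ) := by
  unfold Stab.hammingDist
  rw [Fintype.card_fin]
  rcases Nat.eq_zero_or_pos k with h0 | hk
  · subst h0; simp
  · have : (0 : ℝ) < k := by exact_mod_cast hk
    field_simp

theorem hamming_zero {k : ℕ} (h : k = 0) (σ τ : Perm (Fin k)) : Stab.hammingDist σ τ = 0 := by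
  subst h
  simp [Stab.hammingDist]

theorem hamming_nonneg {k : ℕ} (σ τ : Perm (Fin k)) : 0 ≤ Stab.hammingDist σ τ :=
  Stab.hammingDist_nonneg σ τ

theorem hamming_le_one {X : Type} [Fintype X] [DecidableEq X] (σ τ : Perm X) :
    Stab.hammingDist σ τ ≤ 1 := by
  unfold Stab.hammingDist
  refine div_le_one_of_le₀ ?_ (Nat.cast_nonneg _)
  exact_mod_cast (Finset.card_le_univ _)

/-- The operations for symmetric groups. -/
noncomputable def opsP : Ops permCls where
  zero := by
    rintro k rfl x y
    show Stab.hammingDist (X := Fin 0) x y = 0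
    simp [Stab.hammingDist]
  ex h := exP h
  ex_ex := by
    intro k l m h h' σ
    show exP h' (exP h σ) = exP (h.trans h') σ
    ext x
    rcases fin_cases h' x with ⟨y, rfl⟩ | hx
    · rw [exP_cast]
      rcases fin_cases h y with ⟨z, rfl⟩ | hy
      · rw [exP_cast]
        have := exP_cast (h.trans h') σ z
        rw [Fin.castLE_castLE, Fin.castLE_castLE, this]
      · rw [exP_of_le h σ y hy, exP_of_le (h.trans h') σ (Fin.castLE h' y) (by simpa using hy)]
    · rw [exP_of_le _ _ _ hx, exP_of_le _ _ _ (h.trans hx)]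
  ex_rfl := by
    intro k σ
    show exP (le_refl k) σ = σ
    ext x
    have := exP_cast (le_refl k) σ x
    rw [Fin.castLE_rfl] at this
    simpa using congrArg Fin.val this
  ex_d := by
    intro k l h σ τ
    show Stab.hammingDist (exP h σ) (exP h τ) ≤ Stab.hammingDist (X := Fin k) σ τ
    rcases Nat.eq_zero_or_pos k with h0 | hk
    · have h1 := hamming_mul_card (exP h σ) (exP h τ)
      have h2 := exP_ne h σ τ
      have h5 := hamming_mul_card (σ : Perm (Fin k)) τ
      rw [hamming_zero h0, zero_mul] at h5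
      rcases Nat.eq_zero_or_pos l with hl | hl
      · have h4 : Stab.hammingDist (exP h σ) (exP h τ) = 0 := hamming_zero hl _ _
        rw [h4]
        exact hamming_nonneg _ _
      · have hl' : (0 : ℝ) < l := by exact_mod_cast hl
        rw [h2, ← h5] at h1
        have h4 : Stab.hammingDist (exP h σ) (exP h τ) = 0 := by
          rcases mul_eq_zero.mp h1 with h6 | h6
          · exact h6
          · exact absurd h6 hl'.ne'
        rw [h4]
        exact hamming_nonneg _ _
    · have hk' : (0 : ℝ) < k := by exact_mod_cast hk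
      have hkl : (k : ℝ) ≤ l := by exact_mod_cast h
      have h1 := hamming_mul_card (exP h σ) (exP h τ)
      have h2 := hamming_mul_card (σ : Perm (Fin k)) τ
      rw [exP_ne, ← h2] at h1
      have h3 := hamming_nonneg (exP h σ) (exP h τ)
      have h4 : Stab.hammingDist (exP h σ) (exP h τ) * k ≤
          Stab.hammingDist (X := Fin k) σ τ * k := by
        rw [← h1]
        gcongr
      exact le_of_mul_le_mul_right h4 hk'
  ex_d' := by
    intro k l h hl σ τ
    show Stab.hammingDist (X := Fin k) σ τ ≤ 2 * Stab.hammingDist (exP h σ) (exP h τ)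
    rcases Nat.eq_zero_or_pos k with h0 | hk
    · have h4 : Stab.hammingDist (X := Fin k) σ τ = 0 := hamming_zero h0 _ _
      rw [h4]
      have := hamming_nonneg (exP h σ) (exP h τ)
      positivity
    · have hk' : (0 : ℝ) < k := by exact_mod_cast hk
      have hkl : (l : ℝ) ≤ 2 * k := by exact_mod_cast hl
      have h1 := hamming_mul_card (exP h σ) (exP h τ)
      have h2 := hamming_mul_card (σ : Perm (Fin k)) τ
      rw [exP_ne, ← h2] at h1
      have h3 := hamming_nonneg (exP h σ) (exP h τ)
      have h4 : Stab.hammingDist (X := Fin k) σ τ * k ≤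
          2 * Stab.hammingDist (exP h σ) (exP h τ) * k := by
        rw [← h1]
        nlinarith
      exact le_of_mul_le_mul_right h4 hk'
  ds k l := dsP k l
  ds_ex := by
    intro k l σ
    show dsP k l (σ, 1) = exP (Nat.le_add_right k l) σ
    ext x
    induction x using Fin.addCases with
    | left y =>
      rw [dsP_castAdd]
      have := exP_cast (Nat.le_add_right k l) σ y
      exact congrArg Fin.val this.symm
    | right y =>
      rw [dsP_natAdd, exP_of_le _ _ _ (by simp)]
      rfl
  ds_d := by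
    intro k l σ τ τ'
    show Stab.hammingDist (dsP k l (σ, τ)) (dsP k l (σ, τ')) ^ 2 * ((k : ℝ) + l) ≤ 4 * l
    have h1 := hamming_mul_card (dsP k l (σ, τ)) (dsP k l (σ, τ'))
    have h2 : (Finset.univ.filter (fun x => dsP k l (σ, τ) x ≠ dsP k l (σ, τ') x)).card ≤ l := by
      have h3 : Finset.univ.filter (fun x => dsP k l (σ, τ) x ≠ dsP k l (σ, τ') x) ⊆
          Finset.univ.image (fun y : Fin l => Fin.natAdd k y) := by
        intro x hx
        rw [Finset.mem_filter] at hx
        induction x using Fin.addCases with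
        | left y => exact absurd (by rw [dsP_castAdd, dsP_castAdd]) hx.2
        | right y => exact Finset.mem_image_of_mem _ (Finset.mem_univ _)
      refine (Finset.card_le_card h3).trans (Finset.card_image_le.trans ?_)
      simp
    have h3 := hamming_nonneg (dsP k l (σ, τ)) (dsP k l (σ, τ'))
    have h4 := hamming_le_one (dsP k l (σ, τ)) (dsP k l (σ, τ'))
    have h5 : ((Finset.univ.filter (fun x => dsP k l (σ, τ) x ≠ dsP k l (σ, τ') x)).card : ℝ) ≤ l := by
      exact_mod_cast h2
    rw [← h1] at h5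
    push_cast at h5
    have h6 : (0 : ℝ) ≤ (k : ℝ) + l := by positivity
    have h7 : (0 : ℝ) ≤ l := by positivity
    calc Stab.hammingDist (dsP k l (σ, τ)) (dsP k l (σ, τ')) ^ 2 * ((k : ℝ) + l)
        = Stab.hammingDist (dsP k l (σ, τ)) (dsP k l (σ, τ')) *
          (Stab.hammingDist (dsP k l (σ, τ)) (dsP k l (σ, τ')) * ((k : ℝ) + l)) := by ring
      _ ≤ 1 * (Stab.hammingDist (dsP k l (σ, τ)) (dsP k l (σ, τ')) * ((k : ℝ) + l)) := by
          gcongr
      _ ≤ 4 * l := by linarith

section hadd

variable {H : Type} [Group H] [Finite H]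

/-- the number of points with stabiliser `K` -/
noncomputable def cnt {X : Type} [Fintype X] (π : H →* Perm X) (K : Subgroup H) : ℕ := by
  classical exact (Finset.univ.filter (fun x => stH π x = K)).card

theorem cnt_eq {X : Type} [Fintype X] [DecidableEq (Subgroup H)] (π : H →* Perm X)
    (K : Subgroup H) : cnt π K = (Finset.univ.filter (fun x => stH π x = K)).card := by
  classical
  unfold cnt
  congr

theorem cnt_embed {X Y Z : Type} [Fintype X] [Fintype Y] [Fintype Z] (π : H →* Perm X)
    (π' : H →* Perm Y) (π'' : H →* Perm Z) (e : Y ⊕ Z ≃ X)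
    (h1 : ∀ h y, π h (e (Sum.inl y)) = e (Sum.inl (π' h y)))
    (h2 : ∀ h z, π h (e (Sum.inr z)) = e (Sum.inr (π'' h z))) (K : Subgroup H) :
    cnt π K = cnt π' K + cnt π'' K := by
  classical
  have g1 : ∀ y, stH π (e (Sum.inl y)) = stH π' y := by
    intro y
    ext h
    rw [mem_stH, mem_stH, h1, e.apply_eq_iff_eq, Sum.inl.injEq]
  have g2 : ∀ y, stH π (e (Sum.inr y)) = stH π'' y := by
    intro y
    ext h
    rw [mem_stH, mem_stH, h2, e.apply_eq_iff_eq, Sum.inr.injEq]
  rw [cnt_eq, cnt_eq, cnt_eq, Finset.card_filter, Finset.card_filter, Finset.card_filter,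
    ← Equiv.sum_comp e, Fintype.sum_sum_type]
  simp only [g1, g2]

theorem cnt_transp {X Y : Type} [Fintype X] [Fintype Y] (π : H →* Perm X)
    (e : X ≃ Y) (K : Subgroup H) : cnt (transp e π) K = cnt π K := by
  classical
  have g1 : ∀ x, stH (transp e π) (e x) = stH π x := by
    intro x
    ext h
    rw [mem_stH, mem_stH, transp_apply, e.apply_eq_iff_eq]
  rw [cnt_eq, cnt_eq, Finset.card_filter, Finset.card_filter, ← Equiv.sum_comp e]
  simp only [g1]

end hadd

section

variable {H : Type} [Group H] [Fintype H]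

theorem hvP_eq (k : ℕ) (π : H →* Perm (Fin k)) (K : Subgroup H) :
    (HP H).hv k π K = (cnt π K : ℝ) := by
  classical
  rw [cnt_eq]
  show ((Finset.univ.filter (fun x : Fin k => stH (X := Fin k) π x = K)).card : ℝ) = _
  congr

theorem haddP : HAdd opsP (HP H) := by
  intro k l π π' K
  show (HP H).hv (k + l) (opsP.sm π π') K = (HP H).hv k π K + (HP H).hv l π' K
  rw [hvP_eq (H := H) (k + l) (opsP.sm π π') K, hvP_eq k π K, hvP_eq l π' K]
  have := cnt_embed (show H →* Perm (Fin (k + l)) from opsP.sm π π')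
    (show H →* Perm (Fin k) from π) (show H →* Perm (Fin l) from π') finSumFinEquiv
    (fun h y => by
      rw [finSumFinEquiv_apply_left, finSumFinEquiv_apply_left]
      exact dsP_castAdd k l (π h) (π' h) y)
    (fun h y => by
      rw [finSumFinEquiv_apply_right, finSumFinEquiv_apply_right]
      exact dsP_natAdd k l (π h) (π' h) y) K
  exact_mod_cast this

end

end Pool.Agent.H698R4
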