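import Mathlib

set_option autoImplicit false

/-! Finite actions of amenable groups are hyperfinite (min-hash partitions). -/

namespace Pool.Agent.H698R4

open Equiv

section pick

variable {Ω : Type} [Fintype Ω] [DecidableEq Ω]

/-- the element of `A` that comes first in the order given by `π` -/
noncomputable def pk (π : Perm Ω) (A : Finset Ω) (hA : A.Nonempty) : Ω :=
  (A.exists_min_image (fun ω => Fintype.equivFin Ω (π ω)) hA).choose

theorem pk_mem (π : Perm Ω) (A : Finset Ω) (hA : A.Nonempty) : pk π A hA ∈ A :=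
  (A.exists_min_image (fun ω => Fintype.equivFin Ω (π ω)) hA).choose_spec.1

theorem pk_le (π : Perm Ω) (A : Finset Ω) (hA : A.Nonempty) (b : Ω) (hb : b ∈ A) :
    Fintype.equivFin Ω (π (pk π A hA)) ≤ Fintype.equivFin Ω (π b) :=
  (A.exists_min_image (fun ω => Fintype.equivFin Ω (π ω)) hA).choose_spec.2 b hb

theorem pk_unique (π : Perm Ω) (A : Finset Ω) (hA : A.Nonempty) (ω : Ω) (hω : ω ∈ A)
    (h : ∀ b ∈ A, Fintype.equivFin Ω (π ω) ≤ Fintype.equivFin Ω (π b)) : pk π A hA = ω := by
  have h1 := le_antisymm (pk_le π A hA ω hω) (h _ (pk_mem π A hA))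
  exact π.injective ((Fintype.equivFin Ω).injective h1)

theorem pk_card (B : Finset Ω) (hB : B.Nonempty) (ω : Ω) (hω : ω ∈ B) :
    (Finset.univ.filter (fun π : Perm Ω => pk π B hB = ω)).card * B.card =
      Fintype.card (Perm Ω) := by
  have hsame : ∀ ω' ∈ B, (Finset.univ.filter (fun π : Perm Ω => pk π B hB = ω')).card =
      (Finset.univ.filter (fun π : Perm Ω => pk π B hB = ω)).card := by
    intro ω' hω'
    refine Finset.card_bij (fun π _ => π * Equiv.swap ω ω') ?_ ?_ ?_
    · intro π hπ
      rw [Finset.mem_filter] at hπ ⊢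
      refine ⟨Finset.mem_univ _, pk_unique _ _ _ _ hω fun b hb => ?_⟩
      rw [Perm.mul_apply, Perm.mul_apply, Equiv.swap_apply_left]
      have h1 := hπ.2
      have hsb : Equiv.swap ω ω' b ∈ B := by
        by_cases h2 : b = ω
        · rw [h2, Equiv.swap_apply_left]; exact hω'
        · by_cases h3 : b = ω'
          · rw [h3, Equiv.swap_apply_right]; exact hω
          · rw [Equiv.swap_apply_of_ne_of_ne h2 h3]; exact hb
      have h4 := pk_le π B hB _ hsb
      rwa [h1] at h4
    · intro π _ π' _ h
      exact mul_right_cancel h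
    · intro π hπ
      rw [Finset.mem_filter] at hπ
      refine ⟨π * Equiv.swap ω ω', ?_, by rw [mul_assoc, Equiv.swap_mul_self, mul_one]⟩
      rw [Finset.mem_filter]
      refine ⟨Finset.mem_univ _, pk_unique _ _ _ _ hω' fun b hb => ?_⟩
      rw [Perm.mul_apply, Perm.mul_apply, Equiv.swap_apply_right]
      have h1 := hπ.2
      have hsb : Equiv.swap ω ω' b ∈ B := by
        by_cases h2 : b = ω
        · rw [h2, Equiv.swap_apply_left]; exact hω'
        · by_cases h3 : b = ω'
          · rw [h3, Equiv.swap_apply_right]; exact hω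
          · rw [Equiv.swap_apply_of_ne_of_ne h2 h3]; exact hb
      have h4 := pk_le π B hB _ hsb
      rwa [h1] at h4
  have h1 := Finset.card_eq_sum_card_fiberwise (s := (Finset.univ : Finset (Perm Ω))) (t := B)
    (f := fun π => pk π B hB) (fun π _ => pk_mem π B hB)
  rw [Finset.sum_congr rfl hsame, Finset.sum_const, smul_eq_mul, mul_comm] at h1
  rw [← h1, Finset.card_univ]

theorem pk_bad (A A' : Finset Ω) (hA : A.Nonempty) (hA' : A'.Nonempty) :
    (Finset.univ.filter (fun π : Perm Ω => pk π A hA ≠ pk π A' hA')).card * (A ∪ A').card ≤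
      ((A \ A').card + (A' \ A).card) * Fintype.card (Perm Ω) := by
  have hB : (A ∪ A').Nonempty := hA.mono Finset.subset_union_left
  have hsub : (Finset.univ.filter (fun π : Perm Ω => pk π A hA ≠ pk π A' hA')) ⊆
      ((A \ A') ∪ (A' \ A)).biUnion
        (fun ω => Finset.univ.filter (fun π : Perm Ω => pk π (A ∪ A') hB = ω)) := by
    intro π hπ
    rw [Finset.mem_biUnion]
    refine ⟨pk π (A ∪ A') hB, ?_, by simp⟩
    by_contra hcon
    rw [Finset.mem_union, Finset.mem_sdiff, Finset.mem_sdiff, not_or] at hcon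
    have h1 := pk_mem π (A ∪ A') hB
    rw [Finset.mem_union] at h1
    have hmA : pk π (A ∪ A') hB ∈ A := by
      by_contra h2
      rcases h1 with h1 | h1
      · exact h2 h1
      · exact hcon.2 ⟨h1, h2⟩
    have hmA' : pk π (A ∪ A') hB ∈ A' := by
      by_contra h2
      exact hcon.1 ⟨hmA, h2⟩
    have e1 := pk_unique π A hA _ hmA (fun b hb => pk_le π _ hB b (Finset.mem_union_left _ hb))
    have e2 := pk_unique π A' hA' _ hmA' (fun b hb => pk_le π _ hB b (Finset.mem_union_right _ hb))
    exact (Finset.mem_filter.mp hπ).2 (e1.trans e2.symm)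
  have h1 := (Finset.card_le_card hsub).trans Finset.card_biUnion_le
  calc _ ≤ (∑ ω ∈ (A \ A') ∪ (A' \ A),
        (Finset.univ.filter (fun π : Perm Ω => pk π (A ∪ A') hB = ω)).card) * (A ∪ A').card :=
        Nat.mul_le_mul_right _ h1
    _ = ∑ ω ∈ (A \ A') ∪ (A' \ A),
        (Finset.univ.filter (fun π : Perm Ω => pk π (A ∪ A') hB = ω)).card * (A ∪ A').card :=
        Finset.sum_mul _ _ _
    _ = ∑ ω ∈ (A \ A') ∪ (A' \ A), Fintype.card (Perm Ω) := by
        refine Finset.sum_congr rfl fun ω hω => pk_card _ hB ω ?_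
        rw [Finset.mem_union, Finset.mem_sdiff, Finset.mem_sdiff] at hω
        rcases hω with hω | hω
        · exact Finset.mem_union_left _ hω.1
        · exact Finset.mem_union_right _ hω.1
    _ = ((A \ A') ∪ (A' \ A)).card * Fintype.card (Perm Ω) := by
        rw [Finset.sum_const, smul_eq_mul]
    _ ≤ _ := Nat.mul_le_mul_right _ (Finset.card_union_le _ _)

end pick

/-- Følner's condition: for every finite `S ⊆ G` and `ε > 0` there is a nonempty finite `F ⊆ G`
with `|{g ∈ F : s g ∉ F}| ≤ ε |F|` for all `s ∈ S`. -/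
def Folner (G : Type) [Group G] : Prop :=
  ∀ (S : Finset G) (ε : ℝ), 0 < ε → ∃ F : Finset G, F.Nonempty ∧
    ∀ s ∈ S, (Set.ncard {g : G | g ∈ F ∧ s * g ∉ F} : ℝ) ≤ ε * F.card

open Classical in
theorem hyperfinite {G : Type} [Group G] (hG : Folner G) (S : Finset G) (η : ℝ) (hη : 0 < η) :
    ∃ M : ℕ, ∀ (k : ℕ) (ψ : G →* Perm (Fin k)), ∃ p : Fin k → Fin k,
      (∀ x, (Finset.univ.filter (fun y => p y = x)).card ≤ M) ∧
      ∀ s ∈ S, ((Finset.univ.filter (fun y => p (ψ s y) ≠ p y)).card : ℝ) ≤ η * k := by
  obtain ⟨F, hF, hFS⟩ := hG S (η / (2 * (S.card + 1))) (by positivity)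
  refine ⟨F.card, fun k ψ => ?_⟩
  -- the weights
  let w : Fin k → Fin k → ℕ := fun y x => (F.filter (fun g => ψ g x = y)).card
  have hw : ∀ y x, w y x = (F.filter (fun g => ψ g x = y)).card := fun _ _ => rfl
  let Ω := Fin k × Fin F.card
  let A : Fin k → Finset Ω := fun y => Finset.univ.filter (fun ω => ω.2.1 < w y ω.1)
  have hAmem : ∀ y (ω : Ω), ω ∈ A y ↔ ω.2.1 < w y ω.1 := by
    intro y ω
    show ω ∈ Finset.univ.filter (fun ω => ω.2.1 < w y ω.1) ↔ _
    rw [Finset.mem_filter]
    simp
  have hwle : ∀ y x, w y x ≤ F.card := fun y x => Finset.card_filter_le _ _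
  -- fibre counts
  have hcountlt : ∀ a : ℕ, a ≤ F.card →
      (Finset.univ.filter (fun u : Fin F.card => u.1 < a)).card = a := by
    intro a ha
    have := Fin.card_filter_val_lt (n := F.card) (m := a)
    rw [this]
    exact min_eq_right ha
  have hcardA : ∀ y, (A y).card = F.card := by
    intro y
    have h1 : (A y).card = ∑ x : Fin k, w y x := by
      show (Finset.univ.filter (fun ω : Ω => ω.2.1 < w y ω.1)).card = _
      rw [Finset.card_filter, Fintype.sum_prod_type]
      refine Finset.sum_congr rfl fun x _ => ?_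
      rw [← Finset.card_filter]
      exact hcountlt _ (hwle y x)
    rw [h1]
    simp only [hw, Finset.card_filter]
    rw [Finset.sum_comm]
    have h2 : ∀ g ∈ F, ∑ x : Fin k, (if ψ g x = y then 1 else 0) = 1 := by
      intro g _
      rw [Finset.sum_eq_single ((ψ g).symm y)]
      · simp
      · intro b _ hb
        rw [if_neg]
        intro h
        exact hb (by rw [← h, Equiv.symm_apply_apply])
      · intro h; exact absurd (Finset.mem_univ _) h
    rw [Finset.sum_congr rfl h2]
    simp
  have hAne : ∀ y, (A y).Nonempty := by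
    intro y
    rw [← Finset.card_pos, hcardA]
    exact hF.card_pos
  -- boundary
  let bd : G → ℕ := fun s => (F.filter (fun g => s * g ∉ F)).card
  have hbd : ∀ s ∈ S, (bd s : ℝ) ≤ η / (2 * (S.card + 1)) * F.card := by
    intro s hs
    have h1 := hFS s hs
    have h2 : Set.ncard {g : G | g ∈ F ∧ s * g ∉ F} = bd s := by
      have : {g : G | g ∈ F ∧ s * g ∉ F} = ((F.filter (fun g => s * g ∉ F) : Finset G) : Set G) := by
        ext g
        simp
      rw [this, Set.ncard_coe_finset]
    rwa [h2] at h1
  have hdiff : ∀ s y, (A y \ A (ψ s y)).card ≤ bd s := by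
    intro s y
    have h1 : (A y \ A (ψ s y)).card = ∑ x : Fin k, (w y x - w (ψ s y) x) := by
      have h2 : A y \ A (ψ s y) =
          Finset.univ.filter (fun ω : Ω => ω.2.1 < w y ω.1 ∧ ¬ ω.2.1 < w (ψ s y) ω.1) := by
        ext ω
        rw [Finset.mem_sdiff, hAmem, hAmem, Finset.mem_filter]
        simp
      rw [h2, Finset.card_filter, Fintype.sum_prod_type]
      refine Finset.sum_congr rfl fun x _ => ?_
      rw [← Finset.card_filter]
      have h3 : (Finset.univ.filter
          (fun u : Fin F.card => u.1 < w y x ∧ ¬ u.1 < w (ψ s y) x)) =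
          (Finset.univ.filter (fun u : Fin F.card => u.1 < w y x)) \
          (Finset.univ.filter (fun u : Fin F.card => u.1 < w (ψ s y) x)) := by
        ext u
        simp
      rw [h3]
      rcases le_total (w (ψ s y) x) (w y x) with h4 | h4
      · rw [Finset.card_sdiff_of_subset, hcountlt _ (hwle _ _), hcountlt _ (hwle _ _)]
        intro u hu
        rw [Finset.mem_filter] at hu ⊢
        exact ⟨hu.1, lt_of_lt_of_le hu.2 h4⟩
      · rw [Finset.sdiff_eq_empty_iff_subset.mpr, Finset.card_empty, Nat.sub_eq_zero_of_le h4]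
        intro u hu
        rw [Finset.mem_filter] at hu ⊢
        exact ⟨hu.1, lt_of_lt_of_le hu.2 h4⟩
    rw [h1]
    have h5 : ∀ x, w y x - w (ψ s y) x ≤
        (F.filter (fun g => s * g ∉ F ∧ ψ g x = y)).card := by
      intro x
      have h6 : (F.filter (fun g => s * g ∈ F ∧ ψ g x = y)).card ≤ w (ψ s y) x := by
        refine Finset.card_le_card_of_injOn (fun g => s * g) ?_ (fun a _ b _ h => mul_left_cancel h)
        intro g hg
        have hg' := Finset.mem_filter.mp hg
        refine Finset.mem_filter.mpr ⟨hg'.2.1, ?_⟩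
        show ψ (s * g) x = ψ s y
        rw [map_mul, Perm.mul_apply, hg'.2.2]
      have h7 : w y x ≤ (F.filter (fun g => s * g ∈ F ∧ ψ g x = y)).card +
          (F.filter (fun g => s * g ∉ F ∧ ψ g x = y)).card := by
        rw [hw, ← Finset.card_union_of_disjoint]
        · apply Finset.card_le_card
          intro g hg
          have hg' := Finset.mem_filter.mp hg
          rw [Finset.mem_union, Finset.mem_filter, Finset.mem_filter]
          by_cases h8 : s * g ∈ F
          · exact Or.inl ⟨hg'.1, h8, hg'.2⟩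
          · exact Or.inr ⟨hg'.1, h8, hg'.2⟩
        · rw [Finset.disjoint_left]
          intro g hg hg2
          exact (Finset.mem_filter.mp hg2).2.1 (Finset.mem_filter.mp hg).2.1
      omega
    refine (Finset.sum_le_sum fun x _ => h5 x).trans ?_
    simp only [Finset.card_filter]
    rw [Finset.sum_comm]
    show _ ≤ (F.filter (fun g => s * g ∉ F)).card
    rw [Finset.card_filter]
    refine Finset.sum_le_sum fun g _ => ?_
    by_cases h8 : s * g ∉ F
    · rw [if_pos h8]
      calc ∑ x : Fin k, (if s * g ∉ F ∧ ψ g x = y then 1 else 0)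
          ≤ ∑ x : Fin k, (if ψ g x = y then 1 else 0) :=
            Finset.sum_le_sum fun x _ => by
              by_cases h9 : ψ g x = y
              · simp [h9, h8]
              · simp [h9]
        _ = 1 := by
            rw [Finset.sum_eq_single ((ψ g).symm y)]
            · simp
            · intro b _ hb
              rw [if_neg]
              intro h
              exact hb (by rw [← h, Equiv.symm_apply_apply])
            · intro h; exact absurd (Finset.mem_univ _) h
        _ ≤ 1 := le_refl _
    · rw [if_neg h8]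
      simp [h8]
  have hdiff' : ∀ s y, (A (ψ s y) \ A y).card ≤ bd s := by
    intro s y
    have h1 := Finset.card_sdiff_add_card_inter (A y) (A (ψ s y))
    have h2 := Finset.card_sdiff_add_card_inter (A (ψ s y)) (A y)
    rw [hcardA] at h1 h2
    rw [Finset.inter_comm] at h2
    have h3 := hdiff s y
    omega
  -- bad permutations
  have hbad : ∀ s y, (Finset.univ.filter (fun π : Perm Ω =>
      pk π (A (ψ s y)) (hAne _) ≠ pk π (A y) (hAne y))).card * F.card ≤
      (2 * bd s) * Fintype.card (Perm Ω) := by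
    intro s y
    have h1 := pk_bad (A (ψ s y)) (A y) (hAne _) (hAne y)
    have h2 : F.card ≤ (A (ψ s y) ∪ A y).card :=
      (hcardA y).symm.le.trans (Finset.card_le_card Finset.subset_union_right)
    calc _ ≤ (Finset.univ.filter (fun π : Perm Ω =>
          pk π (A (ψ s y)) (hAne _) ≠ pk π (A y) (hAne y))).card * (A (ψ s y) ∪ A y).card :=
          Nat.mul_le_mul_left _ h2
      _ ≤ _ := h1
      _ ≤ _ := Nat.mul_le_mul_right _ (by
          have := hdiff s y
          have := hdiff' s y
          omega)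
  -- averaging
  have havg : ∃ π : Perm Ω, ∑ s ∈ S, ((Finset.univ.filter (fun y : Fin k =>
      pk π (A (ψ s y)) (hAne _) ≠ pk π (A y) (hAne y))).card : ℝ) ≤ η * k := by
    by_contra hcon
    push Not at hcon
    have h1 : (Fintype.card (Perm Ω) : ℝ) * (η * k) < ∑ π : Perm Ω, ∑ s ∈ S,
        ((Finset.univ.filter (fun y : Fin k =>
          pk π (A (ψ s y)) (hAne _) ≠ pk π (A y) (hAne y))).card : ℝ) := by
      have h2 : ∑ π : Perm Ω, (η * k) < ∑ π : Perm Ω, ∑ s ∈ S,
          ((Finset.univ.filter (fun y : Fin k =>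
            pk π (A (ψ s y)) (hAne _) ≠ pk π (A y) (hAne y))).card : ℝ) :=
        Finset.sum_lt_sum_of_nonempty Finset.univ_nonempty (fun π _ => hcon π)
      rw [Finset.sum_const, Finset.card_univ, nsmul_eq_mul] at h2
      exact h2
    rw [Finset.sum_comm] at h1
    have h3 : ∀ s ∈ S, ∑ π : Perm Ω, ((Finset.univ.filter (fun y : Fin k =>
        pk π (A (ψ s y)) (hAne _) ≠ pk π (A y) (hAne y))).card : ℝ) ≤
        (Fintype.card (Perm Ω) : ℝ) * (η / (S.card + 1) * k) := by
      intro s hs
      have h4 : ∑ π : Perm Ω, ((Finset.univ.filter (fun y : Fin k =>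
          pk π (A (ψ s y)) (hAne _) ≠ pk π (A y) (hAne y))).card : ℝ) =
          ∑ y : Fin k, ((Finset.univ.filter (fun π : Perm Ω =>
            pk π (A (ψ s y)) (hAne _) ≠ pk π (A y) (hAne y))).card : ℝ) := by
        simp only [Finset.card_filter, Nat.cast_sum]
        rw [Finset.sum_comm]
      rw [h4]
      have hFpos : (0 : ℝ) < F.card := by exact_mod_cast hF.card_pos
      have h5 : ∀ y : Fin k, ((Finset.univ.filter (fun π : Perm Ω =>
          pk π (A (ψ s y)) (hAne _) ≠ pk π (A y) (hAne y))).card : ℝ) ≤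
          (Fintype.card (Perm Ω) : ℝ) * (η / (S.card + 1)) := by
        intro y
        have h6 : ((Finset.univ.filter (fun π : Perm Ω =>
            pk π (A (ψ s y)) (hAne _) ≠ pk π (A y) (hAne y))).card : ℝ) * F.card ≤
            (2 * bd s) * Fintype.card (Perm Ω) := by exact_mod_cast hbad s y
        have h7 := hbd s hs
        have h8 : (2 * (bd s : ℝ)) * Fintype.card (Perm Ω) ≤
            (Fintype.card (Perm Ω) : ℝ) * (η / (S.card + 1)) * F.card := by
          have h9 : 2 * (bd s : ℝ) ≤ η / (S.card + 1) * F.card := by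
            calc 2 * (bd s : ℝ) ≤ 2 * (η / (2 * (S.card + 1)) * F.card) := by gcongr
              _ = η / (S.card + 1) * F.card := by field_simp
          calc (2 * (bd s : ℝ)) * Fintype.card (Perm Ω) ≤
                (η / (S.card + 1) * F.card) * Fintype.card (Perm Ω) := by gcongr
            _ = _ := by ring
        exact le_of_mul_le_mul_right (h6.trans h8) hFpos
      refine (Finset.sum_le_sum fun y _ => h5 y).trans ?_
      rw [Finset.sum_const, Finset.card_univ, Fintype.card_fin, nsmul_eq_mul]
      exact le_of_eq (by ring)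
    have h10 := Finset.sum_le_sum h3
    rw [Finset.sum_const, nsmul_eq_mul] at h10
    have h11 : (S.card : ℝ) * ((Fintype.card (Perm Ω) : ℝ) * (η / (S.card + 1) * k)) ≤
        (Fintype.card (Perm Ω) : ℝ) * (η * k) := by
      have h12 : (S.card : ℝ) * (η / (S.card + 1)) ≤ η := by
        rw [mul_div_assoc', div_le_iff₀ (by positivity)]
        nlinarith [Nat.cast_nonneg (α := ℝ) S.card]
      calc (S.card : ℝ) * ((Fintype.card (Perm Ω) : ℝ) * (η / (S.card + 1) * k))
          = ((S.card : ℝ) * (η / (S.card + 1))) * ((Fintype.card (Perm Ω) : ℝ) * k) := by ring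
        _ ≤ η * ((Fintype.card (Perm Ω) : ℝ) * k) := by gcongr
        _ = _ := by ring
    linarith
  obtain ⟨π, hπ⟩ := havg
  refine ⟨fun y => (pk π (A y) (hAne y)).1, fun x => ?_, fun s hs => ?_⟩
  · have h1 : (Finset.univ.filter (fun y => (pk π (A y) (hAne y)).1 = x)) ⊆
        F.image (fun g => ψ g x) := by
      intro y hy
      have h2 := (Finset.mem_filter.mp hy).2
      have h3 := (hAmem y _).mp (pk_mem π (A y) (hAne y))
      have h4 : 0 < w y x := by
        rw [← h2]
        exact lt_of_le_of_lt (Nat.zero_le _) h3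
      rw [hw, Finset.card_pos] at h4
      obtain ⟨g, hg⟩ := h4
      have hg' := Finset.mem_filter.mp hg
      exact Finset.mem_image.mpr ⟨g, hg'.1, hg'.2⟩
    exact (Finset.card_le_card h1).trans Finset.card_image_le
  · have h1 : ((Finset.univ.filter (fun y : Fin k =>
        pk π (A (ψ s y)) (hAne _) ≠ pk π (A y) (hAne y))).card : ℝ) ≤ η * k := by
      refine le_trans ?_ hπ
      exact Finset.single_le_sum (f := fun s => ((Finset.univ.filter (fun y : Fin k =>
        pk π (A (ψ s y)) (hAne _) ≠ pk π (A y) (hAne y))).card : ℝ))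
        (fun s _ => Nat.cast_nonneg _) hs
    refine le_trans ?_ h1
    refine Nat.cast_le.mpr (Finset.card_le_card ?_)
    intro y hy
    rw [Finset.mem_filter] at hy ⊢
    exact ⟨Finset.mem_univ _, fun h => hy.2 (congrArg Prod.fst h)⟩

end Pool.Agent.H698R4
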