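import Pool.Agent.H698R4.FxAbs

set_option autoImplicit false

/-! Strict stability of amalgams over finite groups: the abstract argument. -/

namespace Pool.Agent.H698R4

open Filter Topology Pool.Agent.H698R3.Amalg

variable {𝒞 : Cls} (O : Ops 𝒞)

/-- types are invariant under conjugation -/
def HConj {H : Type} [Group H] (D : HData 𝒞 H) : Prop :=
  ∀ (k : ℕ) (u : 𝒞.C k) (π : H →* 𝒞.C k),
    D.hv k ((MulAut.conj u).toMonoidHom.comp π) = D.hv k π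

/-- Proportional deletion: every homomorphism `G → C k`, `k` large, is close to a homomorphism
`G → C k'` with `k' ≈ (1 - κ) k` whose type on `H` is almost exactly `1 - κ` times the type of
the given one. -/
def PD {H G : Type} [Group H] [Group G] (f : H →* G) (D : HData 𝒞 H) : Prop :=
  ∀ (F : Finset G) (ε : ℝ), 0 < ε → ∃ κ₀ : ℝ, 0 < κ₀ ∧ ∀ κ : ℝ, 0 < κ → κ ≤ κ₀ →
    ∀ η : ℝ, 0 < η → ∃ k₀ : ℕ, ∀ k ≥ k₀, ∀ ψ : G →* 𝒞.C k,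
      ∃ (k' : ℕ) (h : k' ≤ k) (θ : G →* 𝒞.C k') (u : 𝒞.C k),
        (k' : ℝ) ≤ (1 - κ) * k ∧ |(k' : ℝ) - (1 - κ) * k| ≤ η * k ∧
        (∀ e, |D.hv k' (θ.comp f) e - (1 - κ) * D.hv k (ψ.comp f) e| ≤ η * k) ∧
        ∀ g ∈ F, 𝒞.d k (u * O.ex h (θ g) * u⁻¹) (ψ g) ≤ ε

section

variable {O} {H : Type} [Group H] {D : HData 𝒞 H}

theorem hv_triv (hD : HAdd O D) (m : ℕ) (e : D.E) :
    D.hv m 1 e = m * D.hv 1 1 e := by
  have h0 : D.hv 0 1 e = 0 := by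
    have h1 := hD 0 0 1 1 e
    have h2 : O.sm (1 : H →* 𝒞.C 0) (1 : H →* 𝒞.C 0) = 1 := by
      ext1 h
      exact map_one (O.ds 0 0)
    rw [h2] at h1
    have h3 : D.hv (0 + 0) (1 : H →* 𝒞.C (0 + 0)) e = D.hv 0 1 e := rfl
    rw [h3] at h1
    linarith
  induction m with
  | zero => rw [h0]; simp
  | succ m ih =>
    have h1 := hD m 1 1 1 e
    have h2 : O.sm (1 : H →* 𝒞.C m) (1 : H →* 𝒞.C 1) = 1 := by
      ext1 h
      exact map_one (O.ds m 1)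
    rw [h2, ih] at h1
    rw [h1]
    push_cast
    ring

theorem hv_ex (hD : HAdd O D) {k' k : ℕ} (h : k' ≤ k) (π : H →* 𝒞.C k') (e : D.E) :
    D.hv k ((O.ex h).comp π) e = D.hv k' π e + ((k : ℝ) - k') * D.hv 1 1 e := by
  obtain ⟨r, rfl⟩ := Nat.exists_eq_add_of_le h
  have h1 := hD k' r π 1 e
  have h2 : O.sm π (1 : H →* 𝒞.C r) = (O.ex h).comp π := by
    ext1 x
    exact O.ds_ex k' r (π x)
  rw [h2, hv_triv hD] at h1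
  rw [h1]
  push_cast
  ring

end

section

variable {O} {H G₁ G₂ : Type} [Group H] [Fintype H] [Group G₁] [Group G₂] {f₁ : H →* G₁}
  {f₂ : H →* G₂} {D : HData 𝒞 H}

theorem strict_matching (hm : 𝒞.IsMetric) (hD : HAdd O D) (hC : HConj D)
    (h12 : Absorb f₁ f₂ D) (h21 : Absorb f₂ f₁ D) (P₁ : PD O f₁ D) (P₂ : PD O f₂ D)
    (F₁ : Finset G₁) (F₂ : Finset G₂) (ε : ℝ) (hε : 0 < ε) :
    ∃ δ : ℝ, 0 < δ ∧ ∀ k (ψ₁ : G₁ →* 𝒞.C k) (ψ₂ : G₂ →* 𝒞.C k),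
      (∀ h, 𝒞.d k (ψ₁ (f₁ h)) (ψ₂ (f₂ h)) ≤ δ) →
      ∃ (θ₁ : G₁ →* 𝒞.C k) (θ₂ : G₂ →* 𝒞.C k), (∀ h, θ₁ (f₁ h) = θ₂ (f₂ h)) ∧
        (∀ g ∈ F₁, 𝒞.d k (θ₁ g) (ψ₁ g) ≤ ε) ∧ (∀ g ∈ F₂, 𝒞.d k (θ₂ g) (ψ₂ g) ≤ ε) := by
  classical
  obtain ⟨C, hCpos, hcost⟩ := linear_cost (Rp f₁ f₂ D) Rp_zero (Rp_add hD) (Rp_neg hD h12 h21)
    D.c D.hc Rp_disc
  obtain ⟨δm, hδm, hmt⟩ := D.mtch (ε / 4) (by linarith)
  -- constants
  set ε' : ℝ := min (ε / 8) (δm / 8) with hε'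
  have hε'0 : 0 < ε' := lt_min (by linarith) (by linarith)
  have hε'1 : ε' ≤ ε / 8 := min_le_left _ _
  have hε'2 : ε' ≤ δm / 8 := min_le_right _ _
  set lam : ℝ := min (ε / 16) (δm / 16) with hlam
  have hlam0 : 0 < lam := lt_min (by linarith) (by linarith)
  have hlam1 : lam ≤ ε / 16 := min_le_left _ _
  have hlam2 : lam ≤ δm / 16 := min_le_right _ _
  obtain ⟨κ₁, hκ₁, hP₁⟩ := P₁ (F₁ ∪ Finset.univ.image f₁) ε' hε'0
  obtain ⟨κ₂, hκ₂, hP₂⟩ := P₂ (F₂ ∪ Finset.univ.image f₂) ε' hε'0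
  set κ : ℝ := min (min κ₁ κ₂) (min (1 / 4) (lam ^ 2 / 2)) with hκ
  have hκ0 : 0 < κ := lt_min (lt_min hκ₁ hκ₂) (lt_min (by norm_num) (by positivity))
  have hκa : κ ≤ κ₁ := (min_le_left _ _).trans (min_le_left _ _)
  have hκb : κ ≤ κ₂ := (min_le_left _ _).trans (min_le_right _ _)
  have hκc : κ ≤ 1 / 4 := (min_le_right _ _).trans (min_le_left _ _)
  have hκd : κ ≤ lam ^ 2 / 2 := (min_le_right _ _).trans (min_le_right _ _)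
  set T : ℝ := ∑ e, |D.hv 1 1 e| with hT
  have hT0 : 0 ≤ T := Finset.sum_nonneg fun e _ => abs_nonneg _
  have hTe : ∀ e, |D.hv 1 1 e| ≤ T := fun e =>
    Finset.single_le_sum (f := fun e => |D.hv 1 1 e|) (fun e _ => abs_nonneg _) (Finset.mem_univ e)
  set η : ℝ := min (1 / 4) (κ / (C * (3 + 2 * T))) with hη
  have hη0 : 0 < η := lt_min (by norm_num) (by positivity)
  have hη1 : η ≤ 1 / 4 := min_le_left _ _
  have hη2 : η ≤ κ / (C * (3 + 2 * T)) := min_le_right _ _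
  have hη3 : C * ((3 + 2 * T) * η) ≤ κ := by
    rw [le_div_iff₀ (by positivity)] at hη2
    linarith
  obtain ⟨k₁, hk₁⟩ := hP₁ κ hκ0 hκa η hη0
  obtain ⟨k₂, hk₂⟩ := hP₂ κ hκ0 hκb η hη0
  obtain ⟨δc, hδc, hcl⟩ := D.close η hη0
  obtain ⟨δs, hδs, hcs⟩ := D.close (D.c / (2 * ((k₁ : ℝ) + k₂ + 1))) (by
    have := D.hc
    positivity)
  refine ⟨min (min δc δs) (δm / 4), lt_min (lt_min hδc hδs) (by linarith), ?_⟩
  intro k ψ₁ ψ₂ hclose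
  have hcl1 : ∀ h, 𝒞.d k (ψ₁ (f₁ h)) (ψ₂ (f₂ h)) ≤ δc := fun h =>
    (hclose h).trans ((min_le_left _ _).trans (min_le_left _ _))
  have hcl2 : ∀ h, 𝒞.d k (ψ₁ (f₁ h)) (ψ₂ (f₂ h)) ≤ δs := fun h =>
    (hclose h).trans ((min_le_left _ _).trans (min_le_right _ _))
  have hcl3 : ∀ h, 𝒞.d k (ψ₁ (f₁ h)) (ψ₂ (f₂ h)) ≤ δm / 4 := fun h =>
    (hclose h).trans (min_le_right _ _)
  by_cases hk : k < k₁ + k₂ + 1
  · -- small `k`
    have heq := D.disc k (ψ₁.comp f₁) (ψ₂.comp f₂) (fun e => by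
      refine (hcs k _ _ hcl2 e).trans_lt ?_
      have h1 : (k : ℝ) < (k₁ : ℝ) + k₂ + 1 := by exact_mod_cast hk
      have h2 : (0 : ℝ) < (k₁ : ℝ) + k₂ + 1 := by positivity
      have h3 := D.hc
      calc D.c / (2 * ((k₁ : ℝ) + k₂ + 1)) * k ≤
            D.c / (2 * ((k₁ : ℝ) + k₂ + 1)) * ((k₁ : ℝ) + k₂ + 1) := by gcongr
        _ = D.c / 2 := by field_simp
        _ < D.c := by linarith)
    obtain ⟨u, hu1, hu2⟩ := hmt k (ψ₁.comp f₁) (ψ₂.comp f₂) heq (fun h => by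
      have := hcl3 h
      show 𝒞.d k (ψ₁ (f₁ h)) (ψ₂ (f₂ h)) ≤ δm
      linarith)
    refine ⟨ψ₁, (MulAut.conj u).toMonoidHom.comp ψ₂, fun h => (hu2 h).symm, fun g _ => ?_,
      fun g _ => ?_⟩
    · rw [hm.self]; exact hε.le
    · have h1 := hm.conj k u (ψ₂ g)
      show 𝒞.d k (u * ψ₂ g * u⁻¹) (ψ₂ g) ≤ ε
      linarith
  · -- large `k`
    push Not at hk
    obtain ⟨m₁, hm₁, θ₁, u₁, a1, a2, a3, a4⟩ := hk₁ k (by omega) ψ₁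
    obtain ⟨m₂, hm₂, θ₂, u₂, b1, b2, b3, b4⟩ := hk₂ k (by omega) ψ₂
    have hkpos : (0 : ℝ) < k := by
      have : 0 < k := by omega
      exact_mod_cast this
    -- type difference
    set v : D.E → ℝ := fun e => D.hv k (((O.ex hm₁).comp θ₁).comp f₁) e -
      D.hv k (((O.ex hm₂).comp θ₂).comp f₂) e with hv
    have hRv : Rp f₁ f₂ D v k := ⟨(O.ex hm₁).comp θ₁, (O.ex hm₂).comp θ₂, fun e => rfl⟩
    have e1 : ∀ e, D.hv k (((O.ex hm₁).comp θ₁).comp f₁) e =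
        D.hv m₁ (θ₁.comp f₁) e + ((k : ℝ) - m₁) * D.hv 1 1 e := fun e =>
      hv_ex hD hm₁ (θ₁.comp f₁) e
    have e2 : ∀ e, D.hv k (((O.ex hm₂).comp θ₂).comp f₂) e =
        D.hv m₂ (θ₂.comp f₂) e + ((k : ℝ) - m₂) * D.hv 1 1 e := fun e =>
      hv_ex hD hm₂ (θ₂.comp f₂) e
    have hvn : ‖v‖ ≤ (3 + 2 * T) * η * k := by
      rw [pi_norm_le_iff_of_nonneg (by positivity)]
      intro e
      rw [Real.norm_eq_abs]
      have h1 := a3 e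
      have h2 := b3 e
      have h3 := hcl k (ψ₁.comp f₁) (ψ₂.comp f₂) hcl1 e
      have h4 : v e = (D.hv m₁ (θ₁.comp f₁) e - (1 - κ) * D.hv k (ψ₁.comp f₁) e) +
          (1 - κ) * (D.hv k (ψ₁.comp f₁) e - D.hv k (ψ₂.comp f₂) e) -
          (D.hv m₂ (θ₂.comp f₂) e - (1 - κ) * D.hv k (ψ₂.comp f₂) e) -
          (((m₁ : ℝ) - (1 - κ) * k) - ((m₂ : ℝ) - (1 - κ) * k)) * D.hv 1 1 e := by
        show _ - _ = _
        rw [e1, e2]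
        ring
      rw [h4]
      have g1 := abs_sub ((D.hv m₁ (θ₁.comp f₁) e - (1 - κ) * D.hv k (ψ₁.comp f₁) e) +
          (1 - κ) * (D.hv k (ψ₁.comp f₁) e - D.hv k (ψ₂.comp f₂) e) -
          (D.hv m₂ (θ₂.comp f₂) e - (1 - κ) * D.hv k (ψ₂.comp f₂) e))
          ((((m₁ : ℝ) - (1 - κ) * k) - ((m₂ : ℝ) - (1 - κ) * k)) * D.hv 1 1 e)
      have g2 := abs_sub ((D.hv m₁ (θ₁.comp f₁) e - (1 - κ) * D.hv k (ψ₁.comp f₁) e) +
          (1 - κ) * (D.hv k (ψ₁.comp f₁) e - D.hv k (ψ₂.comp f₂) e))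
          (D.hv m₂ (θ₂.comp f₂) e - (1 - κ) * D.hv k (ψ₂.comp f₂) e)
      have g3 := abs_add_le (D.hv m₁ (θ₁.comp f₁) e - (1 - κ) * D.hv k (ψ₁.comp f₁) e)
          ((1 - κ) * (D.hv k (ψ₁.comp f₁) e - D.hv k (ψ₂.comp f₂) e))
      have g4 : |(1 - κ) * (D.hv k (ψ₁.comp f₁) e - D.hv k (ψ₂.comp f₂) e)| ≤ η * k := by
        rw [abs_mul, abs_of_nonneg (show (0 : ℝ) ≤ 1 - κ by linarith)]
        calc (1 - κ) * |D.hv k (ψ₁.comp f₁) e - D.hv k (ψ₂.comp f₂) e| ≤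
              1 * |D.hv k (ψ₁.comp f₁) e - D.hv k (ψ₂.comp f₂) e| := by gcongr; linarith
          _ ≤ η * k := by rw [one_mul]; exact h3
      have g5 : |(((m₁ : ℝ) - (1 - κ) * k) - ((m₂ : ℝ) - (1 - κ) * k)) * D.hv 1 1 e| ≤
          2 * η * k * T := by
        rw [abs_mul]
        have g6 := abs_sub ((m₁ : ℝ) - (1 - κ) * k) ((m₂ : ℝ) - (1 - κ) * k)
        have g7 : |((m₁ : ℝ) - (1 - κ) * k) - ((m₂ : ℝ) - (1 - κ) * k)| ≤ 2 * η * k := by linarith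
        exact mul_le_mul g7 (hTe e) (abs_nonneg _) (by positivity)
      nlinarith
    obtain ⟨k', hk'⟩ := Rp_neg hD h12 h21 v k hRv
    obtain ⟨l, hl, s₁, s₂, hs⟩ := hcost (-v) k' hk'
    have hl' : (l : ℝ) ≤ κ * k := by
      rw [norm_neg] at hl
      calc (l : ℝ) ≤ C * ‖v‖ := hl
        _ ≤ C * ((3 + 2 * T) * η * k) := by gcongr
        _ = C * ((3 + 2 * T) * η) * k := by ring
        _ ≤ κ * k := by gcongr
    have hle1 : m₁ + l ≤ k := by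
      have : ((m₁ + l : ℕ) : ℝ) ≤ k := by push_cast; linarith
      exact_mod_cast this
    have hle2 : m₂ + l ≤ k := by
      have : ((m₂ + l : ℕ) : ℝ) ≤ k := by push_cast; linarith
      exact_mod_cast this
    let ρ₁ : G₁ →* 𝒞.C k := (MulAut.conj u₁).toMonoidHom.comp ((O.ex hle1).comp (O.sm θ₁ s₁))
    let ρ₂ : G₂ →* 𝒞.C k := (MulAut.conj u₂).toMonoidHom.comp ((O.ex hle2).comp (O.sm θ₂ s₂))
    have htype : D.hv k (ρ₁.comp f₁) = D.hv k (ρ₂.comp f₂) := by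
      have t1 : D.hv k (ρ₁.comp f₁) = D.hv k ((O.ex hle1).comp (O.sm (θ₁.comp f₁) (s₁.comp f₁))) :=
        hC k u₁ ((O.ex hle1).comp (O.sm (θ₁.comp f₁) (s₁.comp f₁)))
      have t2 : D.hv k (ρ₂.comp f₂) = D.hv k ((O.ex hle2).comp (O.sm (θ₂.comp f₂) (s₂.comp f₂))) :=
        hC k u₂ ((O.ex hle2).comp (O.sm (θ₂.comp f₂) (s₂.comp f₂)))
      rw [t1, t2]
      funext e
      rw [hv_ex hD, hv_ex hD, hD, hD]
      have h1 := hs e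
      have h2 : v e = D.hv k (((O.ex hm₁).comp θ₁).comp f₁) e -
        D.hv k (((O.ex hm₂).comp θ₂).comp f₂) e := rfl
      rw [e1, e2] at h2
      rw [Pi.neg_apply] at h1
      push_cast
      linarith
    -- closeness
    have hhalf1 : (k : ℝ) ≤ 2 * m₁ := by
      have := (abs_le.mp a2).1
      nlinarith
    have hhalf2 : (k : ℝ) ≤ 2 * m₂ := by
      have := (abs_le.mp b2).1
      nlinarith
    have hlm1 : (l : ℝ) ≤ lam ^ 2 * m₁ := by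
      calc (l : ℝ) ≤ κ * k := hl'
        _ ≤ lam ^ 2 / 2 * (2 * m₁) := by gcongr
        _ = lam ^ 2 * m₁ := by ring
    have hlm2 : (l : ℝ) ≤ lam ^ 2 * m₂ := by
      calc (l : ℝ) ≤ κ * k := hl'
        _ ≤ lam ^ 2 / 2 * (2 * m₂) := by gcongr
        _ = lam ^ 2 * m₂ := by ring
    have hcl₁ : ∀ g ∈ F₁ ∪ Finset.univ.image f₁, 𝒞.d k (ρ₁ g) (ψ₁ g) ≤ 2 * lam + ε' := by
      intro g hg
      have h1 := a4 g hg
      have h2 := ds_small (O := O) hm m₁ l (θ₁ g) (s₁ g) 1 lam hlam0.le hlm1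
      have h3 := O.ex_d hle1 (O.ds m₁ l (θ₁ g, s₁ g)) (O.ds m₁ l (θ₁ g, 1))
      have h4 : O.ex hle1 (O.ds m₁ l (θ₁ g, 1)) = O.ex hm₁ (θ₁ g) := by
        rw [O.ds_ex, O.ex_ex]
      rw [h4] at h3
      have h5 : 𝒞.d k (u₁ * O.ex hle1 (O.ds m₁ l (θ₁ g, s₁ g)) * u₁⁻¹)
          (u₁ * O.ex hm₁ (θ₁ g) * u₁⁻¹) = 𝒞.d k (O.ex hle1 (O.ds m₁ l (θ₁ g, s₁ g)))
          (O.ex hm₁ (θ₁ g)) := by
        rw [hm.right, hm.left]
      have h6 := hm.tri k (u₁ * O.ex hle1 (O.ds m₁ l (θ₁ g, s₁ g)) * u₁⁻¹)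
        (u₁ * O.ex hm₁ (θ₁ g) * u₁⁻¹) (ψ₁ g)
      show 𝒞.d k (u₁ * O.ex hle1 (O.ds m₁ l (θ₁ g, s₁ g)) * u₁⁻¹) (ψ₁ g) ≤ _
      linarith
    have hcl₂ : ∀ g ∈ F₂ ∪ Finset.univ.image f₂, 𝒞.d k (ρ₂ g) (ψ₂ g) ≤ 2 * lam + ε' := by
      intro g hg
      have h1 := b4 g hg
      have h2 := ds_small (O := O) hm m₂ l (θ₂ g) (s₂ g) 1 lam hlam0.le hlm2
      have h3 := O.ex_d hle2 (O.ds m₂ l (θ₂ g, s₂ g)) (O.ds m₂ l (θ₂ g, 1))
      have h4 : O.ex hle2 (O.ds m₂ l (θ₂ g, 1)) = O.ex hm₂ (θ₂ g) := by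
        rw [O.ds_ex, O.ex_ex]
      rw [h4] at h3
      have h5 : 𝒞.d k (u₂ * O.ex hle2 (O.ds m₂ l (θ₂ g, s₂ g)) * u₂⁻¹)
          (u₂ * O.ex hm₂ (θ₂ g) * u₂⁻¹) = 𝒞.d k (O.ex hle2 (O.ds m₂ l (θ₂ g, s₂ g)))
          (O.ex hm₂ (θ₂ g)) := by
        rw [hm.right, hm.left]
      have h6 := hm.tri k (u₂ * O.ex hle2 (O.ds m₂ l (θ₂ g, s₂ g)) * u₂⁻¹)
        (u₂ * O.ex hm₂ (θ₂ g) * u₂⁻¹) (ψ₂ g)
      show 𝒞.d k (u₂ * O.ex hle2 (O.ds m₂ l (θ₂ g, s₂ g)) * u₂⁻¹) (ψ₂ g) ≤ _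
      linarith
    obtain ⟨w, hw1, hw2⟩ := hmt k (ρ₁.comp f₁) (ρ₂.comp f₂) htype (by
      intro h
      have h1 := hcl₁ (f₁ h) (Finset.mem_union_right _ (Finset.mem_image_of_mem _ (Finset.mem_univ h)))
      have h2 := hcl₂ (f₂ h) (Finset.mem_union_right _ (Finset.mem_image_of_mem _ (Finset.mem_univ h)))
      have h3 := hcl3 h
      have h4 := hm.tri k (ρ₁ (f₁ h)) (ψ₁ (f₁ h)) (ρ₂ (f₂ h))
      have h5 := hm.tri k (ψ₁ (f₁ h)) (ψ₂ (f₂ h)) (ρ₂ (f₂ h))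
      rw [hm.symm k (ψ₂ (f₂ h)) (ρ₂ (f₂ h))] at h5
      show 𝒞.d k (ρ₁ (f₁ h)) (ρ₂ (f₂ h)) ≤ δm
      linarith)
    refine ⟨ρ₁, (MulAut.conj w).toMonoidHom.comp ρ₂, fun h => (hw2 h).symm, fun g hg => ?_,
      fun g hg => ?_⟩
    · have := hcl₁ g (Finset.mem_union_left _ hg)
      linarith
    · have h1 := hm.conj k w (ρ₂ g)
      have h2 := hcl₂ g (Finset.mem_union_left _ hg)
      have h3 := hm.tri k (w * ρ₂ g * w⁻¹) (ρ₂ g) (ψ₂ g)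
      show 𝒞.d k (w * ρ₂ g * w⁻¹) (ψ₂ g) ≤ ε
      linarith

theorem stable_amalg_of_matching [Countable G₁] [Countable G₂] (hm : 𝒞.IsMetric)
    (hmatch : ∀ (F₁ : Finset G₁) (F₂ : Finset G₂) (ε : ℝ), 0 < ε →
      ∃ δ : ℝ, 0 < δ ∧ ∀ k (ψ₁ : G₁ →* 𝒞.C k) (ψ₂ : G₂ →* 𝒞.C k),
      (∀ h, 𝒞.d k (ψ₁ (f₁ h)) (ψ₂ (f₂ h)) ≤ δ) →
      ∃ (θ₁ : G₁ →* 𝒞.C k) (θ₂ : G₂ →* 𝒞.C k), (∀ h, θ₁ (f₁ h) = θ₂ (f₂ h)) ∧
        (∀ g ∈ F₁, 𝒞.d k (θ₁ g) (ψ₁ g) ≤ ε) ∧ (∀ g ∈ F₂, 𝒞.d k (θ₂ g) (ψ₂ g) ≤ ε))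
    (hs₁ : 𝒞.Stable G₁) (hs₂ : 𝒞.Stable G₂) : 𝒞.Stable (AmalgProd f₁ f₂) := by
  classical
  intro k φ hφ
  let N := Subgroup.normalClosure
    (Set.range (fun h : H => (Monoid.Coprod.inl (f₁ h) : Monoid.Coprod G₁ G₂) *
      (Monoid.Coprod.inr (f₂ h))⁻¹))
  let ι₁ : G₁ →* AmalgProd f₁ f₂ := (QuotientGroup.mk' N).comp Monoid.Coprod.inl
  let ι₂ : G₂ →* AmalgProd f₁ f₂ := (QuotientGroup.mk' N).comp Monoid.Coprod.inr
  have hι : ∀ h, ι₁ (f₁ h) = ι₂ (f₂ h) := by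
    intro h
    show (QuotientGroup.mk' N) (Monoid.Coprod.inl (f₁ h)) =
      (QuotientGroup.mk' N) (Monoid.Coprod.inr (f₂ h))
    have h1 : (Monoid.Coprod.inl (f₁ h) : Monoid.Coprod G₁ G₂) *
      (Monoid.Coprod.inr (f₂ h))⁻¹ ∈ N := Subgroup.subset_normalClosure ⟨h, rfl⟩
    have h2 : (QuotientGroup.mk' N) ((Monoid.Coprod.inl (f₁ h) : Monoid.Coprod G₁ G₂) *
      (Monoid.Coprod.inr (f₂ h))⁻¹) = 1 := (QuotientGroup.eq_one_iff _).mpr h1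
    rw [map_mul, map_inv] at h2
    exact mul_inv_eq_one.mp h2
  obtain ⟨ψ₁, hψ₁⟩ := hs₁ k (fun n g => φ n (ι₁ g)) (fun a b => by
    simpa only [map_mul] using hφ (ι₁ a) (ι₁ b))
  obtain ⟨ψ₂, hψ₂⟩ := hs₂ k (fun n g => φ n (ι₂ g)) (fun a b => by
    simpa only [map_mul] using hφ (ι₂ a) (ι₂ b))
  obtain ⟨e₁, he₁⟩ := exists_surjective_nat G₁
  obtain ⟨e₂, he₂⟩ := exists_surjective_nat G₂
  let A : ℕ → ℕ → Prop := fun m n => ∃ (θ₁ : G₁ →* 𝒞.C (k n)) (θ₂ : G₂ →* 𝒞.C (k n)),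
    (∀ h, θ₁ (f₁ h) = θ₂ (f₂ h)) ∧
    (∀ j < m, 𝒞.d (k n) (θ₁ (e₁ j)) (ψ₁ n (e₁ j)) ≤ 1 / ((m : ℝ) + 1)) ∧
    (∀ j < m, 𝒞.d (k n) (θ₂ (e₂ j)) (ψ₂ n (e₂ j)) ≤ 1 / ((m : ℝ) + 1))
  obtain ⟨κ, hκ1, hκ2⟩ := diag A
    (fun n => ⟨1, 1, fun _ => rfl, fun j hj => absurd hj (Nat.not_lt_zero j),
      fun j hj => absurd hj (Nat.not_lt_zero j)⟩)
    (by
      intro m
      obtain ⟨δ, hδ, hmat⟩ := hmatch ((Finset.range m).image e₁)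
        ((Finset.range m).image e₂) (1 / ((m : ℝ) + 1)) (by positivity)
      have hclose : ∀ h : H, Tendsto (fun n => 𝒞.d (k n) (ψ₁ n (f₁ h)) (ψ₂ n (f₂ h)))
          atTop (𝓝 0) := by
        intro h
        refine squeeze_zero (fun n => hm.nonneg _ _ _) (fun n => ?_)
          (by simpa using (hψ₁ (f₁ h)).add (hψ₂ (f₂ h)))
        have h1 := hm.tri (k n) (ψ₁ n (f₁ h)) (φ n (ι₁ (f₁ h))) (ψ₂ n (f₂ h))
        rw [hm.symm (k n) (ψ₁ n (f₁ h)) (φ n (ι₁ (f₁ h)))] at h1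
        refine h1.trans ?_
        rw [hι h]
      have hev : ∀ᶠ n in atTop, ∀ h : H, 𝒞.d (k n) (ψ₁ n (f₁ h)) (ψ₂ n (f₂ h)) ≤ δ := by
        rw [Filter.eventually_all]
        intro h
        exact ((hclose h).eventually (gt_mem_nhds hδ)).mono (fun n hn => le_of_lt hn)
      filter_upwards [hev] with n hn
      obtain ⟨θ₁, θ₂, h1, h2, h3⟩ := hmat (k n) (ψ₁ n) (ψ₂ n) hn
      exact ⟨θ₁, θ₂, h1, fun j hj => h2 _ (Finset.mem_image_of_mem _ (Finset.mem_range.mpr hj)),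
        fun j hj => h3 _ (Finset.mem_image_of_mem _ (Finset.mem_range.mpr hj))⟩)
  choose θ₁ θ₂ hθ hθ₁ hθ₂ using hκ2
  have hinv : Tendsto (fun n => 1 / ((κ n : ℝ) + 1)) atTop (𝓝 0) :=
    tendsto_one_div_add_atTop_nhds_zero_nat.comp hκ1
  have hc₁ : ∀ g : G₁, Tendsto (fun n => 𝒞.d (k n) (θ₁ n g) (ψ₁ n g)) atTop (𝓝 0) := by
    intro g
    obtain ⟨j, rfl⟩ := he₁ g
    refine squeeze_zero' (Eventually.of_forall fun n => hm.nonneg _ _ _) ?_ hinv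
    filter_upwards [hκ1.eventually (eventually_gt_atTop j)] with n hn
    exact hθ₁ n j hn
  have hc₂ : ∀ g : G₂, Tendsto (fun n => 𝒞.d (k n) (θ₂ n g) (ψ₂ n g)) atTop (𝓝 0) := by
    intro g
    obtain ⟨j, rfl⟩ := he₂ g
    refine squeeze_zero' (Eventually.of_forall fun n => hm.nonneg _ _ _) ?_ hinv
    filter_upwards [hκ1.eventually (eventually_gt_atTop j)] with n hn
    exact hθ₂ n j hn
  -- the homomorphisms on the amalgam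
  have hN : ∀ n, N ≤ (Monoid.Coprod.lift (θ₁ n) (θ₂ n)).ker := by
    intro n
    refine Subgroup.normalClosure_le_normal ?_
    rintro _ ⟨h, rfl⟩
    show Monoid.Coprod.lift (θ₁ n) (θ₂ n) _ = 1
    rw [map_mul, map_inv, Monoid.Coprod.lift_apply_inl, Monoid.Coprod.lift_apply_inr, hθ,
      mul_inv_cancel]
  let Θ : ∀ n, AmalgProd f₁ f₂ →* 𝒞.C (k n) := fun n =>
    QuotientGroup.lift N (Monoid.Coprod.lift (θ₁ n) (θ₂ n)) (fun x hx => hN n hx)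
  refine ⟨Θ, ?_⟩
  intro a
  obtain ⟨x, rfl⟩ := QuotientGroup.mk_surjective a
  have key : ∀ x : Monoid.Coprod G₁ G₂, Tendsto (fun n => 𝒞.d (k n)
      (φ n ((QuotientGroup.mk' N) x)) (Θ n ((QuotientGroup.mk' N) x))) atTop (𝓝 0) := by
    intro x
    induction x using Monoid.Coprod.induction_on with
    | inl g =>
      refine squeeze_zero (fun n => hm.nonneg _ _ _) (fun n => ?_)
        (by simpa using (hψ₁ g).add (hc₁ g))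
      have h1 := hm.tri (k n) (φ n (ι₁ g)) (ψ₁ n g) (θ₁ n g)
      rw [hm.symm (k n) (ψ₁ n g) (θ₁ n g)] at h1
      have h2 : Θ n ((QuotientGroup.mk' N) (Monoid.Coprod.inl g)) = θ₁ n g := by
        show Monoid.Coprod.lift (θ₁ n) (θ₂ n) (Monoid.Coprod.inl g) = θ₁ n g
        rw [Monoid.Coprod.lift_apply_inl]
      rw [h2]
      exact h1
    | inr g =>
      refine squeeze_zero (fun n => hm.nonneg _ _ _) (fun n => ?_)
        (by simpa using (hψ₂ g).add (hc₂ g))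
      have h1 := hm.tri (k n) (φ n (ι₂ g)) (ψ₂ n g) (θ₂ n g)
      rw [hm.symm (k n) (ψ₂ n g) (θ₂ n g)] at h1
      have h2 : Θ n ((QuotientGroup.mk' N) (Monoid.Coprod.inr g)) = θ₂ n g := by
        show Monoid.Coprod.lift (θ₁ n) (θ₂ n) (Monoid.Coprod.inr g) = θ₂ n g
        rw [Monoid.Coprod.lift_apply_inr]
      rw [h2]
      exact h1
    | mul x y hx hy =>
      have h0 := hφ ((QuotientGroup.mk' N) x) ((QuotientGroup.mk' N) y)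
      have t := h0.add (hx.add hy)
      rw [add_zero, add_zero] at t
      refine squeeze_zero (fun n => hm.nonneg _ _ _) (fun n => ?_) t
      rw [map_mul (QuotientGroup.mk' N) x y, map_mul (Θ n)]
      have h1 := hm.tri (k n) (φ n ((QuotientGroup.mk' N) x * (QuotientGroup.mk' N) y))
        (φ n ((QuotientGroup.mk' N) x) * φ n ((QuotientGroup.mk' N) y))
        (Θ n ((QuotientGroup.mk' N) x) * Θ n ((QuotientGroup.mk' N) y))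
      have h2 := hm.mul_mul (k n) (φ n ((QuotientGroup.mk' N) x)) (Θ n ((QuotientGroup.mk' N) x))
        (φ n ((QuotientGroup.mk' N) y)) (Θ n ((QuotientGroup.mk' N) y))
      rw [hm.symm (k n) (φ n ((QuotientGroup.mk' N) x * (QuotientGroup.mk' N) y))
        (φ n ((QuotientGroup.mk' N) x) * φ n ((QuotientGroup.mk' N) y))] at h1
      linarith
  exact key x

end

end Pool.Agent.H698R4
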