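import Pool.Agent.H698R4.StrictAbs
import Pool.Agent.H698R4.FxPerm3
import Pool.Agent.H698R4.Cut

set_option autoImplicit false

/-! Proportional deletion for permutation stable amenable groups. -/

namespace Pool.Agent.H698R4

open Filter Topology Equiv Pool.Agent.H698R3 Pool.Agent.H698R3.Amalg

variable {G H : Type} [Group G] [Group H] [Fintype H]

open Classical in
theorem cutP (f : H →* G) (hG : Folner G) (S : Finset G) (η : ℝ) (hη : 0 < η) (lam : ℝ)
    (h0 : 0 ≤ lam) (h1 : lam ≤ 1) :
    ∃ k₀ : ℕ, ∀ k ≥ k₀, ∀ ψ : G →* Perm (Fin k), ∃ Z : Finset (Fin k),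
      (Z.card : ℝ) ≤ lam * k ∧ lam * k - η * k ≤ (Z.card : ℝ) ∧
      (∀ K : Subgroup H, |((Z.filter (fun y => stH (ψ.comp f) y = K)).card : ℝ) -
        lam * cnt (ψ.comp f) K| ≤ η * k) ∧
      ∀ s ∈ S, ((Z.filter (fun y => ψ s y ∉ Z)).card : ℝ) ≤ η * k := by
  obtain ⟨M, hM⟩ := hyperfinite hG S η hη
  set T := Subgroup H
  set B : ℕ := M * (M + 1) ^ Fintype.card T with hB
  refine ⟨⌈(B * Fintype.card T : ℝ) / η⌉₊, fun k hk ψ => ?_⟩
  have hBk : (B * Fintype.card T : ℝ) ≤ η * k := by
    have h2 := Nat.ceil_le.mp hk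
    rw [div_le_iff₀ hη] at h2
    linarith
  have hT1 : (1 : ℝ) ≤ Fintype.card T := by
    exact_mod_cast (Fintype.card_pos (α := T))
  have hBk' : (B : ℝ) ≤ η * k := by
    have : (0 : ℝ) ≤ B := Nat.cast_nonneg _
    nlinarith
  obtain ⟨p, hp1, hp2⟩ := hM k ψ
  obtain ⟨R, hR⟩ := select p (fun y => stH (ψ.comp f) y) M hp1 lam h0 h1
  have hcnt : ∀ K, cnt (ψ.comp f) K =
      (Finset.univ.filter (fun y => stH (ψ.comp f) y = K)).card := fun K => cnt_eq _ K
  have hZK : ∀ K, ((Finset.univ.filter (fun y => p y ∈ R)).filter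
      (fun y => stH (ψ.comp f) y = K)).card =
      (Finset.univ.filter (fun y => p y ∈ R ∧ stH (ψ.comp f) y = K)).card := by
    intro K
    rw [Finset.filter_filter]
  have hsumK : (Finset.univ.filter (fun y => p y ∈ R)).card = ∑ K : T,
      (Finset.univ.filter (fun y => p y ∈ R ∧ stH (ψ.comp f) y = K)).card := by
    rw [Finset.card_eq_sum_card_fiberwise (t := Finset.univ) (f := fun y => stH (ψ.comp f) y)]
    · exact Finset.sum_congr rfl fun K _ => hZK K
    · intro y _
      exact Finset.mem_coe.mpr (Finset.mem_univ _)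
  have hsumK' : (k : ℝ) = ∑ K : T,
      ((Finset.univ.filter (fun y => stH (ψ.comp f) y = K)).card : ℝ) := by
    have h2 : (Finset.univ : Finset (Fin k)).card = ∑ K : T,
        (Finset.univ.filter (fun y => stH (ψ.comp f) y = K)).card := by
      rw [Finset.card_eq_sum_card_fiberwise (t := Finset.univ) (f := fun y => stH (ψ.comp f) y)]
      intro y _
      exact Finset.mem_coe.mpr (Finset.mem_univ _)
    rw [Finset.card_univ, Fintype.card_fin] at h2
    exact_mod_cast h2
  refine ⟨Finset.univ.filter (fun y => p y ∈ R), ?_, ?_, fun K => ?_, fun s hs => ?_⟩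
  · rw [hsumK, hsumK', Finset.mul_sum]
    push_cast
    exact Finset.sum_le_sum fun K _ => (hR K).1
  · rw [hsumK]
    push_cast
    have h2 := Finset.sum_le_sum (s := (Finset.univ : Finset T)) fun K _ => (hR K).2
    rw [Finset.sum_sub_distrib, ← Finset.mul_sum, ← hsumK', Finset.sum_const, Finset.card_univ,
      nsmul_eq_mul] at h2
    have h3 : (Fintype.card T : ℝ) * ((M * (M + 1) ^ Fintype.card T : ℕ) : ℝ) =
        B * Fintype.card T := by rw [hB]; ring
    rw [h3] at h2
    linarith
  · rw [hZK, hcnt, abs_le]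
    have h2 := (hR K).1
    have h3 := (hR K).2
    have h4 : (0 : ℝ) ≤ η * k := by positivity
    constructor <;> linarith
  · refine le_trans (Nat.cast_le.mpr (Finset.card_le_card ?_)) (hp2 s hs)
    intro y hy
    rw [Finset.mem_filter, Finset.mem_filter] at hy
    rw [Finset.mem_filter]
    refine ⟨Finset.mem_univ _, fun h => hy.2 ?_⟩
    rw [Finset.mem_filter]
    refine ⟨Finset.mem_univ _, ?_⟩
    rw [h]
    exact hy.1.2

open Classical in
theorem PD_perm [Countable G] (f : H →* G) (hG : Folner G) (hst : permCls.Stable G) :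
    PD opsP f (HP H) := by
  intro F ε hε
  refine ⟨min (ε / 4) (1 / 2), lt_min (by linarith) (by norm_num), ?_⟩
  intro κ hκ0 hκ η hη
  have hκ1 : κ ≤ ε / 4 := hκ.trans (min_le_left _ _)
  have hκ2 : κ ≤ 1 / 2 := hκ.trans (min_le_right _ _)
  by_contra hcon
  push Not at hcon
  choose k hk ψ hbad using hcon
  change ∀ n, G →* Perm (Fin (k n)) at ψ
  obtain ⟨en, hen⟩ := exists_surjective_nat G
  set lam : ℝ := 1 - κ with hlam
  have hktend : Tendsto k atTop atTop := tendsto_atTop_mono hk tendsto_id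
  let A : ℕ → ℕ → Prop := fun j n => ∃ Z : Finset (Fin (k n)), 0 < j →
    ((Z.card : ℝ) ≤ lam * k n ∧ lam * k n - 1 / ((j : ℝ) + 1) * k n ≤ (Z.card : ℝ) ∧
      (∀ K : Subgroup H, |((Z.filter (fun y => stH ((ψ n).comp f) y = K)).card : ℝ) -
        lam * cnt ((ψ n).comp f) K| ≤ 1 / ((j : ℝ) + 1) * k n) ∧
      ∀ i < j, ((Z.filter (fun y => ψ n (en i) y ∉ Z)).card : ℝ) ≤ 1 / ((j : ℝ) + 1) * k n)
  obtain ⟨jj, hjj1, hjj2⟩ := diag A (fun n => ⟨∅, fun h => absurd h (lt_irrefl 0)⟩)
    (by
      intro j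
      obtain ⟨k₀, hk₀⟩ := cutP f hG ((Finset.range j).image en) (1 / ((j : ℝ) + 1))
        (by positivity) lam (by linarith) (by linarith)
      filter_upwards [hktend.eventually (eventually_ge_atTop k₀)] with n hn
      obtain ⟨Z, h1, h2, h3, h4⟩ := hk₀ (k n) hn (ψ n)
      exact ⟨Z, fun _ => ⟨h1, h2, h3, fun i hi =>
        h4 _ (Finset.mem_image_of_mem _ (Finset.mem_range.mpr hi))⟩⟩)
  choose Z hZ using hjj2
  have hinv : Tendsto (fun n => 1 / ((jj n : ℝ) + 1)) atTop (𝓝 0) :=
    tendsto_one_div_add_atTop_nhds_zero_nat.comp hjj1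
  -- partial completions
  have hτ : ∀ n g, ∃ τ : Perm {y // y ∈ Z n}, ∀ x x' : {y // y ∈ Z n},
      ψ n g x.1 = x'.1 → τ x = x' := fun n g =>
    exists_comp (ψ n g) ⟨Subtype.val, Subtype.val_injective⟩
  choose φ hφ using hτ
  have hcardZ : ∀ n, (Fintype.card {y // y ∈ Z n} : ℝ) = (Z n).card := fun n => by
    rw [Fintype.card_coe]
  -- asymptotically multiplicative
  have hbdry : ∀ n g, (Finset.univ.filter (fun x : {y // y ∈ Z n} => ψ n g x.1 ∉ Z n)).card =
      ((Z n).filter (fun y => ψ n g y ∉ Z n)).card := by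
    intro n g
    rw [← Finset.card_map ⟨Subtype.val, Subtype.val_injective⟩]
    congr 1
    ext y
    simp only [Finset.mem_map, Finset.mem_filter, Finset.mem_univ, true_and,
      Function.Embedding.coeFn_mk]
    constructor
    · rintro ⟨x, hx, rfl⟩
      exact ⟨x.2, hx⟩
    · rintro ⟨h1, h2⟩
      exact ⟨⟨y, h1⟩, h2, rfl⟩
  have hgood : ∀ᶠ n in atTop, 0 < jj n ∧ 1 / ((jj n : ℝ) + 1) ≤ 1 / 4 :=
    (hjj1.eventually (eventually_gt_atTop 0)).and
      ((hinv.eventually (gt_mem_nhds (show (0 : ℝ) < 1 / 4 by norm_num))).mono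
        (fun n hn => le_of_lt hn))
  have hev : ∀ g : G, ∀ᶠ n in atTop,
      ((Finset.univ.filter (fun x : {y // y ∈ Z n} => ψ n g x.1 ∉ Z n)).card : ℝ) ≤
        1 / ((jj n : ℝ) + 1) * k n := by
    intro g
    obtain ⟨i, rfl⟩ := hen g
    filter_upwards [hjj1.eventually (eventually_gt_atTop i)] with n hn
    rw [hbdry]
    exact (hZ n (by omega)).2.2.2 i hn
  have hquarter : ∀ n, 0 < jj n ∧ 1 / ((jj n : ℝ) + 1) ≤ 1 / 4 → (k n : ℝ) ≤ 4 * (Z n).card := by
    intro n hn
    have h1 := (hZ n hn.1).2.1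
    have h2 := hn.2
    have h3 : (0 : ℝ) ≤ k n := Nat.cast_nonneg _
    nlinarith
  have halm : ∀ a b : G, Tendsto (fun n => Stab.hammingDist (φ n a * φ n b) (φ n (a * b)))
      atTop (𝓝 0) := by
    intro a b
    have hlim : Tendsto (fun n => 8 * (1 / ((jj n : ℝ) + 1))) atTop (𝓝 0) := by
      have := hinv.const_mul (8 : ℝ)
      rwa [mul_zero] at this
    refine squeeze_zero' (Eventually.of_forall fun n => Stab.hammingDist_nonneg _ _) ?_ hlim
    filter_upwards [hgood, hev b, hev (a * b)] with n g1 g2 g3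
    rw [hamming_le_iff _ _ _ (by positivity), hcardZ]
    have hsub : (Finset.univ.filter (fun x => (φ n a * φ n b) x ≠ (φ n (a * b)) x)) ⊆
        (Finset.univ.filter (fun x : {y // y ∈ Z n} => ψ n b x.1 ∉ Z n)) ∪
        (Finset.univ.filter (fun x : {y // y ∈ Z n} => ψ n (a * b) x.1 ∉ Z n)) := by
      intro x hx
      by_contra hnot
      rw [Finset.mem_union, not_or] at hnot
      simp only [Finset.mem_filter, Finset.mem_univ, true_and, not_not] at hnot hx
      apply hx
      have e1 := hφ n b x ⟨_, hnot.1⟩ rfl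
      have e2 := hφ n (a * b) x ⟨_, hnot.2⟩ rfl
      rw [Perm.mul_apply, e1, e2]
      apply hφ
      show ψ n a (ψ n b x.1) = ψ n (a * b) x.1
      rw [map_mul, Perm.mul_apply]
    have h1 := (Finset.card_le_card hsub).trans (Finset.card_union_le _ _)
    have h2 : ((Finset.univ.filter
        (fun x => (φ n a * φ n b) x ≠ (φ n (a * b)) x)).card : ℝ) ≤
        2 * (1 / ((jj n : ℝ) + 1) * k n) := by
      refine (Nat.cast_le.mpr h1).trans ?_
      push_cast
      linarith
    have h3 := hquarter n g1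
    have h4 : (0 : ℝ) ≤ 1 / ((jj n : ℝ) + 1) := by positivity
    calc _ ≤ 2 * (1 / ((jj n : ℝ) + 1) * k n) := h2
      _ ≤ 2 * (1 / ((jj n : ℝ) + 1) * (4 * (Z n).card)) := by gcongr
      _ = 8 * (1 / ((jj n : ℝ) + 1)) * (Z n).card := by ring
  obtain ⟨θ, hθ⟩ := stable_types hst (fun n => {y // y ∈ Z n}) φ halm
  -- choose a good index
  set ε1 : ℝ := min (ε / 8) (η / (4 * (Fintype.card H + 1))) with hε1
  have hε10 : 0 < ε1 := lt_min (by linarith) (by positivity)
  have hε1a : ε1 ≤ ε / 8 := min_le_left _ _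
  have hε1b : ε1 ≤ η / (4 * (Fintype.card H + 1)) := min_le_right _ _
  have hall : ∀ᶠ n in atTop, (0 < jj n ∧ 1 / ((jj n : ℝ) + 1) ≤ 1 / 4) ∧
      (∀ g ∈ F ∪ Finset.univ.image f, Stab.hammingDist (φ n g) (θ n g) ≤ ε1) ∧
      (∀ g ∈ F ∪ Finset.univ.image f,
        ((Finset.univ.filter (fun x : {y // y ∈ Z n} => ψ n g x.1 ∉ Z n)).card : ℝ) ≤
          1 / ((jj n : ℝ) + 1) * k n) ∧ 1 / ((jj n : ℝ) + 1) ≤ min ε1 (η / 2) := by
    refine hgood.and (((Filter.eventually_all_finset _).mpr fun g _ =>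
      ((hθ g).eventually (gt_mem_nhds hε10)).mono fun n hn => le_of_lt hn).and
      (((Filter.eventually_all_finset _).mpr fun g _ => hev g).and
      ((hinv.eventually (gt_mem_nhds (lt_min hε10 (half_pos hη)))).mono fun n hn => le_of_lt hn)))
  obtain ⟨n, g1, g2, g3, g4⟩ := hall.exists
  have g4a : 1 / ((jj n : ℝ) + 1) ≤ ε1 := g4.trans (min_le_left _ _)
  have g4b : 1 / ((jj n : ℝ) + 1) ≤ η / 2 := g4.trans (min_le_right _ _)
  obtain ⟨z1, z2, z3, -⟩ := hZ n g1.1
  have hk0 : (0 : ℝ) ≤ k n := Nat.cast_nonneg _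
  have hZk : (Z n).card ≤ k n := by
    have := Finset.card_le_univ (Z n)
    rwa [Fintype.card_fin] at this
  -- pointwise disagreement
  have hdis : ∀ g ∈ F ∪ Finset.univ.image f,
      ((Finset.univ.filter (fun x : {y // y ∈ Z n} => (θ n g x).1 ≠ ψ n g x.1)).card : ℝ) ≤
        2 * ε1 * k n := by
    intro g hg
    have h1 := (hamming_le_iff _ _ _ hε10.le).mp (g2 g hg)
    rw [hcardZ] at h1
    have h2 := g3 g hg
    have hsub : (Finset.univ.filter (fun x : {y // y ∈ Z n} => (θ n g x).1 ≠ ψ n g x.1)) ⊆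
        (Finset.univ.filter (fun x => φ n g x ≠ θ n g x)) ∪
        (Finset.univ.filter (fun x : {y // y ∈ Z n} => ψ n g x.1 ∉ Z n)) := by
      intro x hx
      by_contra hnot
      rw [Finset.mem_union, not_or] at hnot
      simp only [Finset.mem_filter, Finset.mem_univ, true_and, not_not] at hnot hx
      apply hx
      rw [← hnot.1, hφ n g x ⟨_, hnot.2⟩ rfl]
    have h3 := (Finset.card_le_card hsub).trans (Finset.card_union_le _ _)
    have h4 : ((Z n).card : ℝ) ≤ k n := by exact_mod_cast hZk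
    calc ((Finset.univ.filter (fun x : {y // y ∈ Z n} => (θ n g x).1 ≠ ψ n g x.1)).card : ℝ)
        ≤ ((Finset.univ.filter (fun x => φ n g x ≠ θ n g x)).card : ℝ) +
          ((Finset.univ.filter (fun x : {y // y ∈ Z n} => ψ n g x.1 ∉ Z n)).card : ℝ) := by
          exact_mod_cast h3
      _ ≤ ε1 * (Z n).card + 1 / ((jj n : ℝ) + 1) * k n := add_le_add h1 h2
      _ ≤ ε1 * k n + ε1 * k n := by gcongr
      _ = 2 * ε1 * k n := by ring
  -- transport
  obtain ⟨e, he⟩ : ∃ e : {y // y ∈ Z n} ≃ Fin (Z n).card, True :=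
    ⟨Fintype.equivFinOfCardEq (Fintype.card_coe _), trivial⟩
  let θ' : G →* Perm (Fin (Z n).card) := transp e (θ n)
  -- the conjugating permutation
  let j : Fin (Z n).card ↪ Fin (k n) := e.symm.toEmbedding.trans ⟨Subtype.val, Subtype.val_injective⟩
  have hj : ∀ x, j x = (e.symm x).1 := fun x => rfl
  obtain ⟨v, hv⟩ := exists_equiv_ext (Fintype.card_fin (k n)) hZk j
  change Perm (Fin (k n)) at v
  obtain ⟨g, hg, hbadg⟩ := hbad n (Z n).card hZk θ' v⁻¹ z1
    (by
      rw [abs_le]
      have h2 : 1 / ((jj n : ℝ) + 1) * (k n : ℝ) ≤ η / 2 * k n := by gcongr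
      have h3 : (0 : ℝ) ≤ η * k n := by positivity
      constructor <;> linarith)
    (by
      intro K
      have t1 := hvP_eq (Z n).card (θ'.comp f) K
      have t2 := hvP_eq (k n) ((ψ n).comp f) K
      have t3 : cnt (θ'.comp f) K = cnt ((θ n).comp f) K := cnt_transp ((θ n).comp f) e K
      have t4 := z3 K
      have t5 : |(cnt ((θ n).comp f) K : ℝ) -
          (((Z n).filter (fun y => stH ((ψ n).comp f) y = K)).card : ℝ)| ≤
          Fintype.card H * (2 * ε1 * k n) := by
        have hD : ((Finset.univ.filter (fun x : {y // y ∈ Z n} =>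
            stH ((θ n).comp f) x ≠ stH ((ψ n).comp f) x.1)).card : ℝ) ≤
            Fintype.card H * (2 * ε1 * k n) := by
          have hsub : (Finset.univ.filter (fun x : {y // y ∈ Z n} =>
              stH ((θ n).comp f) x ≠ stH ((ψ n).comp f) x.1)) ⊆
              Finset.univ.biUnion (fun h : H => Finset.univ.filter
                (fun x : {y // y ∈ Z n} => (θ n (f h) x).1 ≠ ψ n (f h) x.1)) := by
            intro x hx
            by_contra hnot
            simp only [Finset.mem_biUnion, Finset.mem_filter, Finset.mem_univ, true_and,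
              not_exists, not_not] at hnot hx
            apply hx
            ext h
            rw [mem_stH, mem_stH]
            show θ n (f h) x = x ↔ ψ n (f h) x.1 = x.1
            rw [← hnot h]
            exact ⟨fun h' => by rw [h'], fun h' => Subtype.ext h'⟩
          have h5 := (Finset.card_le_card hsub).trans Finset.card_biUnion_le
          refine (Nat.cast_le.mpr h5).trans ?_
          push_cast
          refine (Finset.sum_le_sum fun h _ => hdis (f h)
            (Finset.mem_union_right _ (Finset.mem_image_of_mem _ (Finset.mem_univ h)))).trans ?_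
          rw [Finset.sum_const, Finset.card_univ, nsmul_eq_mul]
        refine le_trans ?_ hD
        have e1 : ((Z n).filter (fun y => stH ((ψ n).comp f) y = K)).card =
            (Finset.univ.filter (fun x : {y // y ∈ Z n} => stH ((ψ n).comp f) x.1 = K)).card := by
          rw [← Finset.card_map ⟨Subtype.val, Subtype.val_injective⟩]
          congr 1
          ext y
          simp only [Finset.mem_map, Finset.mem_filter, Finset.mem_univ, true_and,
            Function.Embedding.coeFn_mk]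
          constructor
          · rintro ⟨h1, h2⟩
            exact ⟨⟨y, h1⟩, h2, rfl⟩
          · rintro ⟨x, hx, rfl⟩
            exact ⟨x.2, hx⟩
        rw [cnt_eq, e1, abs_le]
        have c1 : (Finset.univ.filter (fun x : {y // y ∈ Z n} => stH ((θ n).comp f) x = K)).card ≤
            (Finset.univ.filter (fun x : {y // y ∈ Z n} => stH ((ψ n).comp f) x.1 = K)).card +
            (Finset.univ.filter (fun x : {y // y ∈ Z n} =>
              stH ((θ n).comp f) x ≠ stH ((ψ n).comp f) x.1)).card := by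
          refine (Finset.card_le_card ?_).trans (Finset.card_union_le _ _)
          intro x hx
          rw [Finset.mem_union, Finset.mem_filter, Finset.mem_filter]
          rw [Finset.mem_filter] at hx
          by_cases h6 : stH ((θ n).comp f) x = stH ((ψ n).comp f) x.1
          · left; exact ⟨Finset.mem_univ _, by rw [← h6]; exact hx.2⟩
          · right; exact ⟨Finset.mem_univ _, h6⟩
        have c2 : (Finset.univ.filter
            (fun x : {y // y ∈ Z n} => stH ((ψ n).comp f) x.1 = K)).card ≤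
            (Finset.univ.filter (fun x : {y // y ∈ Z n} => stH ((θ n).comp f) x = K)).card +
            (Finset.univ.filter (fun x : {y // y ∈ Z n} =>
              stH ((θ n).comp f) x ≠ stH ((ψ n).comp f) x.1)).card := by
          refine (Finset.card_le_card ?_).trans (Finset.card_union_le _ _)
          intro x hx
          rw [Finset.mem_union, Finset.mem_filter, Finset.mem_filter]
          rw [Finset.mem_filter] at hx
          by_cases h6 : stH ((θ n).comp f) x = stH ((ψ n).comp f) x.1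
          · left; exact ⟨Finset.mem_univ _, by rw [h6]; exact hx.2⟩
          · right; exact ⟨Finset.mem_univ _, h6⟩
        have c1' : ((Finset.univ.filter
            (fun x : {y // y ∈ Z n} => stH ((θ n).comp f) x = K)).card : ℝ) ≤
            ((Finset.univ.filter
              (fun x : {y // y ∈ Z n} => stH ((ψ n).comp f) x.1 = K)).card : ℝ) +
            ((Finset.univ.filter (fun x : {y // y ∈ Z n} =>
              stH ((θ n).comp f) x ≠ stH ((ψ n).comp f) x.1)).card : ℝ) := by exact_mod_cast c1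
        have c2' : ((Finset.univ.filter
            (fun x : {y // y ∈ Z n} => stH ((ψ n).comp f) x.1 = K)).card : ℝ) ≤
            ((Finset.univ.filter
              (fun x : {y // y ∈ Z n} => stH ((θ n).comp f) x = K)).card : ℝ) +
            ((Finset.univ.filter (fun x : {y // y ∈ Z n} =>
              stH ((θ n).comp f) x ≠ stH ((ψ n).comp f) x.1)).card : ℝ) := by exact_mod_cast c2
        constructor <;> linarith
      have t6 : (Fintype.card H : ℝ) * (2 * ε1 * k n) ≤ η / 2 * k n := by
        have h7 : (Fintype.card H : ℝ) * (2 * ε1) ≤ η / 2 := by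
          rw [le_div_iff₀ (by positivity)] at hε1b
          nlinarith
        calc (Fintype.card H : ℝ) * (2 * ε1 * k n) = (Fintype.card H : ℝ) * (2 * ε1) * k n := by
              ring
          _ ≤ η / 2 * k n := by gcongr
      have t7 : 1 / ((jj n : ℝ) + 1) * (k n : ℝ) ≤ η / 2 * k n := by gcongr
      show |(HP H).hv (Z n).card (θ'.comp f) K - (1 - κ) * (HP H).hv (k n) ((ψ n).comp f) K| ≤ _
      rw [t1, t2, t3]
      have t8 := abs_sub_le (cnt ((θ n).comp f) K : ℝ)
        (((Z n).filter (fun y => stH ((ψ n).comp f) y = K)).card : ℝ)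
        ((1 - κ) * (cnt ((ψ n).comp f) K : ℝ))
      have t9 : |(((Z n).filter (fun y => stH ((ψ n).comp f) y = K)).card : ℝ) -
        (1 - κ) * (cnt ((ψ n).comp f) K : ℝ)| ≤ 1 / ((jj n : ℝ) + 1) * k n := t4
      linarith)
  -- closeness
  apply absurd hbadg
  rw [not_lt]
  show Stab.hammingDist (v⁻¹ * exP hZk (θ' g) * v⁻¹⁻¹) (ψ n g) ≤ ε
  rw [hamming_le_iff _ _ _ hε.le, Fintype.card_fin]
  have hsub : (Finset.univ.filter (fun y => (v⁻¹ * exP hZk (θ' g) * v⁻¹⁻¹) y ≠ ψ n g y)) ⊆
      ((Finset.univ.filter (fun x : {y // y ∈ Z n} => (θ n g x).1 ≠ ψ n g x.1)).map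
        ⟨Subtype.val, Subtype.val_injective⟩) ∪ (Finset.univ \ Z n) := by
    intro y hy
    by_contra hnot
    rw [Finset.mem_union, not_or, Finset.mem_sdiff, not_and_not_right] at hnot
    have hyZ : y ∈ Z n := hnot.2 (Finset.mem_univ _)
    have h1 : (θ n g ⟨y, hyZ⟩).1 = ψ n g y := by
      by_contra h2
      apply hnot.1
      exact Finset.mem_map.mpr ⟨⟨y, hyZ⟩, Finset.mem_filter.mpr ⟨Finset.mem_univ _, h2⟩, rfl⟩
    apply (Finset.mem_filter.mp hy).2
    rw [inv_inv, Perm.mul_apply, Perm.mul_apply, Perm.inv_eq_iff_eq]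
    have h3 : y = j (e ⟨y, hyZ⟩) := by rw [hj, Equiv.symm_apply_apply]
    have h4 : ψ n g y = j (e (θ n g ⟨y, hyZ⟩)) := by rw [hj, Equiv.symm_apply_apply, h1]
    have h5 : v y = Fin.castLE hZk (e ⟨y, hyZ⟩) := by
      nth_rewrite 1 [h3]
      exact hv _
    have h6 : v (ψ n g y) = Fin.castLE hZk (e (θ n g ⟨y, hyZ⟩)) := by
      rw [h4]
      exact hv _
    rw [h5, h6, exP_cast]
    show Fin.castLE hZk (transp e (θ n) g (e ⟨y, hyZ⟩)) = _
    rw [transp_apply]
  have h1 := (Finset.card_le_card hsub).trans (Finset.card_union_le _ _)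
  rw [Finset.card_map, Finset.card_sdiff_of_subset (Finset.subset_univ _), Finset.card_univ,
    Fintype.card_fin] at h1
  have h2 := hdis g (Finset.mem_union_left _ hg)
  have h3 : ((k n - (Z n).card : ℕ) : ℝ) = (k n : ℝ) - (Z n).card := Nat.cast_sub hZk
  have h4 : 1 / ((jj n : ℝ) + 1) * (k n : ℝ) ≤ ε1 * k n := by gcongr
  have h5 : κ * (k n : ℝ) ≤ ε / 4 * k n := by gcongr
  have h6 : ε1 * (k n : ℝ) ≤ ε / 8 * k n := by gcongr
  calc _ ≤ ((Finset.univ.filter (fun x : {y // y ∈ Z n} => (θ n g x).1 ≠ ψ n g x.1)).card : ℝ) +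
        ((k n - (Z n).card : ℕ) : ℝ) := by exact_mod_cast h1
    _ ≤ 2 * ε1 * k n + ((k n : ℝ) - (Z n).card) := by rw [h3]; linarith
    _ ≤ ε * k n := by
        have h7 : (k n : ℝ) - (Z n).card ≤ κ * k n + ε1 * k n := by
          have : lam * (k n : ℝ) = k n - κ * k n := by rw [hlam]; ring
          linarith
        have h8 : (0 : ℝ) ≤ ε * k n := by positivity
        nlinarith

end Pool.Agent.H698R4
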