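import Pool.Agent.H698R4.StrictPerm

set_option autoImplicit false

/-! Amalgams over finite groups of amenable permutation stable groups. -/

namespace Pool.Agent.H698R4

open Filter Topology Equiv Pool.Agent.H698R3 Pool.Agent.H698R3.Amalg

theorem hconjP {H : Type} [Group H] [Fintype H] : HConj (HP H) := by
  intro k u π
  change Perm (Fin k) at u
  change H →* Perm (Fin k) at π
  funext K
  have h1 := hvP_eq k ((MulAut.conj u).toMonoidHom.comp π) K
  have h2 := hvP_eq k π K
  refine h1.trans (Eq.trans ?_ h2.symm)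
  have h3 : transp u π = (MulAut.conj u).toMonoidHom.comp π := by
    ext1 h
    rfl
  rw [← h3, cnt_transp]

theorem exists_partial {G : Type} [Group G] (F : Finset G) (g : G) :
    ∃ τ : Perm {x // x ∈ F}, ∀ x x' : {x // x ∈ F}, g * x.1 = x'.1 → τ x = x' := by
  classical
  let e : {x : {x // x ∈ F} // g * x.1 ∈ F} ≃ {x : {x // x ∈ F} // g⁻¹ * x.1 ∈ F} :=
    { toFun := fun x => ⟨⟨g * x.1.1, x.2⟩, by
        show g⁻¹ * (g * x.1.1) ∈ F
        rw [inv_mul_cancel_left]; exact x.1.2⟩
      invFun := fun x => ⟨⟨g⁻¹ * x.1.1, x.2⟩, by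
        show g * (g⁻¹ * x.1.1) ∈ F
        rw [mul_inv_cancel_left]; exact x.1.2⟩
      left_inv := by rintro ⟨⟨x, hx⟩, hx'⟩; simp
      right_inv := by rintro ⟨⟨x, hx⟩, hx'⟩; simp }
  refine ⟨e.extendSubtype, fun x x' h => ?_⟩
  have hx : g * x.1 ∈ F := by rw [h]; exact x'.2
  rw [Equiv.extendSubtype_apply_of_mem e x hx]
  exact Subtype.ext h

/-- Countable amenable groups are sofic. -/
theorem sofic_of_folner {G : Type} [Group G] [Countable G] (hG : Folner G) : Sofic G := by
  classical
  obtain ⟨en, hen⟩ := exists_surjective_nat G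
  have hF : ∀ n : ℕ, ∃ F : Finset G, F.Nonempty ∧ ∀ i < n,
      (Set.ncard {g : G | g ∈ F ∧ en i * g ∉ F} : ℝ) ≤ 1 / ((n : ℝ) + 1) * F.card := by
    intro n
    obtain ⟨F, h1, h2⟩ := hG ((Finset.range n).image en) (1 / ((n : ℝ) + 1)) (by positivity)
    exact ⟨F, h1, fun i hi => h2 _ (Finset.mem_image_of_mem _ (Finset.mem_range.mpr hi))⟩
  choose F hF1 hF2 using hF
  have hτ := fun n g => exists_partial (F n) g
  choose φ hφ using hτ
  have hbd : ∀ n g, ((Finset.univ.filter (fun x : {x // x ∈ F n} => g * x.1 ∉ F n)).card) =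
      Set.ncard {x : G | x ∈ F n ∧ g * x ∉ F n} := by
    intro n g
    have h1 : {x : G | x ∈ F n ∧ g * x ∉ F n} =
        (((F n).filter (fun x => g * x ∉ F n) : Finset G) : Set G) := by
      ext x
      simp
    rw [h1, Set.ncard_coe_finset, ← Finset.card_map ⟨Subtype.val, Subtype.val_injective⟩]
    congr 1
    ext y
    simp only [Finset.mem_map, Finset.mem_filter, Finset.mem_univ, true_and,
      Function.Embedding.coeFn_mk]
    constructor
    · rintro ⟨x, hx, rfl⟩
      exact ⟨x.2, hx⟩
    · rintro ⟨h1, h2⟩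
      exact ⟨⟨y, h1⟩, h2, rfl⟩
  have hcardF : ∀ n, Fintype.card {x // x ∈ F n} = (F n).card := fun n => Fintype.card_coe _
  have hev : ∀ g : G, ∀ᶠ n : ℕ in atTop,
      ((Finset.univ.filter (fun x : {x // x ∈ F n} => g * x.1 ∉ F n)).card : ℝ) ≤
        1 / ((n : ℝ) + 1) * (F n).card := by
    intro g
    obtain ⟨i, rfl⟩ := hen g
    filter_upwards [eventually_gt_atTop i] with n hn
    rw [hbd]
    exact hF2 n i hn
  let e : ∀ n, {x // x ∈ F n} ≃ Fin (F n).card := fun n =>
    Fintype.equivFinOfCardEq (hcardF n)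
  refine ⟨fun n => (F n).card, fun n g => (e n).permCongrHom (φ n g), ?_, ?_⟩
  · intro a b
    have hlim : Tendsto (fun n : ℕ => 2 * (1 / ((n : ℝ) + 1))) atTop (𝓝 0) := by
      have := (tendsto_one_div_add_atTop_nhds_zero_nat (𝕜 := ℝ)).const_mul (2 : ℝ)
      rwa [mul_zero] at this
    refine squeeze_zero' (Eventually.of_forall fun n => Stab.hammingDist_nonneg _ _) ?_ hlim
    filter_upwards [hev b, hev (a * b)] with n g1 g2
    rw [← map_mul, hammingDist_permCongr, hamming_le_iff _ _ _ (by positivity), hcardF]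
    have hsub : (Finset.univ.filter (fun x => (φ n a * φ n b) x ≠ (φ n (a * b)) x)) ⊆
        (Finset.univ.filter (fun x : {x // x ∈ F n} => b * x.1 ∉ F n)) ∪
        (Finset.univ.filter (fun x : {x // x ∈ F n} => a * b * x.1 ∉ F n)) := by
      intro x hx
      by_contra hnot
      rw [Finset.mem_union, not_or] at hnot
      simp only [Finset.mem_filter, Finset.mem_univ, true_and, not_not] at hnot hx
      apply hx
      have e1 := hφ n b x ⟨_, hnot.1⟩ rfl
      have e2 := hφ n (a * b) x ⟨_, hnot.2⟩ rfl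
      rw [Perm.mul_apply, e1, e2]
      apply hφ
      show a * (b * x.1) = a * b * x.1
      rw [mul_assoc]
    have h1 := (Finset.card_le_card hsub).trans (Finset.card_union_le _ _)
    refine (Nat.cast_le.mpr h1).trans ?_
    push_cast
    linarith
  · intro g hg
    refine ⟨1 / 2, by norm_num, ?_⟩
    filter_upwards [hev g, eventually_ge_atTop 1] with n g1 g2
    have h1 : (e n).permCongrHom (1 : Perm {x // x ∈ F n}) = 1 := map_one _
    rw [← h1, hammingDist_permCongr]
    unfold Stab.hammingDist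
    rw [hcardF, le_div_iff₀ (by exact_mod_cast (hF1 n).card_pos)]
    have h2 : (F n).card ≤ (Finset.univ.filter
        (fun x : {x // x ∈ F n} => φ n g x ≠ (1 : Perm {x // x ∈ F n}) x)).card +
        (Finset.univ.filter (fun x : {x // x ∈ F n} => g * x.1 ∉ F n)).card := by
      rw [← hcardF n, ← Finset.card_univ]
      refine (Finset.card_le_card ?_).trans (Finset.card_union_le _ _)
      intro x _
      rw [Finset.mem_union, Finset.mem_filter, Finset.mem_filter]
      by_cases hx : g * x.1 ∈ F n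
      · left
        refine ⟨Finset.mem_univ _, fun h3 => hg ?_⟩
        rw [hφ n g x ⟨_, hx⟩ rfl, Perm.one_apply] at h3
        have h4 : g * x.1 = x.1 := congrArg Subtype.val h3
        exact mul_eq_right.mp h4
      · right
        exact ⟨Finset.mem_univ _, hx⟩
    have h3 : ((F n).card : ℝ) ≤ ((Finset.univ.filter
        (fun x : {x // x ∈ F n} => φ n g x ≠ (1 : Perm {x // x ∈ F n}) x)).card : ℝ) +
        ((Finset.univ.filter (fun x : {x // x ∈ F n} => g * x.1 ∉ F n)).card : ℝ) := by
      exact_mod_cast h2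
    have h4 : 1 / ((n : ℝ) + 1) ≤ 1 / 2 := by
      apply one_div_le_one_div_of_le (by norm_num)
      have : (1 : ℝ) ≤ n := by exact_mod_cast g2
      linarith
    have h5 : 1 / ((n : ℝ) + 1) * ((F n).card : ℝ) ≤ 1 / 2 * (F n).card := by gcongr
    linarith

theorem not_killed_of_folner {G : Type} [Group G] [Countable G] (hG : Folner G)
    (h : PermutationStable G) (g : G) (hg : g ≠ 1) : ¬ Killed g := by
  obtain ⟨m, ψ, hψ⟩ := exists_hom_ne (flex_of_stable (O := opsP) ((permStable_iff G).mp h))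
    (sofic_of_folner hG) g hg
  exact fun hk => hψ (hk (Perm (Fin m)) ψ)

/-- Amalgams over finite groups of countable amenable permutation stable groups are permutation
stable. -/
theorem permStable_amalg_amenable {G₁ G₂ H : Type} [Group G₁] [Group G₂] [Group H] [Countable G₁]
    [Countable G₂] [Finite H] (f₁ : H →* G₁) (f₂ : H →* G₂) (hf₁ : Function.Injective f₁)
    (hf₂ : Function.Injective f₂) (ha₁ : Folner G₁) (ha₂ : Folner G₂)
    (hs₁ : PermutationStable G₁) (hs₂ : PermutationStable G₂) :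
    PermutationStable (AmalgProd f₁ f₂) := by
  have := Fintype.ofFinite H
  have hres : SameRes f₁ f₂ := sameRes_of f₁ f₂ hf₁ hf₂ (not_killed_of_folner ha₁ hs₁)
    (not_killed_of_folner ha₂ hs₂)
  rw [permStable_iff] at hs₁ hs₂ ⊢
  exact stable_amalg_of_matching permCls_metric
    (fun F₁ F₂ ε hε => strict_matching (O := opsP) permCls_metric haddP hconjP
      (absorbP f₁ f₂ hres) (absorbP f₂ f₁ fun h => (hres h).symm)
      (PD_perm f₁ ha₁ hs₁) (PD_perm f₂ ha₂ hs₂) F₁ F₂ ε hε) hs₁ hs₂

end Pool.Agent.H698R4
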